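import Pool.Agent.Lib_MP_7f70a7_al.Thm

/-!
MP_7f70a7_al: auxiliary facts on finitely generated subgroups.
-/

set_option autoImplicit false

open scoped Pointwise

namespace Pool.Agent.RatBool

section ab
variable {G : Type} [Group G]

/-- commuting elements -/
def Ab (A : Subgroup G) : Prop := ∀ x ∈ A, ∀ y ∈ A, x * y = y * x

/-- subgroups of f.g. commutative groups are f.g. -/
theorem fg_of_comm (A : Type) [CommGroup A] (hA : Group.FG A) (B : Subgroup A) : B.FG := by
  have h1 : AddGroup.FG (Additive A) := GroupFG.iff_add_fg.1 hA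
  have h2 : Module.Finite ℤ (Additive A) := Module.Finite.iff_addGroup_fg.2 h1
  have h3 : IsNoetherian ℤ (Additive A) := inferInstance
  have h4 := h3.noetherian (AddSubgroup.toIntSubmodule B.toAddSubgroup)
  rw [Submodule.fg_iff_addSubgroup_fg, AddSubgroup.toIntSubmodule_toAddSubgroup] at h4
  exact (Subgroup.fg_iff_add_fg B).2 h4

theorem FG_map {G' : Type} [Group G'] (f : G →* G') {K : Subgroup G} (hK : K.FG) :
    (K.map f).FG := by
  obtain ⟨F, rfl⟩ := hK
  classical
  refine ⟨F.image f, ?_⟩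
  rw [MonoidHom.map_closure, Finset.coe_image]

theorem FG_of_finite {F : Set G} (hF : F.Finite) : (Subgroup.closure F).FG :=
  ⟨hF.toFinset, by simp⟩

theorem fg_of_le_ab {A B : Subgroup G} (hA : A.FG) (hab : Ab A) (hBA : B ≤ A) : B.FG := by
  let _ : CommGroup A := { (inferInstance : Group A) with
    mul_comm := fun x y => Subtype.ext (hab x x.2 y y.2) }
  have h1 : Group.FG A := (Group.fg_iff_subgroup_fg A).2 hA
  have h2 := fg_of_comm A h1 (B.subgroupOf A)
  have h3 := FG_map A.subtype h2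
  rw [Subgroup.subgroupOf_map_subtype, inf_eq_left.2 hBA] at h3
  exact h3

theorem finite_of_torsion {A : Subgroup G} (hA : A.FG) (hab : Ab A)
    (ht : ∀ a ∈ A, IsOfFinOrder a) : (A : Set G).Finite := by
  let _ : CommGroup A := { (inferInstance : Group A) with
    mul_comm := fun x y => Subtype.ext (hab x x.2 y y.2) }
  have h1 : Group.FG A := (Group.fg_iff_subgroup_fg A).2 hA
  have h2 : Finite A := CommGroup.finite_of_fg_isMulTorsion A
    (fun a => (Submonoid.isOfFinOrder_coe (H := A.toSubmonoid)).1 (ht a a.2))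
  exact h2

theorem finite_of_relIndex {A P : Subgroup G} (hA : (A : Set G).Finite)
    (hi : A.relIndex P ≠ 0) : (P : Set G).Finite := by
  obtain ⟨R, hR, h⟩ := exists_cover (S := A.subgroupOf P) hi
  have h1 : (P : Set G) ⊆ (P.subtype '' R) * (A : Set G) := by
    intro p hp
    obtain ⟨r, hr, hrp⟩ := h ⟨p, hp⟩
    refine ⟨r, ⟨r, hr, rfl⟩, (r : G)⁻¹ * p, ?_, ?_⟩
    · exact Subgroup.mem_subgroupOf.1 hrp
    · show (r : G) * ((r : G)⁻¹ * p) = p
      group
  exact ((hR.image _).mul hA).subset h1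

theorem finite_sup {P Q : Subgroup G} [P.Normal] (hP : (P : Set G).Finite)
    (hQ : (Q : Set G).Finite) : ((P ⊔ Q : Subgroup G) : Set G).Finite := by
  rw [Subgroup.normal_mul]
  exact hP.mul hQ

/-- a power commutes with a given element of a finite normal subgroup -/
theorem exists_pow_commute {P : Subgroup G} [hP : P.Normal] (hfin : (P : Set G).Finite) (h : G)
    {c : G} (hc : c ∈ P) : ∃ n : ℕ, 1 ≤ n ∧ Commute (h ^ n) c := by
  have : Finite P := hfin
  obtain ⟨i, j, hij, e⟩ := Finite.exists_ne_map_eq_of_infinite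
    (fun n : ℕ => (⟨h ^ n * c * (h ^ n)⁻¹, hP.conj_mem c hc _⟩ : P))
  have e' : h ^ i * c * (h ^ i)⁻¹ = h ^ j * c * (h ^ j)⁻¹ := congrArg Subtype.val e
  clear e
  wlog hlt : i < j generalizing i j
  · exact this j i hij.symm e'.symm (by omega)
  refine ⟨j - i, by omega, ?_⟩
  have h1 : h ^ j = h ^ i * h ^ (j - i) := by rw [← pow_add]; congr 1; omega
  rw [h1] at e'
  show h ^ (j - i) * c = c * h ^ (j - i)
  have h2 : c = h ^ (j - i) * c * (h ^ (j - i))⁻¹ := by
    have : h ^ i * h ^ (j - i) * c * (h ^ i * h ^ (j - i))⁻¹ =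
      h ^ i * (h ^ (j - i) * c * (h ^ (j - i))⁻¹) * (h ^ i)⁻¹ := by group
    rw [this] at e'
    exact mul_left_cancel (mul_right_cancel e')
  exact (eq_mul_inv_iff_mul_eq.1 h2).symm

/-- Elements of a family of finite normal subgroups: a finitely generated subgroup whose
commutators are in the union meets it in a subset of one member -/
theorem exists_finite_normal (C : Subgroup G)
    (hfin : ∀ c ∈ C, ∃ P : Subgroup G, P.Normal ∧ (P : Set G).Finite ∧ c ∈ P ∧ P ≤ C)
    {F : Set G} (hF : F.Finite) (hFC : F ⊆ C) :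
    ∃ P : Subgroup G, P.Normal ∧ (P : Set G).Finite ∧ F ⊆ P ∧ P ≤ C := by
  induction F, hF using Set.Finite.induction_on with
  | empty =>
    exact ⟨⊥, inferInstance, by simp, Set.empty_subset _, bot_le⟩
  | @insert f F _ _ ih =>
    obtain ⟨P, h1, h2, h3, h4⟩ := ih ((Set.subset_insert _ _).trans hFC)
    obtain ⟨Q, k1, k2, k3, k4⟩ := hfin f (hFC (Set.mem_insert _ _))
    refine ⟨P ⊔ Q, inferInstance, finite_sup h2 k2, ?_, sup_le h4 k4⟩
    intro x hx
    rcases Set.mem_insert_iff.1 hx with rfl | hx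
    · exact Subgroup.mem_sup_right k3
    · exact Subgroup.mem_sup_left (h3 hx)

theorem exists_finite_normal_inf (C : Subgroup G)
    (hfin : ∀ c ∈ C, ∃ P : Subgroup G, P.Normal ∧ (P : Set G).Finite ∧ c ∈ P ∧ P ≤ C)
    {F : Set G} (hF : F.Finite)
    (hcomm : ∀ x ∈ F, ∀ y ∈ F, x * y * x⁻¹ * y⁻¹ ∈ C) :
    ∃ P : Subgroup G, P.Normal ∧ (P : Set G).Finite ∧ Subgroup.closure F ⊓ C ≤ P ∧ P ≤ C := by
  obtain ⟨P, h1, h2, h3, h4⟩ := exists_finite_normal C hfin
    (F := (fun p : G × G => p.1 * p.2 * p.1⁻¹ * p.2⁻¹) '' (F ×ˢ F)) ((hF.prod hF).image _) (by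
      rintro _ ⟨⟨x, y⟩, ⟨hx, hy⟩, rfl⟩
      exact hcomm x hx y hy)
  set π := QuotientGroup.mk' P with hπ
  have hcl : Ab ((Subgroup.closure F).map π) := by
    rw [MonoidHom.map_closure]
    have hgen : ∀ x ∈ π '' F, ∀ y ∈ π '' F, x * y = y * x := by
      rintro _ ⟨x, hx, rfl⟩ _ ⟨y, hy, rfl⟩
      have h5 : x * y * x⁻¹ * y⁻¹ ∈ P := h3 ⟨⟨x, y⟩, ⟨hx, hy⟩, rfl⟩
      have h6 : π (x * y * x⁻¹ * y⁻¹) = 1 := (QuotientGroup.eq_one_iff _).2 h5
      rw [map_mul, map_mul, map_mul, map_inv, map_inv] at h6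
      have h7 : π x * π y * (π x)⁻¹ = π y := mul_inv_eq_one.1 h6
      exact mul_inv_eq_iff_eq_mul.1 h7
    intro x hx y hy
    have h8 : x ∈ Subgroup.centralizer (Subgroup.closure (π '' F) : Set (G ⧸ P)) := by
      have h9 : Subgroup.closure (π '' F) ≤
          Subgroup.centralizer (Subgroup.closure (π '' F) : Set (G ⧸ P)) := by
        rw [Subgroup.closure_le, Subgroup.centralizer_closure]
        intro z hz
        rw [SetLike.mem_coe, Subgroup.mem_centralizer_iff]
        intro w hw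
        exact hgen w hw z hz
      exact h9 hx
    rw [Subgroup.mem_centralizer_iff] at h8
    exact (h8 y hy).symm
  have hfg : ((Subgroup.closure F).map π).FG := FG_map π (FG_of_finite hF)
  have h5 : ((Subgroup.closure F ⊓ C).map π).FG :=
    fg_of_le_ab hfg hcl (Subgroup.map_mono inf_le_left)
  obtain ⟨T, hT⟩ := h5
  have hTsub : ∀ t ∈ T, ∃ c ∈ C, π c = t := by
    intro t ht
    have : t ∈ (Subgroup.closure F ⊓ C).map π := by
      rw [← hT]
      exact Subgroup.subset_closure ht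
    obtain ⟨c, hc, rfl⟩ := this
    exact ⟨c, hc.2, rfl⟩
  choose! g hgC hg using hTsub
  obtain ⟨Q, k1, k2, k3, k4⟩ := exists_finite_normal C hfin (F := g '' (T : Set (G ⧸ P)))
    (T.finite_toSet.image _) (by
      rintro _ ⟨t, ht, rfl⟩
      exact hgC t ht)
  refine ⟨P ⊔ Q, inferInstance, finite_sup h2 k2, ?_, sup_le h4 k4⟩
  intro x hx
  have h6 : π x ∈ Subgroup.closure (T : Set (G ⧸ P)) := by
    rw [hT]
    exact Subgroup.mem_map_of_mem π hx
  have h7 : Subgroup.closure (T : Set (G ⧸ P)) ≤ Q.map π := by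
    rw [Subgroup.closure_le]
    intro t ht
    exact ⟨g t, k3 ⟨t, ht, rfl⟩, hg t ht⟩
  obtain ⟨q, hq, hqx⟩ := h7 h6
  have h8 : q⁻¹ * x ∈ P := QuotientGroup.eq.1 hqx
  have h9 : x = (q * (q⁻¹ * x) * q⁻¹) * q := by group
  rw [h9]
  exact mul_mem (Subgroup.mem_sup_left (h1.conj_mem _ h8 q)) (Subgroup.mem_sup_right hq)

end ab

end Pool.Agent.RatBool
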