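import Mathlib

set_option autoImplicit false

namespace Pool.Agent.RatBool

open Polynomial

section Dichotomy

theorem pow_sub_one_dvd (s t : ℕ) : ((X : ℤ[X]) ^ s - 1) ∣ (X : ℤ[X]) ^ (t * s) - 1 := by
  have h := sub_dvd_pow_sub_pow ((X : ℤ[X]) ^ s) 1 t
  rwa [one_pow, ← pow_mul, mul_comm s t] at h

theorem pow_sub_one_dvd' (s t : ℕ) : ((X : ℤ[X]) ^ t - 1) ∣ (X : ℤ[X]) ^ (t * s) - 1 := by
  rw [mul_comm]; exact pow_sub_one_dvd t s

theorem alg_dichotomy {M : Type} [AddCommGroup M] [Module ℤ[X] M] (m : M) :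
    (∃ s n : ℕ, 1 ≤ s ∧ ((X : ℤ[X]) ^ s - 1) ^ n • m = 0) ∨
    ∃ (g : ℤ[X]) (I : Ideal ℤ[X]), (∀ h : ℤ[X], h ∈ I ↔ h • (g • m) = 0) ∧ I.IsPrime ∧
      ∀ s : ℕ, 1 ≤ s → (X : ℤ[X]) ^ s - 1 ∉ I := by
  by_cases hm : ∃ s n : ℕ, 1 ≤ s ∧ ((X : ℤ[X]) ^ s - 1) ^ n • m = 0
  · exact Or.inl hm
  right
  set S : Set (Ideal ℤ[X]) := {J | ∃ g : ℤ[X], (¬ ∃ s n : ℕ, 1 ≤ s ∧ ((X : ℤ[X]) ^ s - 1) ^ n • (g • m) = 0) ∧
    J = Ideal.torsionOf ℤ[X] M (g • m)} with hS
  have hne : S.Nonempty := ⟨Ideal.torsionOf ℤ[X] M ((1 : ℤ[X]) • m), 1, by simpa using hm, rfl⟩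
  obtain ⟨I, ⟨g, hg, hIg⟩, hmax⟩ := (wellFounded_gt : WellFounded ((· > ·) : Ideal ℤ[X] → Ideal ℤ[X] → Prop)).has_min S hne
  have hmem : ∀ h : ℤ[X], h ∈ I ↔ h • (g • m) = 0 := by
    intro h; rw [hIg, Ideal.mem_torsionOf_iff]
  have key : ∀ c : ℤ[X], (¬ ∃ s n : ℕ, 1 ≤ s ∧ ((X : ℤ[X]) ^ s - 1) ^ n • ((c * g) • m) = 0) →
      ∀ h : ℤ[X], h • (c • (g • m)) = 0 → h ∈ I := by
    intro c hc h hh
    have hmemS : Ideal.torsionOf ℤ[X] M ((c * g) • m) ∈ S := ⟨c * g, hc, rfl⟩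
    have hle : I ≤ Ideal.torsionOf ℤ[X] M ((c * g) • m) := by
      intro a ha
      rw [Ideal.mem_torsionOf_iff]
      have := (hmem a).1 ha
      rw [mul_smul, smul_comm, this, smul_zero]
    have hnot := hmax _ hmemS
    have heq : I = Ideal.torsionOf ℤ[X] M ((c * g) • m) := by
      by_contra hne'
      exact hnot (lt_of_le_of_ne hle hne')
    rw [heq, Ideal.mem_torsionOf_iff, mul_smul]
    exact hh
  refine ⟨g, I, hmem, ⟨?_, ?_⟩, ?_⟩
  · intro htop
    apply hg
    refine ⟨1, 0, le_refl _, ?_⟩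
    have h1 : (1 : ℤ[X]) ∈ I := htop ▸ Submodule.mem_top
    rw [pow_zero]
    exact (hmem 1).1 h1
  · intro a b hab
    by_cases ha : a ∈ I
    · exact Or.inl ha
    right
    have hab' : b • (a • (g • m)) = 0 := by
      have := (hmem _).1 hab
      rw [mul_comm, mul_smul] at this
      exact this
    by_cases hag : ∃ s n : ℕ, 1 ≤ s ∧ ((X : ℤ[X]) ^ s - 1) ^ n • ((a * g) • m) = 0
    · exfalso
      obtain ⟨s, n, hs, hsn⟩ := hag
      apply ha
      refine key (((X : ℤ[X]) ^ s - 1) ^ n) ?_ a ?_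
      · rintro ⟨t, k, ht, htk⟩
        apply hg
        refine ⟨t * s, k + n, Nat.mul_pos ht hs, ?_⟩
        obtain ⟨u, hu⟩ := pow_sub_one_dvd' s t
        obtain ⟨v, hv⟩ := pow_sub_one_dvd s t
        have e : ((X : ℤ[X]) ^ (t * s) - 1) ^ (k + n) =
            (u ^ k * v ^ n) * (((X : ℤ[X]) ^ t - 1) ^ k * ((X : ℤ[X]) ^ s - 1) ^ n) := by
          rw [pow_add]
          conv_lhs => rw [hu]
          rw [mul_pow, ← hu, hv, mul_pow]
          ring
        have e2 : ((u ^ k * v ^ n) * (((X : ℤ[X]) ^ t - 1) ^ k * ((X : ℤ[X]) ^ s - 1) ^ n)) • (g • m) =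
            (u ^ k * v ^ n) • (((X : ℤ[X]) ^ t - 1) ^ k • ((((X : ℤ[X]) ^ s - 1) ^ n * g) • m)) := by
          simp only [mul_smul]
        rw [e, e2, htk, smul_zero]
      · rw [smul_comm, ← mul_smul a g m]
        exact hsn
    · exact key a hag b hab'
  · intro s hs hX
    apply hg
    exact ⟨s, 1, hs, by rw [pow_one]; exact (hmem _).1 hX⟩

end Dichotomy

section Classify

theorem exists_mul_dvd_of_min (I : Ideal ℤ[X]) (f : ℤ[X]) (hf : f ∈ I) (hf0 : f ≠ 0)
    (hmin : ∀ g ∈ I, g ≠ 0 → f.natDegree ≤ g.natDegree) (hpos : 0 < f.natDegree) :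
    ∀ (d : ℕ) (g : ℤ[X]), g.natDegree ≤ d → g ∈ I → ∃ c : ℤ, c ≠ 0 ∧ f ∣ C c * g := by
  intro d
  induction d with
  | zero =>
    intro g hgd hg
    by_cases h0 : g = 0
    · exact ⟨1, one_ne_zero, by rw [h0, mul_zero]; exact dvd_zero f⟩
    · have := hmin g hg h0
      omega
  | succ d ih =>
    intro g hgd hg
    by_cases h0 : g = 0
    · exact ⟨1, one_ne_zero, by rw [h0, mul_zero]; exact dvd_zero f⟩
    have hfg := hmin g hg h0
    have hcl : (f.cancelLeads g).natDegree < g.natDegree :=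
      natDegree_cancelLeads_lt_of_natDegree_le_natDegree hfg (lt_of_lt_of_le hpos hfg)
    have hmemc : f.cancelLeads g ∈ I := by
      unfold cancelLeads
      exact I.sub_mem (I.mul_mem_left _ hg) (I.mul_mem_left _ hf)
    obtain ⟨c, hc, hdvd⟩ := ih (f.cancelLeads g) (by omega) hmemc
    refine ⟨c * f.leadingCoeff, mul_ne_zero hc (leadingCoeff_ne_zero.2 hf0), ?_⟩
    have e : C (c * f.leadingCoeff) * g = C c * f.cancelLeads g +
        f * (C c * (C g.leadingCoeff * X ^ (g.natDegree - f.natDegree))) := by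
      unfold cancelLeads
      rw [Nat.sub_eq_zero_of_le hfg, pow_zero, mul_one, C_mul]
      ring
    rw [e]
    exact dvd_add hdvd (dvd_mul_right f _)

theorem dvd_of_primitive_dvd_C_mul (f g : ℤ[X]) (hf : f.IsPrimitive) (c : ℤ) (hc : c ≠ 0)
    (h : f ∣ C c * g) : f ∣ g := by
  obtain ⟨q, hq⟩ := h
  have h1 : c ∣ (f * q).content := by
    rw [dvd_content_iff_C_dvd, ← hq]
    exact dvd_mul_right _ _
  rw [content_mul, hf.content_eq_one, one_mul, dvd_content_iff_C_dvd] at h1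
  obtain ⟨q', hq'⟩ := h1
  refine ⟨q', ?_⟩
  have : C c * g = C c * (f * q') := by rw [hq, hq']; ring
  exact mul_left_cancel₀ (C_ne_zero.2 hc) this

theorem principal_of_prime (I : Ideal ℤ[X]) (hI : I.IsPrime) (hI0 : I ≠ ⊥)
    (hZ : ∀ n : ℤ, C n ∈ I → n = 0) :
    ∃ f : ℤ[X], f.IsPrimitive ∧ 0 < f.natDegree ∧ ∀ g, g ∈ I ↔ f ∣ g := by
  classical
  have hex : ∃ d : ℕ, ∃ f ∈ I, f ≠ 0 ∧ f.natDegree = d := by
    obtain ⟨f, hf, hf0⟩ := Submodule.exists_mem_ne_zero_of_ne_bot hI0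
    exact ⟨_, f, hf, hf0, rfl⟩
  obtain ⟨f0, hf0I, hf00, hfd⟩ := Nat.find_spec hex
  have hmin0 : ∀ g ∈ I, g ≠ 0 → Nat.find hex ≤ g.natDegree := fun g hg hg0 =>
    Nat.find_min' hex ⟨g, hg, hg0, rfl⟩
  have hcont : f0.content ≠ 0 := by rwa [Ne, content_eq_zero_iff]
  have hprim : f0.primPart ∈ I := by
    have h1 : C f0.content * f0.primPart ∈ I := by
      rw [← eq_C_content_mul_primPart]; exact hf0I
    rcases hI.mem_or_mem h1 with h | h
    · exact absurd (hZ _ h) hcont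
    · exact h
  have hpp0 : f0.primPart ≠ 0 := primPart_ne_zero f0
  have hdeg : f0.primPart.natDegree = Nat.find hex := by rw [natDegree_primPart, hfd]
  have hpos : 0 < f0.primPart.natDegree := by
    by_contra hcon
    have h0 : f0.primPart.natDegree = 0 := by omega
    rw [natDegree_eq_zero] at h0
    obtain ⟨n, hn⟩ := h0
    rw [← hn] at hprim hpp0
    have := hZ n hprim
    rw [this, C_0] at hpp0
    exact hpp0 rfl
  refine ⟨f0.primPart, isPrimitive_primPart f0, hpos, fun g => ⟨fun hg => ?_, fun hg => ?_⟩⟩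
  · obtain ⟨c, hc, hdvd⟩ := exists_mul_dvd_of_min I f0.primPart hprim hpp0
      (fun g hg hg0 => by rw [hdeg]; exact hmin0 g hg hg0) hpos g.natDegree g (le_refl _) hg
    exact dvd_of_primitive_dvd_C_mul _ _ (isPrimitive_primPart f0) c hc hdvd
  · obtain ⟨q, hq⟩ := hg
    rw [hq]
    exact I.mul_mem_right q hprim

theorem map_zero_iff_of_mem (I : Ideal ℤ[X]) (hI : I.IsPrime) (hX : (X : ℤ[X]) ∉ I)
    (hs : ∀ s : ℕ, 1 ≤ s → (X : ℤ[X]) ^ s - 1 ∉ I) (p : ℕ) (hp : p.Prime)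
    (hpI : C (p : ℤ) ∈ I) (g : ℤ[X]) : g ∈ I ↔ g.map (Int.castRingHom (ZMod p)) = 0 := by
  haveI : Fact p.Prime := ⟨hp⟩
  have hker : ∀ h : ℤ[X], h.map (Int.castRingHom (ZMod p)) = 0 → ∃ q : ℤ[X], h = C (p : ℤ) * q := by
    intro h hh
    have : C (p : ℤ) ∣ h := by
      rw [C_dvd_iff_dvd_coeff]
      intro i
      have hc := congrArg (fun r => r.coeff i) hh
      simp only [coeff_map, coeff_zero, eq_intCast] at hc
      exact (ZMod.intCast_zmod_eq_zero_iff_dvd _ _).1 hc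
    exact this
  constructor
  · intro hg
    by_contra hne
    set gb := g.map (Int.castRingHom (ZMod p)) with hgb
    -- pigeonhole on the powers of X modulo gb
    have hfin : Finite (degreeLT (ZMod p) gb.natDegree.succ) :=
      Finite.of_equiv _ (degreeLTEquiv (ZMod p) gb.natDegree.succ).toEquiv.symm
    let φ : ℕ → degreeLT (ZMod p) gb.natDegree.succ := fun k =>
      ⟨(X ^ k) % gb, by
        rw [mem_degreeLT]
        refine lt_of_lt_of_le (degree_mod_lt _ hne) ?_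
        refine le_trans degree_le_natDegree ?_
        exact_mod_cast Nat.le_succ _⟩
    obtain ⟨k, l, hkl, hφ⟩ := Finite.exists_ne_map_eq_of_infinite φ
    have hmod : ((X : (ZMod p)[X]) ^ k) % gb = (X ^ l) % gb := congrArg Subtype.val hφ
    have main : ∀ k l : ℕ, k < l → ((X : (ZMod p)[X]) ^ k) % gb = (X ^ l) % gb → False := by
      intro k l hkl hmod
      have hdvd : gb ∣ (X : (ZMod p)[X]) ^ l - X ^ k := by
        have e1 := EuclideanDomain.div_add_mod ((X : (ZMod p)[X]) ^ k) gb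
        have e2 := EuclideanDomain.div_add_mod ((X : (ZMod p)[X]) ^ l) gb
        refine ⟨X ^ l / gb - X ^ k / gb, ?_⟩
        calc (X : (ZMod p)[X]) ^ l - X ^ k = (gb * (X ^ l / gb) + X ^ l % gb) - (gb * (X ^ k / gb) + X ^ k % gb) := by
              rw [e1, e2]
          _ = gb * (X ^ l / gb - X ^ k / gb) := by rw [hmod]; ring
      obtain ⟨q, hq⟩ := hdvd
      obtain ⟨Q, hQ⟩ := map_surjective (Int.castRingHom (ZMod p)) (ZMod.intCast_surjective) q
      have hz : ((X : ℤ[X]) ^ l - X ^ k - g * Q).map (Int.castRingHom (ZMod p)) = 0 := by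
        rw [Polynomial.map_sub, Polynomial.map_sub, Polynomial.map_mul, Polynomial.map_pow, Polynomial.map_pow, map_X, hQ, hq]
        ring
      obtain ⟨r, hr⟩ := hker _ hz
      have hin : (X : ℤ[X]) ^ k * (X ^ (l - k) - 1) ∈ I := by
        have e : (X : ℤ[X]) ^ k * (X ^ (l - k) - 1) = g * Q + C (p : ℤ) * r := by
          have e3 : (X : ℤ[X]) ^ l = X ^ k * X ^ (l - k) := by
            rw [← pow_add]; congr 1; omega
          rw [e3] at hr
          linear_combination hr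
        rw [e]
        exact I.add_mem (I.mul_mem_right _ hg) (I.mul_mem_right _ hpI)
      rcases hI.mem_or_mem hin with h | h
      · exact hX (hI.mem_of_pow_mem k h)
      · exact hs (l - k) (by omega) h
    rcases lt_or_gt_of_ne hkl with h | h
    · exact main k l h hmod
    · exact main l k h hmod.symm
  · intro hg
    obtain ⟨q, hq⟩ := hker g hg
    rw [hq]
    exact I.mul_mem_right q hpI

theorem alg_classify (I : Ideal ℤ[X]) (hI : I.IsPrime) (hX : (X : ℤ[X]) ∉ I)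
    (hs : ∀ s : ℕ, 1 ≤ s → (X : ℤ[X]) ^ s - 1 ∉ I) :
    (∃ p : ℕ, p ≠ 1 ∧ ∀ g : ℤ[X], g ∈ I ↔ g.map (Int.castRingHom (ZMod p)) = 0) ∨
    (∃ (f : ℤ[X]) (z : ℂ), 0 < f.natDegree ∧ f.coeff 0 ≠ 0 ∧ z ≠ 0 ∧ (∀ g, g ∈ I ↔ f ∣ g) ∧
      (∀ g : ℤ[X], g ∈ I ↔ aeval z g = 0)) := by
  by_cases hI0 : I = ⊥
  · left
    refine ⟨0, zero_ne_one, fun g => ?_⟩
    rw [hI0, Submodule.mem_bot]
    have hinj : Function.Injective (Int.castRingHom (ZMod 0)) := by
      intro a b hab
      simpa using hab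
    exact (Polynomial.map_eq_zero_iff hinj).symm
  by_cases hZ : ∀ n : ℤ, C n ∈ I → n = 0
  · right
    obtain ⟨f, hfp, hfd, hf⟩ := principal_of_prime I hI hI0 hZ
    have hf0 : f ≠ 0 := hfp.ne_zero
    have hc0 : f.coeff 0 ≠ 0 := by
      intro h0
      obtain ⟨q, hq⟩ := X_dvd_iff.2 h0
      have hfI : X * q ∈ I := by rw [← hq]; exact (hf f).2 (dvd_refl f)
      rcases hI.mem_or_mem hfI with h | h
      · exact hX h
      · have hq0 : q ≠ 0 := by
          rintro rfl
          rw [mul_zero] at hq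
          exact hf0 hq
        have h1 := natDegree_le_of_dvd ((hf q).1 h) hq0
        rw [hq, natDegree_X_mul hq0] at h1
        omega
    have hdegC : (f.map (Int.castRingHom ℂ)).degree ≠ 0 := by
      rw [degree_map_eq_of_injective (RingHom.injective_int _)]
      intro h
      rw [degree_eq_natDegree hf0] at h
      have : f.natDegree = 0 := by exact_mod_cast h
      omega
    obtain ⟨z, hz⟩ := IsAlgClosed.exists_root (f.map (Int.castRingHom ℂ)) hdegC
    have hzf : aeval z f = 0 := by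
      rw [IsRoot.def, eval_map] at hz
      rw [aeval_def]
      exact hz
    have hz0 : z ≠ 0 := by
      rintro rfl
      apply hc0
      rw [← coeff_zero_eq_aeval_zero'] at hzf
      simpa using hzf
    refine ⟨f, z, hfd, hc0, hz0, hf, ?_⟩
    -- the kernel of evaluation at z
    set J : Ideal ℤ[X] := RingHom.ker (aeval z : ℤ[X] →ₐ[ℤ] ℂ) with hJ
    have hJp : J.IsPrime := RingHom.ker_isPrime _
    have hJmem : ∀ g : ℤ[X], g ∈ J ↔ aeval z g = 0 := fun g => RingHom.mem_ker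
    have hJ0 : J ≠ ⊥ := by
      intro hb
      have : f ∈ J := (hJmem f).2 hzf
      rw [hb, Submodule.mem_bot] at this
      exact hf0 this
    have hJZ : ∀ n : ℤ, C n ∈ J → n = 0 := by
      intro n hn
      have := (hJmem _).1 hn
      rw [aeval_C] at this
      simpa using this
    obtain ⟨h, hhp, hhd, hh⟩ := principal_of_prime J hJp hJ0 hJZ
    have hfh : h ∣ f := (hh f).1 ((hJmem f).2 hzf)
    have hhf : f ∣ h := by
      obtain ⟨q, hq⟩ := hfh
      have : h * q ∈ I := by rw [← hq]; exact (hf f).2 (dvd_refl f)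
      rcases hI.mem_or_mem this with h1 | h1
      · exact (hf h).1 h1
      · exfalso
        have hdv := (hf q).1 h1
        have hq0 : q ≠ 0 := by
          rintro rfl
          rw [mul_zero] at hq
          exact hf0 hq
        have h2 := natDegree_le_of_dvd hdv hq0
        rw [hq, natDegree_mul hhp.ne_zero hq0] at h2
        omega
    intro g
    rw [← hJmem g, hh g, hf g]
    exact ⟨fun h1 => dvd_trans hfh h1, fun h1 => dvd_trans hhf h1⟩
  · left
    push Not at hZ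
    obtain ⟨n, hn, hn0⟩ := hZ
    -- a prime integer in I
    have hexp : ∃ p : ℕ, p.Prime ∧ C (p : ℤ) ∈ I := by
      have habs : C ((n.natAbs : ℕ) : ℤ) ∈ I := by
        rcases Int.natAbs_eq n with h | h
        · rw [← h]; exact hn
        · have : ((n.natAbs : ℕ) : ℤ) = -n := by omega
          rw [this, C_neg]
          exact I.neg_mem hn
      have hna : n.natAbs ≠ 0 := Int.natAbs_ne_zero.2 hn0
      have gen : ∀ k : ℕ, k ≠ 0 → C ((k : ℕ) : ℤ) ∈ I → ∃ p : ℕ, p.Prime ∧ C (p : ℤ) ∈ I := by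
        intro k
        induction k using Nat.strong_induction_on with
        | _ k ih =>
          intro hk0 hk
          have hk1 : k ≠ 1 := by
            rintro rfl
            apply hI.ne_top
            rw [Ideal.eq_top_iff_one]
            simpa using hk
          obtain ⟨p, hp, q, hq⟩ := Nat.exists_prime_and_dvd hk1
          have hmul : C ((p : ℕ) : ℤ) * C ((q : ℕ) : ℤ) ∈ I := by
            rw [← C_mul, ← Nat.cast_mul, ← hq]; exact hk
          rcases hI.mem_or_mem hmul with h | h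
          · exact ⟨p, hp, h⟩
          · have hq0 : q ≠ 0 := by
              rintro rfl
              rw [mul_zero] at hq
              exact hk0 hq
            refine ih q ?_ hq0 h
            rw [hq]
            have := hp.two_le
            nlinarith [Nat.pos_of_ne_zero hq0]
      exact gen _ hna habs
    obtain ⟨p, hp, hpI⟩ := hexp
    exact ⟨p, hp.ne_one, fun g => map_zero_iff_of_mem I hI hX hs p hp hpI g⟩

end Classify

section Growth

theorem no_growth (z : ℂ) (n : ℕ → ℕ) (hn : Function.Injective n) (μ : ℤ) (hμ : μ ≠ 0) (α β : ℂ)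
    (hα : α ≠ 0) (h : ∀ i : ℕ, (μ : ℂ) * z ^ n i = i * α + β) : False := by
  have hαp : 0 < ‖α‖ := norm_pos_iff.2 hα
  have hμ1 : (1 : ℝ) ≤ ‖(μ : ℂ)‖ := by
    rw [Complex.norm_intCast]
    exact_mod_cast Int.one_le_abs hμ
  rcases le_or_gt ‖z‖ 1 with hz | hz
  · obtain ⟨i, hi⟩ := exists_nat_gt ((‖(μ : ℂ)‖ + ‖β‖) / ‖α‖)
    have h1 : ‖(μ : ℂ) * z ^ n i‖ ≤ ‖(μ : ℂ)‖ := by
      rw [norm_mul, norm_pow]
      exact mul_le_of_le_one_right (norm_nonneg _) (pow_le_one₀ (norm_nonneg _) hz)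
    have h2 : (i : ℝ) * ‖α‖ - ‖β‖ ≤ ‖(i : ℂ) * α + β‖ := by
      have := norm_sub_le ((i : ℂ) * α + β) β
      rw [add_sub_cancel_right, norm_mul, Complex.norm_natCast] at this
      linarith
    rw [← h i] at h2
    rw [div_lt_iff₀ hαp] at hi
    linarith
  · -- growth case
    have hlim := tendsto_pow_const_div_const_pow_of_one_lt 1 hz
    have hlim0 := tendsto_pow_const_div_const_pow_of_one_lt 0 hz
    have hpos : 0 < ‖α‖ + ‖β‖ + 1 := by positivity
    have hev : ∀ᶠ I : ℕ in Filter.atTop, (I : ℝ) ^ 1 / ‖z‖ ^ I < 1 / (‖α‖ + ‖β‖ + 1) :=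
      hlim.eventually (gt_mem_nhds (by positivity))
    obtain ⟨I, hI, hI1⟩ := (hev.and (Filter.eventually_ge_atTop 1)).exists
    -- some i ≤ I with n i ≥ I
    have hexi : ∃ i ≤ I, I ≤ n i := by
      by_contra hcon
      push Not at hcon
      have hcard := Finset.card_le_card_of_injOn n (s := Finset.range (I + 1)) (t := Finset.range I)
        (fun i hi => Finset.mem_coe.2 (Finset.mem_range.2 (hcon i (Nat.lt_succ_iff.1 (Finset.mem_range.1 hi)))))
        hn.injOn
      rw [Finset.card_range, Finset.card_range] at hcard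
      omega
    obtain ⟨i, hi, hni⟩ := hexi
    have hzI : 0 < ‖z‖ ^ I := by positivity
    have h1 : ‖z‖ ^ I ≤ ‖(μ : ℂ) * z ^ n i‖ := by
      rw [norm_mul, norm_pow]
      have h3 : ‖z‖ ^ I ≤ ‖z‖ ^ n i := pow_le_pow_right₀ hz.le hni
      nlinarith [norm_nonneg (z ^ n i), pow_pos (lt_trans one_pos hz) (n i)]
    have h2 : ‖(i : ℂ) * α + β‖ ≤ (I : ℝ) * ‖α‖ + ‖β‖ := by
      refine le_trans (norm_add_le _ _) ?_
      rw [norm_mul, Complex.norm_natCast]
      have : (i : ℝ) ≤ I := by exact_mod_cast hi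
      nlinarith
    rw [← h i] at h2
    rw [pow_one, div_lt_div_iff₀ hzI hpos, one_mul] at hI
    have hI1' : (1 : ℝ) ≤ I := by exact_mod_cast hI1
    nlinarith [norm_nonneg β]

end Growth

end Pool.Agent.RatBool
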