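import Pool.Agent.Lib_MP_7f70a7_al.Lamp
import Pool.Agent.Lib_MP_7f70a7_al.Ab

/-!
MP_7f70a7_al: no lamplighter quotients.
-/

set_option autoImplicit false

open scoped Pointwise

namespace Pool.Agent.RatBool

/-- the set `{g^n}` -/
def pows {H : Type} [Group H] (g : H) : Set H := {x | ∃ n : ℕ, x = g ^ n}

theorem pow_mem_pows {H : Type} [Group H] (g : H) (n : ℕ) : g ^ n ∈ pows g := ⟨n, rfl⟩

theorem inv_pow_mem_pows {H : Type} [Group H] (g : H) (n : ℕ) : (g ^ n)⁻¹ ∈ pows g⁻¹ :=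
  ⟨n, by simp⟩

theorem pows_rat {H : Type} [Group H] (g : H) : RatSet (pows g) := RatSet.pows g

namespace Lamp

variable {H : Type} [Group H] {K : Type} [Ring K] (L : Lamp H K)

theorem lamp_mul_N {g h : H} (hg : L.pos g = 0) (s : ℤ) :
    L.lamp (g * h) s = L.lamp g s + L.lamp h s := by
  rw [L.lamp_mul, hg, sub_zero]

theorem lamp_inv_N {g : H} (hg : L.pos g = 0) (s : ℤ) :
    L.lamp g⁻¹ s = - L.lamp g s := by
  rw [L.lamp_inv, hg, add_zero]

theorem comm_mem_C {g h : H} (hg : L.pos g = 0) (hh : L.pos h = 0) :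
    g * h * g⁻¹ * h⁻¹ ∈ L.C := by
  have h1 : L.pos (g * h) = 0 := by rw [L.pos_mul, hg, hh]; rfl
  have h2 : L.pos g⁻¹ = 0 := by rw [L.pos_inv, hg]; rfl
  have h3 : L.pos h⁻¹ = 0 := by rw [L.pos_inv, hh]; rfl
  have h4 : L.pos (g * h * g⁻¹) = 0 := by rw [L.pos_mul, h1, h2]; rfl
  refine ⟨by rw [L.pos_mul, h4, h3]; rfl, fun s => ?_⟩
  rw [L.lamp_mul_N h4, L.lamp_mul_N h1, L.lamp_mul_N hg, L.lamp_inv_N hg, L.lamp_inv_N hh]
  abel

/-- Step 1: elements of the kernel have finite normal closure -/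
theorem finite_normal [Nontrivial K] (hH : BA H)
    (hcent : ∀ P0 : Subgroup H, P0.Normal → P0.FG → Ab P0 →
      (Subgroup.centralizer (P0 : Set H)).index ≠ 0)
    {P P0 : Subgroup H} (hP0 : P0.Normal) (hfg : P0.FG) (hab : Ab P0)
    (hle : P0 ≤ P) (hidx : P0.relIndex P ≠ 0) (hPC : P ≤ L.C)
    {y b : H} (hy : L.pos y = 1) (hly : ∀ s, L.lamp y s = 0) (hb : L.pos b = 0)
    (hlb : ∀ s, L.lamp b s = if s = 0 then 1 else 0) : (P : Set H).Finite := by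
  apply finite_of_relIndex _ hidx
  apply finite_of_torsion hfg hab
  intro f hf
  have hcen := hcent P0 hP0 hfg hab
  set Z := Subgroup.centralizer (P0 : Set H) with hZ
  obtain ⟨e, he, -, hye⟩ := Subgroup.exists_pow_mem_of_index_ne_zero hcen y
  have : Finite (H ⧸ Z) := by
    have : Z.FiniteIndex := ⟨hcen⟩
    exact Subgroup.finite_quotient_of_finiteIndex
  obtain ⟨i, j, hij, eq⟩ := Finite.exists_ne_map_eq_of_infinite
    (fun n : ℕ => (QuotientGroup.mk (y ^ n * b * (y ^ n)⁻¹) : H ⧸ Z))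
  have hmem : (y ^ i * b * (y ^ i)⁻¹)⁻¹ * (y ^ j * b * (y ^ j)⁻¹) ∈ Z := QuotientGroup.eq.1 eq
  have hpi : L.pos (y ^ i * b * (y ^ i)⁻¹) = 0 := by rw [L.pos_conj, hb]
  have hpj : L.pos (y ^ j * b * (y ^ j)⁻¹) = 0 := by rw [L.pos_conj, hb]
  have hfP : ∀ z ∈ Z, Commute f z := by
    intro z hz
    exact (Subgroup.mem_centralizer_iff.1 hz f hf)
  have hl : L.lamp ((y ^ i * b * (y ^ i)⁻¹)⁻¹ * (y ^ j * b * (y ^ j)⁻¹)) i ≠ 0 := by
    rw [L.lamp_mul, L.lamp_inv, L.pos_inv, hpi, L.lamp_conj _ _ hb, L.lamp_conj _ _ hb,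
      L.pos_pow, L.pos_pow, hy, hlb, hlb, if_pos (by ring), if_neg, add_zero]
    · exact neg_ne_zero.2 one_ne_zero
    · intro h
      apply hij
      have : (i : ℤ) = j := by linarith
      exact_mod_cast this
  refine L.pinB hH (t := y ^ e) (f := f)
    (b := (y ^ i * b * (y ^ i)⁻¹)⁻¹ * (y ^ j * b * (y ^ j)⁻¹)) ?_ ?_ ?_ ?_ ?_ ?_ hl
  · rw [L.pos_pow, hy, mul_one]
    exact_mod_cast he
  · exact L.lamp_pow_zero hly e
  · exact hPC (hle hf)
  · exact hfP _ hye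
  · exact hfP _ hmem
  · rw [L.pos_mul, L.pos_inv, hpi, hpj]
    rfl

/-- Step 2: all commutators `[b^-1, t^k b t^-k]` lie in a finite normal subgroup -/
theorem commutators_finite [Nontrivial K] (hH : BA H)
    (hfin : ∀ c ∈ L.C, ∃ P : Subgroup H, P.Normal ∧ (P : Set H).Finite ∧ c ∈ P ∧ P ≤ L.C)
    {y b : H} (hy : L.pos y = 1) (hly : ∀ s, L.lamp y s = 0) (hb : L.pos b = 0)
    (hlb : ∀ s, L.lamp b s = if s = 0 then 1 else 0) :
    ∃ P : Subgroup H, P.Normal ∧ (P : Set H).Finite ∧ P ≤ L.C ∧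
      ∀ k : ℕ, b⁻¹ * ((y ^ 2) ^ k * b * ((y ^ 2) ^ k)⁻¹) * b *
        ((y ^ 2) ^ k * b * ((y ^ 2) ^ k)⁻¹)⁻¹ ∈ P := by
  set t := y ^ 2 with ht
  have hpt : L.pos t = 2 := by rw [ht, L.pos_pow, hy]; rfl
  have hlt : ∀ s, L.lamp t s = 0 := L.lamp_pow_zero hly 2
  set f := y * b * y⁻¹ * t with hf
  have hpf : L.pos f = 2 := by rw [hf, L.pos_mul, L.pos_conj, hb, hpt]; rfl
  have hlf : ∀ s, L.lamp f s = if s = 1 then 1 else 0 := by
    intro s
    rw [hf, L.lamp_mul, hlt, add_zero, L.lamp_conj _ _ hb, hlb, hy]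
    by_cases h : s = 1
    · rw [if_pos h, if_pos (by omega)]
    · rw [if_neg h, if_neg (by omega)]
  -- the set Z
  set Z : Set H := {b⁻¹} * pows t * {b} * pows t⁻¹ * {b} * pows t * {b⁻¹} * pows t⁻¹ with hZ
  have hZr : RatSet Z := by
    rw [hZ]
    exact (((((((RatSet.single _).mul (pows_rat _)).mul (RatSet.single _)).mul
      (pows_rat _)).mul (RatSet.single _)).mul (pows_rat _)).mul (RatSet.single _)).mul
      (pows_rat _)
  have hbE : b ∈ L.Ev 2 := by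
    refine ⟨by rw [hb]; exact dvd_zero _, fun s hs => ?_⟩
    rw [hlb, if_neg]
    rintro rfl
    exact hs (dvd_zero _)
  have htE : t ∈ L.Ev 2 := ⟨by rw [hpt], fun s _ => hlt s⟩
  have hpowE : ∀ x ∈ pows t, x ∈ L.Ev 2 := by
    rintro x ⟨n, rfl⟩
    exact pow_mem htE n
  have hpowE' : ∀ x ∈ pows t⁻¹, x ∈ L.Ev 2 := by
    rintro x ⟨n, rfl⟩
    exact pow_mem (inv_mem htE) n
  have hZE : ∀ z ∈ Z, z ∈ L.Ev 2 := by
    intro z hz
    rw [hZ] at hz
    obtain ⟨z7, hz7, x8, h8, rfl⟩ := hz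
    obtain ⟨z6, hz6, x7, h7, rfl⟩ := hz7
    obtain ⟨z5, hz5, x6, h6, rfl⟩ := hz6
    obtain ⟨z4, hz4, x5, h5, rfl⟩ := hz5
    obtain ⟨z3, hz3, x4, h4, rfl⟩ := hz4
    obtain ⟨z2, hz2, x3, h3, rfl⟩ := hz3
    obtain ⟨x1, h1, x2, h2, rfl⟩ := hz2
    rw [Set.mem_singleton_iff] at h1 h3 h5 h7
    subst h1 h3 h5 h7
    exact mul_mem (mul_mem (mul_mem (mul_mem (mul_mem (mul_mem (mul_mem (inv_mem hbE)
      (hpowE _ h2)) hbE) (hpowE' _ h4)) hbE) (hpowE _ h6)) (inv_mem hbE)) (hpowE' _ h8)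
  -- the intersection
  set R : Set H := Z ∩ ({f} * pows f * Z * pows f⁻¹) with hR
  have hRr : RatSet R :=
    hZr.inter hH ((((RatSet.single _).mul (pows_rat _)).mul hZr).mul (pows_rat _))
  have hRN : ∀ z ∈ R, L.pos z = 0 := by
    rintro z ⟨hz, hz'⟩
    obtain ⟨w2, hw2, x3, ⟨j, rfl⟩, e⟩ := hz'
    obtain ⟨w1, hw1, z', hz', rfl⟩ := hw2
    obtain ⟨w0, hw0, x1, ⟨i, rfl⟩, rfl⟩ := hw1
    rw [Set.mem_singleton_iff] at hw0
    subst hw0
    have h1 := hZE z hz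
    have h2 := hZE z' hz'
    have hodd : ∀ s : ℤ, 2 ∣ s - 1 → ¬ (2 : ℤ) ∣ s := by
      intro s hs
      omega
    refine L.pin (σ := 2) (r := 1) (i := i + 1) (j := j) (by norm_num) hpf hlf
      (fun s hs => h1.2 s (hodd s hs)) (fun s hs => h2.2 s (hodd s hs)) h2.1
      (Or.inl (by omega)) (z' := z') ?_
    rw [← e, pow_succ', inv_pow]
  obtain ⟨F, hF, hFN, hRF⟩ := hRr.subset_closure_of_subset L.N hRN
  obtain ⟨P, hP1, hP2, hP3, hP4⟩ := exists_finite_normal_inf L.C hfin hF (by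
    intro x hx y hy
    exact L.comm_mem_C (hFN hx) (hFN hy))
  refine ⟨P, hP1, hP2, hP4, ?_⟩
  intro k
  set c := b⁻¹ * (t ^ k * b * (t ^ k)⁻¹) * b * (t ^ k * b * (t ^ k)⁻¹)⁻¹ with hc
  have hcC : c ∈ L.C := by
    have h1 : L.pos (t ^ k * b * (t ^ k)⁻¹) = 0 := by rw [L.pos_conj, hb]
    have h2 : L.pos b⁻¹ = 0 := by rw [L.pos_inv, hb]; rfl
    have h3 := L.comm_mem_C h2 h1
    rw [inv_inv] at h3
    exact h3
  have hcZ : c ∈ Z := by
    have e : c = b⁻¹ * t ^ k * b * (t ^ k)⁻¹ * b * t ^ k * b⁻¹ * (t ^ k)⁻¹ := by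
      rw [hc]
      group
    rw [e, hZ]
    refine Set.mul_mem_mul (Set.mul_mem_mul (Set.mul_mem_mul (Set.mul_mem_mul (Set.mul_mem_mul
      (Set.mul_mem_mul (Set.mul_mem_mul rfl (pow_mem_pows t k)) rfl) (inv_pow_mem_pows t k))
      rfl) (pow_mem_pows t k)) rfl) (inv_pow_mem_pows t k)
  have hcR : c ∈ R := by
    refine ⟨hcZ, ?_⟩
    obtain ⟨Q, hQ1, hQ2, hQ3, -⟩ := hfin c hcC
    obtain ⟨n, hn, hcomm⟩ := exists_pow_commute hQ2 f hQ3
    have e : c = f * f ^ (n - 1) * c * (f ^ n)⁻¹ := by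
      rw [← pow_succ', Nat.sub_add_cancel hn, hcomm.eq]
      group
    rw [e]
    exact Set.mul_mem_mul (Set.mul_mem_mul (Set.mul_mem_mul rfl (pow_mem_pows f _)) hcZ)
      (inv_pow_mem_pows f n)
  exact hP3 ⟨hRF hcR, hcC⟩

/-- the induced structure on a quotient by a subgroup of the kernel -/
noncomputable def quot (P : Subgroup H) [hP : P.Normal] (hPC : P ≤ L.C) : Lamp (H ⧸ P) K where
  pos := fun x => L.pos x.out
  lamp := fun x => L.lamp x.out
  pos_mul := by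
    intro g h
    have e : ((g * h : H ⧸ P)).out⁻¹ * (g.out * h.out) ∈ P := by
      apply QuotientGroup.eq.1
      rw [QuotientGroup.mk_mul, QuotientGroup.out_eq', QuotientGroup.out_eq',
        QuotientGroup.out_eq']
    have h1 := (hPC e).1
    rw [L.pos_mul, L.pos_inv, L.pos_mul] at h1
    linarith
  lamp_mul := by
    intro g h s
    have e : (g.out * h.out)⁻¹ * ((g * h : H ⧸ P)).out ∈ P := by
      apply QuotientGroup.eq.1
      rw [QuotientGroup.mk_mul, QuotientGroup.out_eq', QuotientGroup.out_eq',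
        QuotientGroup.out_eq']
    have h2 : ((g * h : H ⧸ P)).out = (g.out * h.out) *
        ((g.out * h.out)⁻¹ * ((g * h : H ⧸ P)).out) := by group
    rw [h2, L.lamp_mul (g.out * h.out), (hPC e).2, add_zero, L.lamp_mul]
  bdd := fun x => L.bdd x.out

theorem quot_pos (P : Subgroup H) [hP : P.Normal] (hPC : P ≤ L.C) (h : H) :
    (L.quot P hPC).pos (QuotientGroup.mk h) = L.pos h := by
  have e : h⁻¹ * ((QuotientGroup.mk h : H ⧸ P)).out ∈ P := by
    apply QuotientGroup.eq.1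
    rw [QuotientGroup.out_eq']
  have h2 : ((QuotientGroup.mk h : H ⧸ P)).out = h * (h⁻¹ * ((QuotientGroup.mk h : H ⧸ P)).out) := by
    group
  show L.pos ((QuotientGroup.mk h : H ⧸ P)).out = L.pos h
  rw [h2, L.pos_mul, (hPC e).1, add_zero]

theorem quot_lamp (P : Subgroup H) [hP : P.Normal] (hPC : P ≤ L.C) (h : H) (s : ℤ) :
    (L.quot P hPC).lamp (QuotientGroup.mk h) s = L.lamp h s := by
  have e : h⁻¹ * ((QuotientGroup.mk h : H ⧸ P)).out ∈ P := by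
    apply QuotientGroup.eq.1
    rw [QuotientGroup.out_eq']
  have h2 : ((QuotientGroup.mk h : H ⧸ P)).out = h * (h⁻¹ * ((QuotientGroup.mk h : H ⧸ P)).out) := by
    group
  show L.lamp ((QuotientGroup.mk h : H ⧸ P)).out s = L.lamp h s
  rw [h2, L.lamp_mul, (hPC e).2, add_zero]

/-- Step 3: the conjugates of `b` by even powers cannot commute -/
theorem howson [Nontrivial K] (hH : BA H) {y b : H} (hy : L.pos y = 1)
    (hly : ∀ s, L.lamp y s = 0) (hb : L.pos b = 0)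
    (hlb : ∀ s, L.lamp b s = if s = 0 then 1 else 0)
    (hcomm : ∀ k : ℕ, Commute b ((y ^ 2) ^ k * b * ((y ^ 2) ^ k)⁻¹)) : False := by
  set a : ℕ → H := fun k => (y ^ 2) ^ k * b * ((y ^ 2) ^ k)⁻¹ with ha
  have hca : ∀ i j, Commute (a i) (a j) := by
    have h1 : ∀ i k, Commute (a i) (a (i + k)) := by
      intro i k
      have h2 : a (i + k) = (y ^ 2) ^ i * ((y ^ 2) ^ k * b * ((y ^ 2) ^ k)⁻¹) * ((y ^ 2) ^ i)⁻¹ := by
        rw [ha]
        simp only [pow_add]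
        group
      rw [h2]
      exact (Commute.conj_iff _).2 (hcomm k)
    intro i j
    rcases le_total i j with h | h
    · obtain ⟨k, rfl⟩ := Nat.exists_eq_add_of_le h
      exact h1 i k
    · obtain ⟨k, rfl⟩ := Nat.exists_eq_add_of_le h
      exact (h1 j k).symm
  set t := (y ^ 2) ^ 2 with ht
  have hpt : L.pos t = 4 := by rw [ht, L.pos_pow, L.pos_pow, hy]; rfl
  have hlt : ∀ s, L.lamp t s = 0 := L.lamp_pow_zero (L.lamp_pow_zero hly 2) 2
  set f := a 1 * t with hf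
  have hpa : L.pos (a 1) = 0 := by
    show L.pos ((y ^ 2) ^ 1 * b * ((y ^ 2) ^ 1)⁻¹) = 0
    rw [L.pos_conj, hb]
  have hpf : L.pos f = 4 := by rw [hf, L.pos_mul, hpa, hpt]; rfl
  have hlf : ∀ s, L.lamp f s = if s = 2 then 1 else 0 := by
    intro s
    rw [hf, L.lamp_mul, hlt, add_zero]
    show L.lamp ((y ^ 2) ^ 1 * b * ((y ^ 2) ^ 1)⁻¹) s = _
    rw [L.lamp_conj _ _ hb, hlb, L.pos_pow, L.pos_pow, hy]
    by_cases h : s = 2
    · rw [if_pos h, if_pos (by rw [h]; norm_num)]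
    · rw [if_neg h, if_neg]
      intro h'
      apply h
      push_cast at h'
      linarith
  -- conjugation by f^n and by t^n agree on b
  have hft : ∀ n : ℕ, f ^ n * b * (f ^ n)⁻¹ = t ^ n * b * (t ^ n)⁻¹ := by
    intro n
    induction n with
    | zero => simp
    | succ n ih =>
      have h1 : t ^ (n + 1) * b * (t ^ (n + 1))⁻¹ = a (2 * (n + 1)) := by
        rw [ha, ht]
        simp only [← pow_mul, mul_assoc]
      rw [pow_succ']
      have h2 : f * f ^ n * b * (f * f ^ n)⁻¹ = f * (f ^ n * b * (f ^ n)⁻¹) * f⁻¹ := by group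
      rw [h2, ih, hf]
      have h3 : a 1 * t * (t ^ n * b * (t ^ n)⁻¹) * (a 1 * t)⁻¹ =
        a 1 * (t ^ (n + 1) * b * (t ^ (n + 1))⁻¹) * (a 1)⁻¹ := by
        rw [pow_succ']
        group
      rw [h3, h1, (hca 1 (2 * (n + 1))).eq]
      group
  have hX : RatSet (pows t * {b} * pows t⁻¹) :=
    ((pows_rat t).mul (RatSet.single b)).mul (pows_rat _)
  have hY : RatSet (pows f * {b} * pows f⁻¹) :=
    ((pows_rat _).mul (RatSet.single b)).mul (pows_rat _)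
  have hXY := hX.inter hH hY
  refine L.pinA (t := t) (b := b) (s0 := 0) (by rw [hpt]; norm_num) hb
    (by rw [hlb, if_pos rfl]; exact one_ne_zero) ?_
  convert hXY using 1
  ext x
  constructor
  · rintro ⟨n, rfl⟩
    refine ⟨Set.mul_mem_mul (Set.mul_mem_mul (pow_mem_pows t n) rfl) (inv_pow_mem_pows t n), ?_⟩
    rw [← hft]
    exact Set.mul_mem_mul (Set.mul_mem_mul (pow_mem_pows f n) rfl) (inv_pow_mem_pows f n)
  · rintro ⟨⟨w2, ⟨w1, ⟨n, rfl⟩, b', hb', rfl⟩, w3, ⟨m, rfl⟩, rfl⟩,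
      ⟨v2, ⟨v1, ⟨i, rfl⟩, b'', hb'', rfl⟩, v3, ⟨j, rfl⟩, e⟩⟩
    rw [Set.mem_singleton_iff] at hb' hb''
    subst hb''
    subst hb'
    change f ^ i * b' * f⁻¹ ^ j = t ^ n * b' * t⁻¹ ^ m at e
    change ∃ k : ℕ, t ^ n * b' * t⁻¹ ^ m = t ^ k * b' * (t ^ k)⁻¹
    rw [inv_pow] at e ⊢
    rw [inv_pow] at e
    have hbE : b' ∈ L.Ev 4 := by
      refine ⟨by rw [hb]; exact dvd_zero _, fun s hs => ?_⟩
      rw [hlb, if_neg]
      rintro rfl
      exact hs (dvd_zero _)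
    have htE : t ∈ L.Ev 4 := ⟨by rw [hpt], fun s _ => hlt s⟩
    have hzE : t ^ n * b' * (t ^ m)⁻¹ ∈ L.Ev 4 :=
      mul_mem (mul_mem (pow_mem htE n) hbE) (inv_mem (pow_mem htE m))
    have hres : ∀ s : ℤ, 4 ∣ s - 2 → ¬ (4 : ℤ) ∣ s := by
      intro s hs
      omega
    have hpos : L.pos (t ^ n * b' * (t ^ m)⁻¹) = 0 := by
      by_cases hij : 1 ≤ i ∨ 1 ≤ j
      · exact L.pin (σ := 4) (r := 2) (i := i) (j := j) (by norm_num) hpf hlf
          (fun s hs => hzE.2 s (hres s hs)) (fun s hs => hbE.2 s (hres s hs)) hbE.1 hij e.symm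
      · have hi : i = 0 := by omega
        have hj : j = 0 := by omega
        subst hi hj
        rw [← e]
        simpa using hb
    have hnm : n = m := by
      rw [L.pos_mul, L.pos_mul, L.pos_inv, L.pos_pow t, L.pos_pow t, hpt, hb] at hpos
      omega
    subst hnm
    exact ⟨n, rfl⟩

/-- no lamplighter type quotient whose kernel is a union of f.g. virtually abelian
normal subgroups -/
theorem no_lamp [Nontrivial K] (hH : BA H)
    (hcent : ∀ P0 : Subgroup H, P0.Normal → P0.FG → Ab P0 →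
      (Subgroup.centralizer (P0 : Set H)).index ≠ 0)
    (hC : ∀ c ∈ L.C, ∃ P P0 : Subgroup H, P.Normal ∧ P0.Normal ∧ P0.FG ∧ Ab P0 ∧
      P0 ≤ P ∧ P0.relIndex P ≠ 0 ∧ c ∈ P ∧ P ≤ L.C)
    {y b : H} (hy : L.pos y = 1) (hly : ∀ s, L.lamp y s = 0) (hb : L.pos b = 0)
    (hlb : ∀ s, L.lamp b s = if s = 0 then 1 else 0) : False := by
  have hfin : ∀ c ∈ L.C, ∃ P : Subgroup H, P.Normal ∧ (P : Set H).Finite ∧ c ∈ P ∧ P ≤ L.C := by
    intro c hc
    obtain ⟨P, P0, h1, h2, h3, h4, h5, h6, h7, h8⟩ := hC c hc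
    exact ⟨P, h1, L.finite_normal hH hcent h2 h3 h4 h5 h6 h8 hy hly hb hlb, h7, h8⟩
  obtain ⟨P, hP1, hP2, hP3, hP4⟩ := L.commutators_finite hH hfin hy hly hb hlb
  have hPfg : P.FG := by
    have : Subgroup.closure (P : Set H) = P := Subgroup.closure_eq P
    rw [← this]
    exact FG_of_finite hP2
  have hQ : BA (H ⧸ P) := hH.quotient hPfg
  refine (L.quot P hP3).howson hQ (y := QuotientGroup.mk y) (b := QuotientGroup.mk b) ?_ ?_ ?_ ?_ ?_
  · rw [L.quot_pos, hy]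
  · intro s
    rw [L.quot_lamp, hly]
  · rw [L.quot_pos, hb]
  · intro s
    rw [L.quot_lamp, hlb]
  · intro k
    have h1 := hP4 k
    have h2 : (QuotientGroup.mk' P) (b⁻¹ * ((y ^ 2) ^ k * b * ((y ^ 2) ^ k)⁻¹) * b *
        ((y ^ 2) ^ k * b * ((y ^ 2) ^ k)⁻¹)⁻¹) = 1 := (QuotientGroup.eq_one_iff _).2 h1
    set π := QuotientGroup.mk' P with hπ
    show Commute (π b) ((π y ^ 2) ^ k * π b * ((π y ^ 2) ^ k)⁻¹)
    rw [← map_pow, ← map_pow, ← map_inv, ← map_mul, ← map_mul]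
    rw [map_mul, map_mul, map_mul, map_inv, map_inv] at h2
    have h3 := mul_inv_eq_one.1 h2
    have h4 : π ((y ^ 2) ^ k * b * ((y ^ 2) ^ k)⁻¹) * π b =
        π b * π ((y ^ 2) ^ k * b * ((y ^ 2) ^ k)⁻¹) := by
      rw [mul_assoc] at h3
      exact inv_mul_eq_iff_eq_mul.1 h3
    exact h4.symm

end Lamp

end Pool.Agent.RatBool
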