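import Pool.Agent.Lib_MP_7f70a7_al.Ctx
import Pool.Agent.Lib_MP_7f70a7_al.Lamp2

/-!
MP_7f70a7_al: the algebraic case.
-/

set_option autoImplicit false

open scoped Pointwise
open Polynomial

namespace Pool.Agent.RatBool

section W
variable {G : Type} [Group G]

/-- `W b g n` is the product of `b i ^ g_i` for `i < n` -/
def W (b : ℕ → G) (g : ℤ[X]) : ℕ → G
  | 0 => 1
  | n + 1 => W b g n * b n ^ (g.coeff n)

theorem W_zero_poly (b : ℕ → G) (n : ℕ) : W b 0 n = 1 := by
  induction n with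
  | zero => rfl
  | succ n ih => rw [W, ih]; simp

theorem W_comm {b : ℕ → G} {d : ℕ} (hb : ∀ i j, i ≤ d → j ≤ d → Commute (b i) (b j)) (g : ℤ[X])
    {n j : ℕ} (hn : n ≤ d + 1) (hj : j ≤ d) : Commute (W b g n) (b j) := by
  induction n with
  | zero => exact Commute.one_left _
  | succ n ih =>
    rw [W]
    exact (ih (by omega)).mul_left ((hb n j (by omega) hj).zpow_left _)

theorem W_add {b : ℕ → G} {d : ℕ} (hb : ∀ i j, i ≤ d → j ≤ d → Commute (b i) (b j)) (g h : ℤ[X])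
    {n : ℕ} (hn : n ≤ d + 1) : W b (g + h) n = W b g n * W b h n := by
  induction n with
  | zero => simp [W]
  | succ n ih =>
    rw [W, W, W, ih (by omega), coeff_add, zpow_add]
    have h1 : Commute (W b h n) (b n ^ g.coeff n) :=
      (W_comm hb h (by omega) (by omega)).zpow_right _
    calc W b g n * W b h n * (b n ^ g.coeff n * b n ^ h.coeff n)
        = W b g n * (W b h n * b n ^ g.coeff n) * b n ^ h.coeff n := by group
      _ = W b g n * (b n ^ g.coeff n * W b h n) * b n ^ h.coeff n := by rw [h1.eq]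
      _ = _ := by group

theorem W_zpow {b : ℕ → G} {d : ℕ} (hb : ∀ i j, i ≤ d → j ≤ d → Commute (b i) (b j)) (g : ℤ[X])
    (k : ℤ) {n : ℕ} (hn : n ≤ d + 1) : W b (C k * g) n = W b g n ^ k := by
  induction n with
  | zero => simp [W]
  | succ n ih =>
    have h1 : Commute (W b g n) (b n ^ g.coeff n) :=
      (W_comm hb g (by omega) (by omega)).zpow_right _
    rw [W, W, ih (by omega), coeff_C_mul, h1.mul_zpow, ← zpow_mul, mul_comm k]

theorem W_shift {b : ℕ → G} {x : G} (hx : ∀ i, b (i + 1) = x * b i * x⁻¹) (g : ℤ[X]) (n : ℕ) :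
    W b (X * g) (n + 1) = x * W b g n * x⁻¹ := by
  induction n with
  | zero => simp [W]
  | succ n ih =>
    rw [W, ih, W, coeff_X_mul, hx, conj_zpow]
    group

theorem W_X_pow (b : ℕ → G) (i n : ℕ) : W b (X ^ i) n = if i < n then b i else 1 := by
  induction n with
  | zero => simp [W]
  | succ n ih =>
    rw [W, ih, coeff_X_pow]
    by_cases h : n = i
    · subst h
      simp
    · by_cases h2 : i < n
      · rw [if_pos h2, if_neg h, if_pos (by omega)]
        simp
      · rw [if_neg h2, if_neg h, if_neg (by omega)]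
        simp

theorem W_mem (b : ℕ → G) (K : Subgroup G) {n : ℕ} (hb : ∀ i, i < n → b i ∈ K) (g : ℤ[X]) :
    W b g n ∈ K := by
  induction n with
  | zero => exact one_mem _
  | succ n ih =>
    rw [W]
    exact mul_mem (ih fun i hi => hb i (by omega)) (zpow_mem (hb n (by omega)) _)

theorem W_succ_of_coeff {b : ℕ → G} {g : ℤ[X]} {n : ℕ} (h : g.coeff n = 0) :
    W b g (n + 1) = W b g n := by
  rw [W, h, zpow_zero, mul_one]

/-- the subgroup generated by `b i`, `i < d` -/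
def VV (b : ℕ → G) (d : ℕ) (hb : ∀ i j, i ≤ d → j ≤ d → Commute (b i) (b j)) : Subgroup G where
  carrier := {v | ∃ g : ℤ[X], (∀ i, d ≤ i → g.coeff i = 0) ∧ v = W b g (d + 1)}
  mul_mem' := by
    rintro _ _ ⟨g, hg, rfl⟩ ⟨h, hh, rfl⟩
    exact ⟨g + h, fun i hi => by rw [coeff_add, hg i hi, hh i hi, add_zero],
      (W_add hb g h le_rfl).symm⟩
  one_mem' := ⟨0, fun i _ => by simp, (W_zero_poly b _).symm⟩
  inv_mem' := by
    rintro _ ⟨g, hg, rfl⟩
    refine ⟨C (-1) * g, fun i hi => by rw [coeff_C_mul, hg i hi, mul_zero], ?_⟩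
    rw [W_zpow hb g (-1) le_rfl, zpow_neg_one]

theorem mem_VV {b : ℕ → G} {d : ℕ} {hb : ∀ i j, i ≤ d → j ≤ d → Commute (b i) (b j)} {v : G} :
    v ∈ VV b d hb ↔ ∃ g : ℤ[X], (∀ i, d ≤ i → g.coeff i = 0) ∧ v = W b g (d + 1) := Iff.rfl

theorem b_mem_VV {b : ℕ → G} {d : ℕ} (hb : ∀ i j, i ≤ d → j ≤ d → Commute (b i) (b j)) {i : ℕ}
    (hi : i < d) : b i ∈ VV b d hb := by
  refine ⟨X ^ i, fun j hj => by rw [coeff_X_pow, if_neg (by omega)], ?_⟩
  rw [W_X_pow, if_pos (by omega)]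

theorem VV_fg {b : ℕ → G} {d : ℕ} (hb : ∀ i j, i ≤ d → j ≤ d → Commute (b i) (b j)) :
    (VV b d hb).FG := by
  have h1 : VV b d hb = Subgroup.closure (b '' {i | i < d}) := by
    apply le_antisymm
    · rintro _ ⟨g, hg, rfl⟩
      rw [W_succ_of_coeff (hg d le_rfl)]
      exact W_mem b _ (fun i hi => Subgroup.subset_closure (Set.mem_image_of_mem b hi)) g
    · rw [Subgroup.closure_le]
      rintro _ ⟨i, hi, rfl⟩
      exact b_mem_VV hb hi
  rw [h1]
  exact FG_of_finite ((Set.finite_lt_nat d).image _)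

end W

namespace Ctx

variable {G : Type} [Group G] {M : Type} [AddCommGroup M] [Module ℤ[X] M] (c : Ctx G M)

theorem C_smul' (k : ℤ) (m : M) : (Polynomial.C k : ℤ[X]) • m = k • m := by
  rw [← Int.cast_smul_eq_zsmul ℤ[X]]
  congr 1

/-- the conjugates of `b` -/
def bb (b : G) (i : ℕ) : G := c.x ^ i * b * (c.x ^ i)⁻¹

theorem bb_mem {b : G} (hb : b ∈ c.N) (i : ℕ) : c.bb b i ∈ c.N := c.hN.conj_mem b hb _

theorem bb_succ (b : G) (i : ℕ) : c.bb b (i + 1) = c.x * c.bb b i * c.x⁻¹ := by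
  unfold bb
  rw [pow_succ']
  group

theorem q_W {b : G} (hb : b ∈ c.N) (g : ℤ[X]) (n : ℕ) :
    c.q (W (c.bb b) g n) = (∑ i ∈ Finset.range n, Polynomial.C (g.coeff i) * X ^ i) • c.q b := by
  induction n with
  | zero => simp [W, c.q_one]
  | succ n ih =>
    rw [W, c.q_mul _ (W_mem _ _ (fun i _ => c.bb_mem hb i) g) _ (zpow_mem (c.bb_mem hb n) _), ih,
      c.q_zpow (c.bb_mem hb n), Finset.sum_range_succ, add_smul, mul_smul, C_smul']
    congr 2
    exact c.q_conj_pow hb n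

theorem q_W' {b : G} (hb : b ∈ c.N) (g : ℤ[X]) {n : ℕ} (hn : ∀ i, n ≤ i → g.coeff i = 0) :
    c.q (W (c.bb b) g n) = g • c.q b := by
  rw [c.q_W hb]
  congr 1
  ext i
  simp only [finset_sum_coeff, coeff_C_mul, coeff_X_pow, mul_ite, mul_one, mul_zero,
    Finset.sum_ite_eq, Finset.mem_range]
  split_ifs with h
  · rfl
  · exact (hn i (by omega)).symm

end Ctx

end Pool.Agent.RatBool
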