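import Pool.Agent.Lib_MP_7f70a7_al.AlgCase

/-!
MP_7f70a7_al: the algebraic case, main part.
-/

set_option autoImplicit false

open scoped Pointwise
open Polynomial

namespace Pool.Agent.RatBool

/-- arithmetic progressions and divisibility chains -/
theorem no_chain (m : ℕ → ℕ) (hm : ∀ n, 1 ≤ m n) (hdvd : ∀ n, m n ∣ m (n + 1)) (α γ : ℤ)
    (hα : α ≠ 0) (h : ∀ i : ℕ, ∃ n, (m n : ℤ) = α * i + γ) : False := by
  have hmono : ∀ a b, a ≤ b → m a ∣ m b := by
    intro a b hab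
    induction b, hab using Nat.le_induction with
    | base => exact dvd_rfl
    | succ b _ ih => exact ih.trans (hdvd b)
  have hchain : ∀ a b, m a < m b → 2 * m a ≤ m b := by
    intro a b hab
    have h1 : m a ∣ m b := by
      rcases le_total a b with h | h
      · exact hmono a b h
      · have := Nat.le_of_dvd (hm a) (hmono b a h)
        omega
    obtain ⟨k, hk⟩ := h1
    have h2 : 2 ≤ k := by
      by_contra h3
      have : k = 0 ∨ k = 1 := by omega
      rcases this with rfl | rfl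
      · rw [mul_zero] at hk
        have := hm b
        omega
      · rw [mul_one] at hk
        omega
    rw [hk, mul_comm (m a) k]
    exact Nat.mul_le_mul_right _ h2
  -- α > 0
  have hpos : 0 < α := by
    by_contra hle
    have hneg : α ≤ -1 := by omega
    obtain ⟨n, hn⟩ := h (γ.natAbs + 1)
    have h1 := hm n
    push_cast at hn
    have h2 : α * (|γ| + 1) ≤ -1 * (|γ| + 1) :=
      mul_le_mul_of_nonneg_right hneg (by positivity)
    have h3 : γ ≤ |γ| := le_abs_self γ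
    have h4 : (1 : ℤ) ≤ m n := by exact_mod_cast h1
    linarith
  obtain ⟨n1, hn1⟩ := h (γ.natAbs + 2)
  obtain ⟨n2, hn2⟩ := h (γ.natAbs + 3)
  push_cast at hn1 hn2
  have h1 : (m n1 : ℤ) < m n2 := by
    rw [hn1, hn2]
    linarith
  have h2 := hchain n1 n2 (by exact_mod_cast h1)
  have h3 : (2 : ℤ) * m n1 ≤ m n2 := by exact_mod_cast h2
  rw [hn1, hn2] at h3
  have h4 : -γ ≤ |γ| := neg_le_abs γ
  have h5 : 1 * (|γ| + 1) ≤ α * (|γ| + 1) := mul_le_mul_of_nonneg_right hpos (by positivity)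
  linarith

namespace Ctx

variable {G : Type} [Group G] {M : Type} [AddCommGroup M] [Module ℤ[X] M] (c : Ctx G M)

theorem alg_case (hG : BA G) (hx : ∀ s : ℕ, 1 ≤ s → c.x ^ s ∉ c.N)
    {b : G} (hb : b ∈ c.N) (f : ℤ[X]) (z : ℂ) (hd : 0 < f.natDegree) (hf0 : f.coeff 0 ≠ 0)
    (hann : ∀ g : ℤ[X], g • c.q b = 0 ↔ f ∣ g)
    (hannz : ∀ g : ℤ[X], g • c.q b = 0 ↔ aeval z g = 0)
    (hroot : ∀ s : ℕ, 1 ≤ s → ((X : ℤ[X]) ^ s - 1) • c.q b ≠ 0)
    (hcomm : ∀ i j, i ≤ f.natDegree → j ≤ f.natDegree → Commute (c.bb b i) (c.bb b j))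
    (hrel : W (c.bb b) f (f.natDegree + 1) = 1)
    (hgrow : ∀ (n : ℕ → ℕ), Function.Injective n → ∀ (μ : ℤ), μ ≠ 0 → ∀ α β : ℂ, α ≠ 0 →
       (∀ i : ℕ, (μ : ℂ) * z ^ n i = i * α + β) → False) : False := by
  classical
  set d := f.natDegree with hd'
  set V := VV (c.bb b) d hcomm with hV
  have hVN : V ≤ c.N := by
    rintro _ ⟨g, -, rfl⟩
    exact W_mem _ _ (fun i _ => c.bb_mem hb i) g
  -- injectivity of q on V
  have hqV : ∀ v ∈ V, c.q v = 0 → v = 1 := by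
    rintro _ ⟨g, hg, rfl⟩ h0
    rw [c.q_W' hb g (fun i hi => hg i (by omega)), hann] at h0
    have h1 : g = 0 := by
      by_contra hne
      have h2 := natDegree_le_of_dvd h0 hne
      have h3 : g.coeff g.natDegree ≠ 0 := by
        rw [coeff_natDegree]
        exact leadingCoeff_ne_zero.2 hne
      exact h3 (hg _ h2)
    rw [h1, W_zero_poly]
  -- conjugation by powers of x
  let cj : ℕ → ℤ → G := fun n k => c.x ^ n * b ^ k * (c.x ^ n)⁻¹
  have hcjN : ∀ n k, cj n k ∈ c.N := fun n k => c.hN.conj_mem _ (zpow_mem hb k) _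
  have hcj_succ : ∀ n k, cj (n + 1) k = c.x * cj n k * c.x⁻¹ := by
    intro n k
    show c.x ^ (n + 1) * b ^ k * (c.x ^ (n + 1))⁻¹ = c.x * (c.x ^ n * b ^ k * (c.x ^ n)⁻¹) * c.x⁻¹
    rw [pow_succ']
    group
  have hcj_add : ∀ n k l, cj n (k + l) = cj n k * cj n l := by
    intro n k l
    show c.x ^ n * b ^ (k + l) * (c.x ^ n)⁻¹ =
      c.x ^ n * b ^ k * (c.x ^ n)⁻¹ * (c.x ^ n * b ^ l * (c.x ^ n)⁻¹)
    rw [zpow_add]
    group
  have hcj_mul : ∀ n k l, cj n (k * l) = cj n k ^ l := by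
    intro n k l
    show c.x ^ n * b ^ (k * l) * (c.x ^ n)⁻¹ = (c.x ^ n * b ^ k * (c.x ^ n)⁻¹) ^ l
    rw [conj_zpow, zpow_mul]
  have hqcj : ∀ n k, c.q (cj n k) = (Polynomial.C k * X ^ n : ℤ[X]) • c.q b := by
    intro n k
    show c.q (c.x ^ n * b ^ k * (c.x ^ n)⁻¹) = _
    rw [c.q_conj_pow (zpow_mem hb k), c.q_zpow hb, mul_comm, mul_smul, C_smul']
  have hP0 : cj 0 1 ∈ V := by
    have h1 := b_mem_VV hcomm hd
    have h2 : c.bb b 0 = cj 0 1 := by
      show c.x ^ 0 * b * (c.x ^ 0)⁻¹ = c.x ^ 0 * b ^ (1 : ℤ) * (c.x ^ 0)⁻¹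
      rw [zpow_one]
    rw [← h2]
    exact h1
  have hup : ∀ n k, cj n k ∈ V → cj (n + 1) (k * f.coeff d) ∈ V := by
    rintro n k ⟨g, hg, hgv⟩
    have hg2 : cj (n + 1) k = W (c.bb b) (X * g) (d + 1) := by
      rw [hcj_succ, hgv, W_succ_of_coeff (hg d le_rfl), W_shift (c.bb_succ b)]
    refine ⟨Polynomial.C (f.coeff d) * (X * g) + Polynomial.C (-(g.coeff (d - 1))) * f, ?_, ?_⟩
    · intro i hi
      obtain ⟨j, rfl⟩ : ∃ j, i = j + 1 := ⟨i - 1, by omega⟩
      rw [coeff_add, coeff_C_mul, coeff_C_mul, coeff_X_mul]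
      by_cases h : j + 1 = d
      · have h2 : d - 1 = j := by omega
        rw [h2, ← h]
        ring
      · have h2 : f.coeff (j + 1) = 0 := coeff_eq_zero_of_natDegree_lt (by omega)
        rw [hg j (by omega), h2]
        ring
    · rw [W_add hcomm _ _ le_rfl, W_zpow hcomm _ _ le_rfl, W_zpow hcomm _ _ le_rfl, hrel,
        one_zpow, mul_one, ← hg2, hcj_mul]
  have hdown : ∀ n k, cj (n + 1) k ∈ V → cj n k ∈ V := by
    rintro n k ⟨g, hg, hgv⟩
    have h1 : c.q (cj (n + 1) k) = g • c.q b := by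
      rw [hgv]
      exact c.q_W' hb g (fun i hi => hg i (by omega))
    rw [hqcj] at h1
    have h2 : (g - Polynomial.C k * X ^ (n + 1) : ℤ[X]) • c.q b = 0 := by
      rw [sub_smul, h1, sub_self]
    rw [hann] at h2
    obtain ⟨h, hh⟩ := h2
    have h3 : g.coeff 0 = f.coeff 0 * h.coeff 0 := by
      have h4 := congrArg (fun p => coeff p 0) hh
      simp only [coeff_sub, mul_coeff_zero, coeff_X_pow] at h4
      rw [← h4, if_neg (by omega)]
      simp
    set G1 : ℤ[X] := (g + Polynomial.C (-(h.coeff 0)) * f).divX with hG1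
    have h5 : X * G1 = g + Polynomial.C (-(h.coeff 0)) * f := by
      have h6 := divX_mul_X_add (g + Polynomial.C (-(h.coeff 0)) * f)
      have h7 : (g + Polynomial.C (-(h.coeff 0)) * f).coeff 0 = 0 := by
        rw [coeff_add, coeff_C_mul, h3]
        ring
      rw [h7, map_zero, add_zero] at h6
      rw [mul_comm]
      exact h6
    have h8 : ∀ i, d ≤ i → G1.coeff i = 0 := by
      intro i hi
      have h9 : f.coeff (i + 1) = 0 := coeff_eq_zero_of_natDegree_lt (by omega)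
      rw [hG1, coeff_divX, coeff_add, coeff_C_mul, hg _ (by omega), h9]
      ring
    refine ⟨G1, h8, ?_⟩
    have h9 : W (c.bb b) (X * G1) (d + 1) = W (c.bb b) g (d + 1) := by
      rw [h5, W_add hcomm _ _ le_rfl, W_zpow hcomm _ _ le_rfl, hrel, one_zpow, mul_one]
    rw [← hgv, hcj_succ, W_shift (c.bb_succ b), ← W_succ_of_coeff (h8 d le_rfl)] at h9
    exact (mul_left_cancel (mul_right_cancel h9)).symm
  have hfd : f.coeff d ≠ 0 := by
    rw [hd', coeff_natDegree, leadingCoeff_ne_zero]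
    rintro h
    rw [h] at hd'
    simp at hd'
    omega
  have hex : ∀ n, ∃ k : ℕ, 1 ≤ k ∧ cj n k ∈ V := by
    intro n
    have h1 : cj n (f.coeff d ^ n) ∈ V := by
      induction n with
      | zero => simpa using hP0
      | succ n ih =>
        rw [pow_succ]
        exact hup _ _ ih
    have h2 : f.coeff d ^ n ≠ 0 := pow_ne_zero _ hfd
    refine ⟨(f.coeff d ^ n).natAbs, by omega, ?_⟩
    rcases Int.natAbs_eq (f.coeff d ^ n) with h3 | h3
    · rw [← h3]
      exact h1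
    · have h4 : ((f.coeff d ^ n).natAbs : ℤ) = (f.coeff d ^ n) * (-1) := by omega
      rw [h4, hcj_mul, zpow_neg_one]
      exact inv_mem h1
  let m : ℕ → ℕ := fun n => Nat.find (hex n)
  have hm1 : ∀ n, 1 ≤ m n := fun n => (Nat.find_spec (hex n)).1
  have hmV : ∀ n, cj n (m n) ∈ V := fun n => (Nat.find_spec (hex n)).2
  have hmin : ∀ n (k : ℕ), 1 ≤ k → cj n k ∈ V → m n ≤ k := fun n k h1 h2 =>
    Nat.find_min' (hex n) ⟨h1, h2⟩
  have hPdvd : ∀ n k, cj n k ∈ V → (m n : ℤ) ∣ k := by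
    intro n k hk
    by_contra hnd
    have hmpos : (0 : ℤ) < m n := by exact_mod_cast hm1 n
    have h1 : cj n (k % m n) ∈ V := by
      have h2 : k % m n = k + m n * (-(k / m n)) := by
        have := Int.emod_add_mul_ediv k (m n)
        linarith
      rw [h2, hcj_add, hcj_mul]
      exact mul_mem hk (zpow_mem (hmV n) _)
    have h3 : 0 ≤ k % m n := Int.emod_nonneg _ hmpos.ne'
    have h4 : k % m n < m n := Int.emod_lt_of_pos _ hmpos
    have h5 : k % m n ≠ 0 := fun h => hnd (Int.dvd_of_emod_eq_zero h)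
    obtain ⟨r, hr⟩ := Int.eq_ofNat_of_zero_le h3
    rw [hr] at h1 h4 h5
    have := hmin n r (by omega) h1
    omega
  have hmdvd : ∀ n, m n ∣ m (n + 1) := by
    intro n
    have := hPdvd n (m (n + 1)) (hdown _ _ (hmV (n + 1)))
    exact_mod_cast this
  -- b has infinite order
  have hbinf : ∀ k : ℤ, b ^ k = 1 → k = 0 := by
    intro k hk
    have h1 : c.q (b ^ k) = 0 := by rw [hk, c.q_one]
    rw [c.q_zpow hb, ← C_smul', hannz] at h1
    simpa using h1
  have hbinj : ∀ k l : ℤ, b ^ k = b ^ l → k = l := by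
    intro k l h
    have := hbinf (k - l) (by rw [zpow_sub, h, mul_inv_cancel])
    omega
  -- normal form
  have huniq : ∀ (k l : ℤ) (n n' : ℕ), b ^ k * (c.x ^ n)⁻¹ = b ^ l * (c.x ^ n')⁻¹ →
      n = n' ∧ k = l := by
    intro k l n n' h
    have h1 : c.x ^ (-(n : ℤ)) * cj n k = c.x ^ (-(n' : ℤ)) * cj n' l := by
      have e : ∀ (n : ℕ) (k : ℤ), c.x ^ (-(n : ℤ)) * cj n k = b ^ k * (c.x ^ n)⁻¹ := by
        intro n k
        show c.x ^ (-(n : ℤ)) * (c.x ^ n * b ^ k * (c.x ^ n)⁻¹) = _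
        group
      rw [e, e, h]
    have h2 := c.pos_unique hx (hcjN n k) (hcjN n' l) h1
    have h3 : n = n' := by omega
    subst h3
    exact ⟨rfl, hbinj _ _ (mul_right_cancel h)⟩
  -- the sets
  set Sp : Set G := ({b} * pows b * pows c.x⁻¹) ∩ (pows c.x⁻¹ * (V : Set G)) with hSp
  have hSpr : RatSet Sp :=
    (((RatSet.single b).mul (pows_rat b)).mul (pows_rat _)).inter hG
      ((pows_rat _).mul (RatSet.subgroup (VV_fg hcomm)))
  have mem_Sp : ∀ y, y ∈ Sp ↔ ∃ k n : ℕ, 1 ≤ k ∧ cj n k ∈ V ∧ y = b ^ (k : ℤ) * (c.x ^ n)⁻¹ := by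
    intro y
    constructor
    · rintro ⟨⟨w1, ⟨w0, hw0, w2, ⟨j, rfl⟩, rfl⟩, w3, ⟨n, rfl⟩, rfl⟩, ⟨v1, ⟨n', rfl⟩, v, hv, e⟩⟩
      rw [Set.mem_singleton_iff] at hw0
      subst hw0
      change c.x⁻¹ ^ n' * v = w0 * w0 ^ j * c.x⁻¹ ^ n at e
      show ∃ k n_1 : ℕ, 1 ≤ k ∧ cj n_1 k ∈ V ∧ w0 * w0 ^ j * c.x⁻¹ ^ n = w0 ^ (k : ℤ) * (c.x ^ n_1)⁻¹
      rw [inv_pow, inv_pow, ← pow_succ'] at e
      have h1 : c.x ^ (-(n' : ℤ)) * v = c.x ^ (-(n : ℤ)) * cj n ((j + 1 : ℕ) : ℤ) := by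
        show c.x ^ (-(n' : ℤ)) * v =
          c.x ^ (-(n : ℤ)) * (c.x ^ n * w0 ^ ((j + 1 : ℕ) : ℤ) * (c.x ^ n)⁻¹)
        rw [zpow_neg, zpow_natCast, e, zpow_natCast]
        group
      have h2 := c.pos_unique hx (hVN hv) (hcjN _ _) h1
      have h3 : n' = n := by omega
      subst h3
      refine ⟨j + 1, n', by omega, ?_, ?_⟩
      · rw [← mul_left_cancel h1]
        exact hv
      · rw [zpow_natCast, inv_pow, pow_succ']
    · rintro ⟨k, n, hk, hkV, rfl⟩
      refine ⟨?_, ?_⟩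
      · refine Set.mul_mem_mul ?_ (inv_pow_mem_pows _ n)
        have : b ^ (k : ℤ) = b * b ^ (k - 1) := by
          rw [zpow_natCast, ← pow_succ', Nat.sub_add_cancel hk]
        rw [this]
        exact Set.mul_mem_mul rfl (pow_mem_pows _ _)
      · have : b ^ (k : ℤ) * (c.x ^ n)⁻¹ = (c.x ^ n)⁻¹ * cj n k := by
          show b ^ (k : ℤ) * (c.x ^ n)⁻¹ = (c.x ^ n)⁻¹ * (c.x ^ n * b ^ (k : ℤ) * (c.x ^ n)⁻¹)
          group
        rw [this]
        exact Set.mul_mem_mul (inv_pow_mem_pows _ n) hkV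
  set Smin : Set G := Sp \ ({b} * pows b * Sp) with hSmin
  have hSminr : RatSet Smin := hSpr.diff hG (((RatSet.single b).mul (pows_rat b)).mul hSpr)
  have mem_Smin : ∀ y, y ∈ Smin ↔ ∃ n : ℕ, y = b ^ (m n : ℤ) * (c.x ^ n)⁻¹ := by
    intro y
    constructor
    · rintro ⟨h1, h2⟩
      obtain ⟨k, n, hk, hkV, rfl⟩ := (mem_Sp y).1 h1
      refine ⟨n, ?_⟩
      have h3 := hmin n k hk hkV
      rcases Nat.eq_or_lt_of_le h3 with h4 | h4
      · rw [h4]
      · exfalso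
        apply h2
        have h5 : b ^ (k : ℤ) * (c.x ^ n)⁻¹ =
            (b * b ^ (k - m n - 1)) * (b ^ (m n : ℤ) * (c.x ^ n)⁻¹) := by
          rw [← pow_succ', ← mul_assoc, zpow_natCast, zpow_natCast, ← pow_add]
          congr 2
          omega
        rw [h5]
        refine Set.mul_mem_mul (Set.mul_mem_mul rfl (pow_mem_pows _ _)) ?_
        exact (mem_Sp _).2 ⟨m n, n, hm1 n, hmV n, rfl⟩
    · rintro ⟨n, rfl⟩
      refine ⟨(mem_Sp _).2 ⟨m n, n, hm1 n, hmV n, rfl⟩, ?_⟩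
      rintro ⟨w, ⟨w0, hw0, w1, ⟨j, rfl⟩, rfl⟩, y, hy, e⟩
      obtain ⟨k, n', hk, hkV, rfl⟩ := (mem_Sp y).1 hy
      rw [Set.mem_singleton_iff] at hw0
      subst hw0
      have h1 : w0 ^ ((j + 1 + k : ℕ) : ℤ) * (c.x ^ n')⁻¹ = w0 ^ (m n : ℤ) * (c.x ^ n)⁻¹ := by
        rw [← e]
        show _ = w0 * w0 ^ j * (w0 ^ (k : ℤ) * (c.x ^ n')⁻¹)
        rw [← pow_succ', ← mul_assoc, zpow_natCast, zpow_natCast, ← pow_add]
      obtain ⟨h2, h3⟩ := huniq _ _ _ _ h1
      subst h2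
      have h4 := hmin n' k hk hkV
      have h5 : j + 1 + k = m n' := by exact_mod_cast h3
      omega
  set T : Set G := (Smin * pows c.x) ∩ ({b} * pows b) with hT
  have hTr : RatSet T :=
    (hSminr.mul (pows_rat _)).inter hG ((RatSet.single b).mul (pows_rat b))
  have mem_T : ∀ y, y ∈ T ↔ ∃ n : ℕ, y = b ^ (m n : ℤ) := by
    intro y
    constructor
    · rintro ⟨⟨s, hs, w, ⟨j, rfl⟩, rfl⟩, ⟨w0, hw0, w1, ⟨i, rfl⟩, e⟩⟩
      obtain ⟨n, rfl⟩ := (mem_Smin s).1 hs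
      rw [Set.mem_singleton_iff] at hw0
      subst hw0
      change w0 * w0 ^ i = w0 ^ (m n : ℤ) * (c.x ^ n)⁻¹ * c.x ^ j at e
      show ∃ n_1 : ℕ, w0 ^ (m n : ℤ) * (c.x ^ n)⁻¹ * c.x ^ j = w0 ^ (m n_1 : ℤ)
      have h1 : c.x ^ (0 : ℤ) * (w0 * w0 ^ i) =
          c.x ^ ((j : ℤ) - n) * (c.x ^ (-((j : ℤ) - n)) * w0 ^ (m n : ℤ) *
            (c.x ^ (-((j : ℤ) - n)))⁻¹) := by
        rw [e]
        group
      have h2 := c.pos_unique hx (mul_mem hb (pow_mem hb i))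
        (c.hN.conj_mem _ (zpow_mem hb _) _) h1
      have h3 : j = n := by omega
      subst h3
      exact ⟨j, by group⟩
    · rintro ⟨n, rfl⟩
      refine ⟨?_, ?_⟩
      · have : b ^ (m n : ℤ) = (b ^ (m n : ℤ) * (c.x ^ n)⁻¹) * c.x ^ n := by group
        rw [this]
        exact Set.mul_mem_mul ((mem_Smin _).2 ⟨n, rfl⟩) (pow_mem_pows _ _)
      · have : b ^ (m n : ℤ) = b * b ^ (m n - 1) := by
          rw [zpow_natCast, ← pow_succ', Nat.sub_add_cancel (hm1 n)]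
        rw [this]
        exact Set.mul_mem_mul rfl (pow_mem_pows _ _)
  -- T is finite
  have hTfin : T.Finite := by
    by_contra hinf
    obtain ⟨a, e, ha, hae⟩ := hTr.exists_pow_mul hinf
    obtain ⟨n0, hn0⟩ := (mem_T _).1 (hae 0)
    obtain ⟨n1, hn1⟩ := (mem_T _).1 (hae 1)
    rw [pow_zero, one_mul] at hn0
    rw [pow_one] at hn1
    have ha' : a = b ^ ((m n1 : ℤ) - m n0) := by
      rw [zpow_sub, ← hn1, ← hn0]
      group
    refine no_chain m hm1 hmdvd ((m n1 : ℤ) - m n0) (m n0) ?_ ?_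
    · intro h
      apply ha
      rw [ha', h, zpow_zero]
    · intro i
      obtain ⟨n, hn⟩ := (mem_T _).1 (hae i)
      refine ⟨n, ?_⟩
      apply hbinj
      rw [← hn, ha', hn0, ← zpow_natCast, ← zpow_mul, ← zpow_add]
  -- a common multiple
  obtain ⟨μ, hμ, hμV⟩ : ∃ μ : ℤ, μ ≠ 0 ∧ ∀ n, cj n μ ∈ V := by
    have h1 : (Set.range m).Finite := by
      have h2 : Set.range m ⊆ (fun k : ℕ => b ^ (k : ℤ)) ⁻¹' T := by
        rintro _ ⟨n, rfl⟩
        exact (mem_T _).2 ⟨n, rfl⟩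
      refine (hTfin.preimage ?_).subset h2
      intro k _ l _ h
      have := hbinj _ _ h
      exact_mod_cast this
    obtain ⟨B, hB⟩ := h1.bddAbove
    refine ⟨(B.factorial : ℤ), by exact_mod_cast (Nat.factorial_ne_zero B), fun n => ?_⟩
    have h2 : m n ∣ B.factorial := Nat.dvd_factorial (hm1 n) (hB ⟨n, rfl⟩)
    obtain ⟨k, hk⟩ := h2
    rw [hk]
    push_cast
    rw [hcj_mul]
    exact zpow_mem (hmV n) _
  -- the final set
  set X1 : Set G := (pows c.x * {b ^ μ} * pows c.x⁻¹) ∩ (V : Set G) with hX1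
  have hX1r : RatSet X1 :=
    (((pows_rat _).mul (RatSet.single _)).mul (pows_rat _)).inter hG
      (RatSet.subgroup (VV_fg hcomm))
  have mem_X1 : ∀ y, y ∈ X1 ↔ ∃ n : ℕ, y = cj n μ := by
    intro y
    constructor
    · rintro ⟨⟨w, ⟨w1, ⟨n, rfl⟩, w2, hw2, rfl⟩, w3, ⟨j, rfl⟩, rfl⟩, hV2⟩
      rw [Set.mem_singleton_iff] at hw2
      subst hw2
      change c.x ^ n * b ^ μ * c.x⁻¹ ^ j ∈ V at hV2
      show ∃ n_1 : ℕ, c.x ^ n * b ^ μ * c.x⁻¹ ^ j = cj n_1 μ
      have h1 : c.x ^ (0 : ℤ) * (c.x ^ n * b ^ μ * c.x⁻¹ ^ j) =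
          c.x ^ ((n : ℤ) - j) * (c.x ^ j * b ^ μ * (c.x ^ j)⁻¹) := by
        group
      have h2 := c.pos_unique hx (hVN hV2) (c.hN.conj_mem _ (zpow_mem hb _) _) h1
      have h3 : n = j := by omega
      subst h3
      exact ⟨n, by rw [inv_pow]⟩
    · rintro ⟨n, rfl⟩
      exact ⟨Set.mul_mem_mul (Set.mul_mem_mul (pow_mem_pows _ n) rfl) (inv_pow_mem_pows _ n),
        hμV n⟩
  have hzz : ∀ n n' : ℕ, z ^ n = z ^ n' → n = n' := by
    have key : ∀ n k : ℕ, z ^ n = z ^ (n + k) → k = 0 := by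
      intro n k h
      by_contra hk
      apply hroot k (by omega)
      have h1 : ((X : ℤ[X]) ^ n * (X ^ k - 1)) • c.q b = 0 := by
        rw [hannz]
        simp only [map_mul, map_sub, map_pow, aeval_X, map_one]
        rw [mul_sub, ← pow_add, mul_one, ← h, sub_self]
      rw [mul_smul] at h1
      exact c.X_pow_smul_inj h1
    intro n n' h
    rcases le_total n n' with h1 | h1
    · obtain ⟨k, rfl⟩ := Nat.exists_eq_add_of_le h1
      have := key n k h
      omega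
    · obtain ⟨k, rfl⟩ := Nat.exists_eq_add_of_le h1
      have := key n' k h.symm
      omega
  have hX1inf : X1.Infinite := by
    have h1 : Function.Injective (fun n : ℕ => cj n μ) := by
      intro n n' h
      have h2 : c.q (cj n μ) = c.q (cj n' μ) := congrArg c.q h
      rw [hqcj, hqcj, ← sub_eq_zero, ← sub_smul, hannz] at h2
      simp only [map_sub, map_mul, map_pow, aeval_X, eq_intCast, map_intCast] at h2
      apply hzz
      have h3 : (μ : ℂ) ≠ 0 := by exact_mod_cast hμ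
      exact mul_left_cancel₀ h3 (sub_eq_zero.1 h2)
    have h2 : Set.range (fun n : ℕ => cj n μ) ⊆ X1 := by
      rintro _ ⟨n, rfl⟩
      exact (mem_X1 _).2 ⟨n, rfl⟩
    exact (Set.infinite_range_of_injective h1).mono h2
  obtain ⟨a, e, ha, hae⟩ := hX1r.exists_pow_mul hX1inf
  have hX1V : ∀ y ∈ X1, y ∈ V := fun y hy => hy.2
  have heV : e ∈ V := by
    have := hX1V _ (hae 0)
    simpa using this
  have haV : a ∈ V := by
    have h1 := mul_mem (hX1V _ (hae 1)) (inv_mem heV)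
    simpa using h1
  obtain ⟨ga, hga, hga'⟩ := haV
  obtain ⟨ge, hge, hge'⟩ := heV
  have hqa : c.q a = ga • c.q b := by
    rw [hga']
    exact c.q_W' hb ga (fun i hi => hga i (by omega))
  have hqe : c.q e = ge • c.q b := by
    rw [hge']
    exact c.q_W' hb ge (fun i hi => hge i (by omega))
  have haN : a ∈ c.N := hVN ⟨ga, hga, hga'⟩
  have heN : e ∈ c.N := hVN ⟨ge, hge, hge'⟩
  have hqa0 : aeval z ga ≠ 0 := by
    intro h
    apply ha
    apply hqV a ⟨ga, hga, hga'⟩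
    rw [hqa, hannz]
    exact h
  choose n hn using fun i : ℕ => (mem_X1 _).1 (hae i)
  have hval : ∀ i : ℕ, (μ : ℂ) * z ^ n i = i * aeval z ga + aeval z ge := by
    intro i
    have h1 : c.q (a ^ i * e) = c.q (cj (n i) μ) := congrArg c.q (hn i)
    rw [c.q_mul _ (pow_mem haN i) _ heN, c.q_pow haN, hqcj, hqa, hqe] at h1
    have h2 : ((i : ℤ[X]) * ga + ge - Polynomial.C μ * X ^ n i) • c.q b = 0 := by
      rw [sub_smul, add_smul, mul_smul, Nat.cast_smul_eq_nsmul, h1, sub_self]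
    rw [hannz] at h2
    simp only [map_sub, map_add, map_mul, map_pow, aeval_X, eq_intCast, map_natCast, map_intCast] at h2
    exact (sub_eq_zero.1 h2).symm
  refine hgrow n ?_ μ hμ _ _ hqa0 hval
  intro i j hij
  have h1 := hval i
  rw [hij, hval j] at h1
  have h2 : ((j : ℂ) - i) * aeval z ga = 0 := by
    linear_combination h1
  rcases mul_eq_zero.1 h2 with h3 | h3
  · have h4 : (j : ℂ) = i := sub_eq_zero.1 h3
    exact_mod_cast h4.symm
  · exact absurd h3 hqa0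

end Ctx

end Pool.Agent.RatBool
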