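import Mathlib

/-!
MP_7f70a7_al: rational subsets of groups, by structural induction.
-/

set_option autoImplicit false

open scoped Pointwise

namespace Pool.Agent.RatBool

/-- Rational subsets of a group. -/
inductive RatSet {G : Type} [Group G] : Set G → Prop
  | empty : RatSet ∅
  | single (g : G) : RatSet {g}
  | union {X Y : Set G} : RatSet X → RatSet Y → RatSet (X ∪ Y)
  | mul {X Y : Set G} : RatSet X → RatSet Y → RatSet (X * Y)
  | star {X : Set G} : RatSet X → RatSet (Submonoid.closure X : Set G)

/-- The complement of every rational subset is rational. -/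
def BA (G : Type) [Group G] : Prop := ∀ X : Set G, RatSet X → RatSet Xᶜ

section link
variable {G : Type} [Group G]

/-- image of a language in the group -/
def evalSet (L : Language G) : Set G := {g | ∃ w ∈ L, w.prod = g}

theorem evalSet_add (L M : Language G) : evalSet (L + M) = evalSet L ∪ evalSet M := by
  ext g
  constructor
  · rintro ⟨w, hw, rfl⟩
    rcases hw with hw | hw
    · exact Or.inl ⟨w, hw, rfl⟩
    · exact Or.inr ⟨w, hw, rfl⟩
  · rintro (⟨w, hw, rfl⟩ | ⟨w, hw, rfl⟩)
    · exact ⟨w, Or.inl hw, rfl⟩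
    · exact ⟨w, Or.inr hw, rfl⟩

theorem evalSet_mul (L M : Language G) : evalSet (L * M) = evalSet L * evalSet M := by
  ext g
  constructor
  · rintro ⟨w, hw, rfl⟩
    obtain ⟨a, ha, b, hb, rfl⟩ := Language.mem_mul.1 hw
    exact Set.mem_mul.2 ⟨a.prod, ⟨a, ha, rfl⟩, b.prod, ⟨b, hb, rfl⟩, by rw [List.prod_append]⟩
  · intro h
    obtain ⟨x, ⟨a, ha, rfl⟩, y, ⟨b, hb, rfl⟩, rfl⟩ := Set.mem_mul.1 h
    exact ⟨a ++ b, Language.mem_mul.2 ⟨a, ha, b, hb, rfl⟩, by rw [List.prod_append]⟩

theorem evalSet_star (L : Language G) :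
    evalSet (KStar.kstar L) = (Submonoid.closure (evalSet L) : Set G) := by
  ext g
  constructor
  · rintro ⟨w, hw, rfl⟩
    obtain ⟨S, rfl, hS⟩ := Language.mem_kstar.1 hw
    clear hw
    induction S with
    | nil => simpa using (Submonoid.closure (evalSet L)).one_mem
    | cons a S ih =>
      have h1 := ih (fun y hy => hS y (List.mem_cons_of_mem _ hy))
      have h2 : a.prod ∈ Submonoid.closure (evalSet L) :=
        Submonoid.subset_closure ⟨a, hS a List.mem_cons_self, rfl⟩
      rw [List.flatten_cons, List.prod_append]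
      exact mul_mem h2 h1
  · intro h
    induction h using Submonoid.closure_induction with
    | mem x hx =>
      obtain ⟨w, hw, rfl⟩ := hx
      refine ⟨w, Language.mem_kstar.2 ⟨[w], by simp, by simpa using hw⟩, rfl⟩
    | one => exact ⟨[], Language.mem_kstar.2 ⟨[], by simp, by simp⟩, rfl⟩
    | mul x y _ _ hx hy =>
      obtain ⟨v, hv, rfl⟩ := hx
      obtain ⟨w, hw, rfl⟩ := hy
      obtain ⟨S, rfl, hS⟩ := Language.mem_kstar.1 hv
      obtain ⟨T, rfl, hT⟩ := Language.mem_kstar.1 hw
      refine ⟨(S ++ T).flatten, Language.mem_kstar.2 ⟨S ++ T, rfl, ?_⟩, ?_⟩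
      · intro y hy
        rcases List.mem_append.1 hy with hy | hy
        · exact hS y hy
        · exact hT y hy
      · rw [List.flatten_append, List.prod_append]

theorem RatSet.one : RatSet ({1} : Set G) := RatSet.single 1

theorem ratSet_of_regex (r : RegularExpression G) : RatSet (evalSet r.matches') := by
  induction r with
  | zero =>
    have : evalSet (RegularExpression.matches' (RegularExpression.zero : RegularExpression G))
        = ∅ := by
      ext g
      constructor
      · rintro ⟨w, hw, -⟩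
        exact hw
      · intro h
        exact absurd h (Set.notMem_empty g)
    rw [this]
    exact RatSet.empty
  | epsilon =>
    have : evalSet (RegularExpression.matches' (RegularExpression.epsilon : RegularExpression G))
        = {1} := by
      ext g
      constructor
      · rintro ⟨w, hw, rfl⟩
        have hw' : w = [] := hw
        subst hw'
        exact rfl
      · intro h
        rw [Set.mem_singleton_iff] at h
        subst h
        exact ⟨[], rfl, rfl⟩
    rw [this]
    exact RatSet.single 1
  | char a =>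
    have : evalSet (RegularExpression.matches' (RegularExpression.char a)) = {a} := by
      ext g
      constructor
      · rintro ⟨w, hw, rfl⟩
        have hw' : w = [a] := hw
        subst hw'
        simp
      · intro h
        rw [Set.mem_singleton_iff] at h
        subst h
        exact ⟨[g], rfl, by simp⟩
    rw [this]
    exact RatSet.single a
  | plus P Q hP hQ =>
    have : evalSet (RegularExpression.matches' (P.plus Q)) =
        evalSet P.matches' ∪ evalSet Q.matches' := evalSet_add _ _
    rw [this]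
    exact hP.union hQ
  | comp P Q hP hQ =>
    have : evalSet (RegularExpression.matches' (P.comp Q)) =
        evalSet P.matches' * evalSet Q.matches' := evalSet_mul _ _
    rw [this]
    exact hP.mul hQ
  | star P hP =>
    have : evalSet (RegularExpression.matches' P.star) =
        (Submonoid.closure (evalSet P.matches') : Set G) := evalSet_star _
    rw [this]
    exact hP.star

theorem regex_of_ratSet {X : Set G} (h : RatSet X) :
    ∃ r : RegularExpression G, X = evalSet r.matches' := by
  induction h with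
  | empty =>
    refine ⟨0, ?_⟩
    ext g
    constructor
    · intro h
      exact absurd h (Set.notMem_empty g)
    · rintro ⟨w, hw, -⟩
      exact hw
  | single g =>
    refine ⟨RegularExpression.char g, ?_⟩
    ext x
    constructor
    · intro h
      rw [Set.mem_singleton_iff] at h
      subst h
      exact ⟨[x], rfl, by simp⟩
    · rintro ⟨w, hw, rfl⟩
      have hw' : w = [g] := hw
      subst hw'
      simp
  | union _ _ h1 h2 =>
    obtain ⟨r, rfl⟩ := h1
    obtain ⟨s, rfl⟩ := h2
    exact ⟨r + s, (evalSet_add _ _).symm⟩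
  | mul _ _ h1 h2 =>
    obtain ⟨r, rfl⟩ := h1
    obtain ⟨s, rfl⟩ := h2
    exact ⟨r * s, (evalSet_mul _ _).symm⟩
  | star _ h1 =>
    obtain ⟨r, rfl⟩ := h1
    exact ⟨r.star, (evalSet_star _).symm⟩

theorem BA_of_regex (h : ∀ S : Set G,
    (∃ r : RegularExpression G, S = {g : G | ∃ w ∈ r.matches', w.prod = g}) →
    ∃ r : RegularExpression G, Sᶜ = {g : G | ∃ w ∈ r.matches', w.prod = g}) : BA G := by
  intro X hX
  obtain ⟨r, hr⟩ := h X (regex_of_ratSet hX)
  rw [hr]
  exact ratSet_of_regex r

end link

section basic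
variable {G : Type} [Group G]

theorem RatSet.finite {X : Set G} (h : X.Finite) : RatSet X := by
  induction X, h using Set.Finite.induction_on with
  | empty => exact RatSet.empty
  | insert _ _ ih =>
    rw [Set.insert_eq]
    exact (RatSet.single _).union ih

/-- finitely generated submonoids are rational -/
theorem RatSet.closure_finite {F : Set G} (h : F.Finite) :
    RatSet (Submonoid.closure F : Set G) := (RatSet.finite h).star

theorem RatSet.subgroup {K : Subgroup G} (h : K.FG) : RatSet (K : Set G) := by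
  obtain ⟨F, rfl⟩ := h
  have h1 : ((Subgroup.closure (F : Set G) : Subgroup G) : Set G) =
      (Submonoid.closure ((F : Set G) ∪ (F : Set G)⁻¹) : Set G) := by
    rw [← Subgroup.closure_toSubmonoid]
    rfl
  rw [h1]
  exact RatSet.closure_finite ((F.finite_toSet).union (F.finite_toSet).inv)

/-- powers of an element -/
theorem RatSet.pows (g : G) : RatSet {x : G | ∃ n : ℕ, x = g ^ n} := by
  have h1 : {x : G | ∃ n : ℕ, x = g ^ n} = (Submonoid.closure ({g} : Set G) : Set G) := by
    ext x
    rw [SetLike.mem_coe, Submonoid.mem_closure_singleton]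
    constructor
    · rintro ⟨n, rfl⟩
      exact ⟨n, rfl⟩
    · rintro ⟨n, rfl⟩
      exact ⟨n, rfl⟩
  rw [h1]
  exact (RatSet.single g).star

theorem RatSet.map {G' : Type} [Group G'] (f : G →* G') {X : Set G} (h : RatSet X) :
    RatSet (f '' X) := by
  induction h with
  | empty => rw [Set.image_empty]; exact RatSet.empty
  | single g => rw [Set.image_singleton]; exact RatSet.single _
  | union _ _ h1 h2 => rw [Set.image_union]; exact h1.union h2
  | mul _ _ h1 h2 => rw [Set.image_mul]; exact h1.mul h2
  | @star X _ h1 =>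
    have : f '' (Submonoid.closure X : Set G) = (Submonoid.closure (f '' X) : Set G') := by
      rw [← MonoidHom.map_mclosure]
      rfl
    rw [this]
    exact h1.star

/-- rational subsets of a quotient lift -/
theorem RatSet.lift {G' : Type} [Group G'] (f : G →* G') (hf : Function.Surjective f)
    {Y : Set G'} (h : RatSet Y) : ∃ X : Set G, RatSet X ∧ f '' X = Y := by
  induction h with
  | empty => exact ⟨∅, RatSet.empty, Set.image_empty _⟩
  | single g =>
    obtain ⟨x, rfl⟩ := hf g
    exact ⟨{x}, RatSet.single x, Set.image_singleton⟩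
  | union _ _ h1 h2 =>
    obtain ⟨X, hX, rfl⟩ := h1
    obtain ⟨Y, hY, rfl⟩ := h2
    exact ⟨X ∪ Y, hX.union hY, Set.image_union _ _ _⟩
  | mul _ _ h1 h2 =>
    obtain ⟨X, hX, rfl⟩ := h1
    obtain ⟨Y, hY, rfl⟩ := h2
    exact ⟨X * Y, hX.mul hY, Set.image_mul _⟩
  | star _ h1 =>
    obtain ⟨X, hX, rfl⟩ := h1
    refine ⟨_, hX.star, ?_⟩
    rw [← MonoidHom.map_mclosure]
    rfl

theorem RatSet.inter (hG : BA G) {X Y : Set G} (hX : RatSet X) (hY : RatSet Y) :
    RatSet (X ∩ Y) := by
  have h1 : X ∩ Y = (Xᶜ ∪ Yᶜ)ᶜ := by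
    rw [Set.compl_union, compl_compl, compl_compl]
  rw [h1]
  exact hG _ ((hG _ hX).union (hG _ hY))

theorem RatSet.diff (hG : BA G) {X Y : Set G} (hX : RatSet X) (hY : RatSet Y) :
    RatSet (X \ Y) := by
  rw [Set.sdiff_eq]
  exact hX.inter hG (hG _ hY)

/-- a rational subset contained in a subgroup is rational in the subgroup (with shifts) -/
theorem RatSet.shift_subgroup {X : Set G} (h : RatSet X) (K : Subgroup G) :
    ∀ a b : G, (∀ x ∈ X, a * x * b ∈ K) → RatSet {k : K | ∃ x ∈ X, (k : G) = a * x * b} := by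
  induction h with
  | empty =>
    intro a b _
    have : {k : K | ∃ x ∈ (∅ : Set G), (k : G) = a * x * b} = ∅ := by
      ext k
      simp
    rw [this]
    exact RatSet.empty
  | single g =>
    intro a b hK
    have hg : a * g * b ∈ K := hK g rfl
    have : {k : K | ∃ x ∈ ({g} : Set G), (k : G) = a * x * b} = {⟨a * g * b, hg⟩} := by
      ext k
      simp [Subtype.ext_iff]
    rw [this]
    exact RatSet.single _
  | @union X Y _ _ h1 h2 =>
    intro a b hK
    have : {k : K | ∃ x ∈ X ∪ Y, (k : G) = a * x * b} =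
        {k : K | ∃ x ∈ X, (k : G) = a * x * b} ∪ {k : K | ∃ x ∈ Y, (k : G) = a * x * b} := by
      ext k
      constructor
      · rintro ⟨x, hx | hx, hk⟩
        · exact Or.inl ⟨x, hx, hk⟩
        · exact Or.inr ⟨x, hx, hk⟩
      · rintro (⟨x, hx, hk⟩ | ⟨x, hx, hk⟩)
        · exact ⟨x, Or.inl hx, hk⟩
        · exact ⟨x, Or.inr hx, hk⟩
    rw [this]
    exact (h1 a b fun x hx => hK x (Or.inl hx)).union (h2 a b fun x hx => hK x (Or.inr hx))
  | @mul X Y _ _ h1 h2 =>
    intro a b hK
    rcases X.eq_empty_or_nonempty with rfl | ⟨x0, hx0⟩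
    · have : {k : K | ∃ x ∈ (∅ : Set G) * Y, (k : G) = a * x * b} = ∅ := by
        ext k
        simp
      rw [this]
      exact RatSet.empty
    rcases Y.eq_empty_or_nonempty with rfl | ⟨y0, hy0⟩
    · have : {k : K | ∃ x ∈ X * (∅ : Set G), (k : G) = a * x * b} = ∅ := by
        ext k
        simp
      rw [this]
      exact RatSet.empty
    have e1 : ∀ x ∈ X, a * x * (y0 * b) ∈ K := by
      intro x hx
      have := hK (x * y0) (Set.mul_mem_mul hx hy0)
      simpa [mul_assoc] using this
    have e2 : ∀ y ∈ Y, (b⁻¹ * y0⁻¹) * y * b ∈ K := by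
      intro y hy
      have h3 := hK (x0 * y0) (Set.mul_mem_mul hx0 hy0)
      have h4 := hK (x0 * y) (Set.mul_mem_mul hx0 hy)
      have h5 := K.mul_mem (K.inv_mem h3) h4
      have h6 : (a * (x0 * y0) * b)⁻¹ * (a * (x0 * y) * b) = (b⁻¹ * y0⁻¹) * y * b := by group
      rw [h6] at h5
      exact h5
    have : {k : K | ∃ x ∈ X * Y, (k : G) = a * x * b} =
        {k : K | ∃ x ∈ X, (k : G) = a * x * (y0 * b)} *
        {k : K | ∃ y ∈ Y, (k : G) = (b⁻¹ * y0⁻¹) * y * b} := by
      ext k
      constructor
      · rintro ⟨z, hz, hk⟩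
        obtain ⟨x, hx, y, hy, rfl⟩ := Set.mem_mul.1 hz
        refine Set.mem_mul.2 ⟨⟨_, e1 x hx⟩, ⟨x, hx, rfl⟩, ⟨_, e2 y hy⟩, ⟨y, hy, rfl⟩, ?_⟩
        apply Subtype.ext
        rw [hk]
        show a * x * (y0 * b) * ((b⁻¹ * y0⁻¹) * y * b) = a * (x * y) * b
        group
      · intro hk
        obtain ⟨k1, ⟨x, hx, hk1⟩, k2, ⟨y, hy, hk2⟩, rfl⟩ := Set.mem_mul.1 hk
        refine ⟨x * y, Set.mul_mem_mul hx hy, ?_⟩
        show (k1 : G) * (k2 : G) = a * (x * y) * b
        rw [hk1, hk2]
        group
    rw [this]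
    exact (h1 _ _ e1).mul (h2 _ _ e2)
  | @star X _ h1 =>
    intro a b hK
    have hab : a * b ∈ K := by
      have := hK 1 (Submonoid.one_mem _)
      simpa using this
    have e1 : ∀ x ∈ X, b⁻¹ * x * b ∈ K := by
      intro x hx
      have h3 := hK x (Submonoid.subset_closure hx)
      have h4 := K.mul_mem (K.inv_mem hab) h3
      have h5 : (a * b)⁻¹ * (a * x * b) = b⁻¹ * x * b := by group
      rw [h5] at h4
      exact h4
    have : {k : K | ∃ x ∈ (Submonoid.closure X : Set G), (k : G) = a * x * b} =
        {⟨a * b, hab⟩} *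
        (Submonoid.closure {k : K | ∃ x ∈ X, (k : G) = b⁻¹ * x * b} : Set K) := by
      ext k
      rw [Set.singleton_mul]
      constructor
      · rintro ⟨z, hz, hk⟩
        have key : ∀ z ∈ Submonoid.closure X, ∃ m ∈ Submonoid.closure
            {k : K | ∃ x ∈ X, (k : G) = b⁻¹ * x * b}, (m : G) = b⁻¹ * z * b := by
          intro z hz
          induction hz using Submonoid.closure_induction with
          | mem x hx => exact ⟨⟨_, e1 x hx⟩, Submonoid.subset_closure ⟨x, hx, rfl⟩, rfl⟩
          | one => exact ⟨1, Submonoid.one_mem _, by simp⟩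
          | mul x y _ _ hx hy =>
            obtain ⟨m, hm, hm'⟩ := hx
            obtain ⟨n, hn, hn'⟩ := hy
            refine ⟨m * n, mul_mem hm hn, ?_⟩
            show (m : G) * (n : G) = b⁻¹ * (x * y) * b
            rw [hm', hn']
            group
        obtain ⟨m, hm, hm'⟩ := key z hz
        refine ⟨m, hm, ?_⟩
        apply Subtype.ext
        show a * b * (m : G) = k
        rw [hm', hk]
        group
      · rintro ⟨m, hm, rfl⟩
        have key : ∀ m ∈ Submonoid.closure
            {k : K | ∃ x ∈ X, (k : G) = b⁻¹ * x * b}, ∃ z ∈ Submonoid.closure X,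
            (m : G) = b⁻¹ * z * b := by
          intro m hm
          induction hm using Submonoid.closure_induction with
          | mem m hm =>
            obtain ⟨x, hx, hx'⟩ := hm
            exact ⟨x, Submonoid.subset_closure hx, hx'⟩
          | one => exact ⟨1, Submonoid.one_mem _, by simp⟩
          | mul m n _ _ hm hn =>
            obtain ⟨x, hx, hx'⟩ := hm
            obtain ⟨y, hy, hy'⟩ := hn
            refine ⟨x * y, mul_mem hx hy, ?_⟩
            show (m : G) * (n : G) = b⁻¹ * (x * y) * b
            rw [hx', hy']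
            group
        obtain ⟨z, hz, hz'⟩ := key m hm
        refine ⟨z, hz, ?_⟩
        show a * b * (m : G) = a * z * b
        rw [hz']
        group
    rw [this]
    exact (RatSet.single _).mul (h1 _ _ e1).star

/-- rational subsets of `G` contained in `K` are rational in `K` -/
theorem RatSet.comap_subgroup {X : Set G} (h : RatSet X) (K : Subgroup G)
    (hK : X ⊆ K) : RatSet {k : K | (k : G) ∈ X} := by
  have h1 := h.shift_subgroup K 1 1 (fun x hx => by simpa using hK hx)
  have h2 : {k : K | ∃ x ∈ X, (k : G) = 1 * x * 1} = {k : K | (k : G) ∈ X} := by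
    ext k
    simp
  rw [h2] at h1
  exact h1

/-- a rational subset is contained in a finitely generated subgroup -/
theorem RatSet.subset_closure {X : Set G} (h : RatSet X) :
    ∃ F : Set G, F.Finite ∧ X ⊆ Subgroup.closure F := by
  induction h with
  | empty => exact ⟨∅, Set.finite_empty, Set.empty_subset _⟩
  | single g => exact ⟨{g}, Set.finite_singleton g, Subgroup.subset_closure⟩
  | union _ _ h1 h2 =>
    obtain ⟨F, hF, h1⟩ := h1
    obtain ⟨E, hE, h2⟩ := h2
    refine ⟨F ∪ E, hF.union hE, Set.union_subset ?_ ?_⟩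
    · exact h1.trans (Subgroup.closure_mono Set.subset_union_left)
    · exact h2.trans (Subgroup.closure_mono Set.subset_union_right)
  | mul _ _ h1 h2 =>
    obtain ⟨F, hF, h1⟩ := h1
    obtain ⟨E, hE, h2⟩ := h2
    refine ⟨F ∪ E, hF.union hE, ?_⟩
    rintro z ⟨x, hx, y, hy, rfl⟩
    exact mul_mem (Subgroup.closure_mono Set.subset_union_left (h1 hx))
      (Subgroup.closure_mono Set.subset_union_right (h2 hy))
  | star _ h1 =>
    obtain ⟨F, hF, h1⟩ := h1
    refine ⟨F, hF, ?_⟩
    intro x hx
    induction hx using Submonoid.closure_induction with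
    | mem x hx => exact h1 hx
    | one => exact one_mem _
    | mul x y _ _ hx hy => exact mul_mem hx hy

/-- a rational subset contained in a subgroup `K` is contained in the closure of a finite
subset of `K` -/
theorem RatSet.subset_closure_of_subset {X : Set G} (h : RatSet X) (K : Subgroup G)
    (hK : X ⊆ K) : ∃ F : Set G, F.Finite ∧ F ⊆ K ∧ X ⊆ Subgroup.closure F := by
  obtain ⟨F, hF, h1⟩ := (h.comap_subgroup K hK).subset_closure
  refine ⟨K.subtype '' F, hF.image _, ?_, ?_⟩
  · rintro x ⟨k, -, rfl⟩
    exact k.2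
  · intro x hx
    have h2 : (⟨x, hK hx⟩ : K) ∈ Subgroup.closure F := h1 hx
    have h3 := Subgroup.mem_map_of_mem K.subtype h2
    rw [MonoidHom.map_closure] at h3
    exact h3

/-- a rational subgroup is finitely generated -/
theorem fg_of_ratSet {K : Subgroup G} (h : RatSet (K : Set G)) : K.FG := by
  obtain ⟨F, hF, hFK, h1⟩ := h.subset_closure_of_subset K (le_refl _)
  have h2 : Subgroup.closure F = K := le_antisymm ((Subgroup.closure_le K).2 hFK) h1
  rw [← h2]
  exact ⟨hF.toFinset, by simp⟩

/-- an infinite rational subset contains a progression -/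
theorem RatSet.exists_pow_mul {X : Set G} (h : RatSet X) (hinf : X.Infinite) :
    ∃ a c : G, a ≠ 1 ∧ ∀ i : ℕ, a ^ i * c ∈ X := by
  induction h with
  | empty => exact absurd Set.finite_empty hinf
  | single g => exact absurd (Set.finite_singleton g) hinf
  | @union X Y _ _ h1 h2 =>
    rw [Set.infinite_union] at hinf
    rcases hinf with hinf | hinf
    · obtain ⟨a, c, ha, hc⟩ := h1 hinf
      exact ⟨a, c, ha, fun i => Or.inl (hc i)⟩
    · obtain ⟨a, c, ha, hc⟩ := h2 hinf
      exact ⟨a, c, ha, fun i => Or.inr (hc i)⟩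
  | @mul X Y _ _ h1 h2 =>
    have hne : (X * Y).Nonempty := hinf.nonempty
    obtain ⟨x0, hx0⟩ := (Set.mul_nonempty.1 hne).1
    obtain ⟨y0, hy0⟩ := (Set.mul_nonempty.1 hne).2
    by_cases hX : X.Infinite
    · obtain ⟨a, c, ha, hc⟩ := h1 hX
      refine ⟨a, c * y0, ha, fun i => ?_⟩
      rw [← mul_assoc]
      exact Set.mul_mem_mul (hc i) hy0
    · have hY : Y.Infinite := by
        intro hY
        exact hinf ((Set.not_infinite.1 hX).mul hY)
      obtain ⟨a, c, ha, hc⟩ := h2 hY
      refine ⟨x0 * a * x0⁻¹, x0 * c, ?_, fun i => ?_⟩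
      · intro he
        apply ha
        have : x0⁻¹ * (x0 * a * x0⁻¹) * x0 = a := by group
        rw [← this, he]
        group
      · have : (x0 * a * x0⁻¹) ^ i * (x0 * c) = x0 * (a ^ i * c) := by
          rw [conj_pow]
          group
        rw [this]
        exact Set.mul_mem_mul hx0 (hc i)
  | @star X _ h1 =>
    by_cases hX : ∃ x ∈ X, x ≠ 1
    · obtain ⟨x, hx, hx1⟩ := hX
      refine ⟨x, 1, hx1, fun i => ?_⟩
      rw [mul_one]
      exact pow_mem (Submonoid.subset_closure hx) i
    · exfalso
      push Not at hX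
      apply hinf
      have : (Submonoid.closure X : Set G) ⊆ {1} := by
        intro x hx
        induction hx using Submonoid.closure_induction with
        | mem x hx => exact hX x hx
        | one => rfl
        | mul x y _ _ hx hy =>
          rw [Set.mem_singleton_iff] at hx hy ⊢
          rw [hx, hy, one_mul]
      exact (Set.finite_singleton _).subset this

/-- pumping along a homomorphism to the integers -/
theorem RatSet.pump {X : Set G} (h : RatSet X) (pos : G → ℤ)
    (hpos : ∀ g h : G, pos (g * h) = pos g + pos h) :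
    ∃ D : ℤ, 0 ≤ D ∧ ∀ r ∈ X, D < pos r → ∃ u g v : G, r = u * g * v ∧ 1 ≤ pos g ∧ pos g ≤ D ∧
      ∀ i : ℕ, u * g ^ i * v ∈ X := by
  have hpos1 : pos 1 = 0 := by
    have := hpos 1 1
    rw [mul_one] at this
    omega
  induction h with
  | empty => exact ⟨0, le_rfl, fun r hr => absurd hr (Set.notMem_empty r)⟩
  | single g =>
    refine ⟨|pos g|, abs_nonneg _, ?_⟩
    intro r hr h1
    rw [Set.mem_singleton_iff] at hr
    subst hr
    exact absurd (le_abs_self (pos r)) (not_le_of_gt h1)
  | @union X Y _ _ h1 h2 =>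
    obtain ⟨D1, hD1, h1⟩ := h1
    obtain ⟨D2, hD2, h2⟩ := h2
    refine ⟨D1 + D2, by omega, ?_⟩
    rintro r (hr | hr) hp
    · obtain ⟨u, g, v, e, g1, g2, hg⟩ := h1 r hr (by omega)
      exact ⟨u, g, v, e, g1, by omega, fun i => Or.inl (hg i)⟩
    · obtain ⟨u, g, v, e, g1, g2, hg⟩ := h2 r hr (by omega)
      exact ⟨u, g, v, e, g1, by omega, fun i => Or.inr (hg i)⟩
  | @mul X Y _ _ h1 h2 =>
    obtain ⟨D1, hD1, h1⟩ := h1
    obtain ⟨D2, hD2, h2⟩ := h2
    refine ⟨D1 + D2, by omega, ?_⟩
    intro r hr hp
    obtain ⟨x, hx, y, hy, rfl⟩ := Set.mem_mul.1 hr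
    rw [hpos] at hp
    by_cases hc : D1 < pos x
    · obtain ⟨u, g, v, e, g1, g2, hg⟩ := h1 x hx hc
      refine ⟨u, g, v * y, by rw [e]; group, g1, by omega, fun i => ?_⟩
      rw [← mul_assoc]
      exact Set.mul_mem_mul (hg i) hy
    · obtain ⟨u, g, v, e, g1, g2, hg⟩ := h2 y hy (by omega)
      refine ⟨x * u, g, v, by rw [e]; group, g1, by omega, fun i => ?_⟩
      have : x * u * g ^ i * v = x * (u * g ^ i * v) := by group
      rw [this]
      exact Set.mul_mem_mul hx (hg i)
  | @star X _ h1 =>
    obtain ⟨D1, hD1, h1⟩ := h1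
    refine ⟨D1, hD1, ?_⟩
    intro r hr hp
    have hp' : 0 < pos r := by omega
    clear hp
    -- the conclusion is stable under products
    induction hr using Submonoid.closure_induction with
    | mem x hx =>
      by_cases hc : D1 < pos x
      · obtain ⟨u, g, v, e, g1, g2, hg⟩ := h1 x hx hc
        exact ⟨u, g, v, e, g1, g2, fun i => Submonoid.subset_closure (hg i)⟩
      · refine ⟨1, x, 1, by simp, by omega, by omega, fun i => ?_⟩
        rw [one_mul, mul_one]
        exact pow_mem (Submonoid.subset_closure hx) i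
    | one => omega
    | mul x y hx hy ihx ihy =>
      rw [hpos] at hp'
      by_cases hc : 0 < pos x
      · obtain ⟨u, g, v, e, g1, g2, hg⟩ := ihx hc
        refine ⟨u, g, v * y, by rw [e]; group, g1, g2, fun i => ?_⟩
        rw [← mul_assoc]
        exact mul_mem (hg i) hy
      · obtain ⟨u, g, v, e, g1, g2, hg⟩ := ihy (by omega)
        refine ⟨x * u, g, v, by rw [e]; group, g1, g2, fun i => ?_⟩
        have : x * u * g ^ i * v = x * (u * g ^ i * v) := by group
        rw [this]
        exact mul_mem hx (hg i)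

end basic

section BAclosure
variable {G : Type} [Group G]

theorem BA.fg (hG : BA G) : Group.FG G := by
  have h1 : RatSet (Set.univ : Set G) := by
    rw [← Set.compl_empty]
    exact hG _ RatSet.empty
  obtain ⟨F, hF, h2⟩ := h1.subset_closure
  rw [Group.fg_iff]
  refine ⟨F, ?_, hF⟩
  rw [eq_top_iff]
  exact h2

theorem BA.subgroup (hG : BA G) {K : Subgroup G} (hK : K.FG) : BA K := by
  intro X hX
  have h1 : RatSet (K.subtype '' X) := hX.map K.subtype
  have h2 : RatSet ((K : Set G) \ (K.subtype '' X)) := (RatSet.subgroup hK).diff hG h1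
  have h3 := h2.comap_subgroup K Set.sdiff_subset
  have h4 : {k : K | (k : G) ∈ (K : Set G) \ (K.subtype '' X)} = Xᶜ := by
    ext k
    simp
  rw [h4] at h3
  exact h3

theorem BA.quotient (hG : BA G) {P : Subgroup G} [P.Normal] (hP : P.FG) : BA (G ⧸ P) := by
  intro Y hY
  obtain ⟨X, hX, rfl⟩ := hY.lift (QuotientGroup.mk' P) (QuotientGroup.mk'_surjective P)
  have h1 : RatSet ((QuotientGroup.mk' P) '' (X * (P : Set G))ᶜ) :=
    (hG _ (hX.mul (RatSet.subgroup hP))).map _
  have h2 : (QuotientGroup.mk' P) '' (X * (P : Set G))ᶜ = ((QuotientGroup.mk' P) '' X)ᶜ := by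
    ext y
    constructor
    · rintro ⟨g, hg, rfl⟩ ⟨x, hx, hxg⟩
      apply hg
      have h3 : x⁻¹ * g ∈ P := QuotientGroup.eq.1 hxg
      exact Set.mem_mul.2 ⟨x, hx, x⁻¹ * g, h3, by group⟩
    · intro hy
      obtain ⟨g, rfl⟩ := QuotientGroup.mk'_surjective P y
      refine ⟨g, ?_, rfl⟩
      intro hg
      obtain ⟨x, hx, p, hp, rfl⟩ := Set.mem_mul.1 hg
      apply hy
      refine ⟨x, hx, ?_⟩
      apply QuotientGroup.eq.2
      simpa using hp
  rw [← h2]
  exact h1

end BAclosure

end Pool.Agent.RatBool
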