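import Pool.Agent.Lib_MP_7f70a7_al.Ab
import Pool.Agent.Lib_MP_7f70a7_al.Rat

/-!
MP_7f70a7_al: a normal section N/C with the conjugation action of an element x.
-/

set_option autoImplicit false

open scoped Pointwise
open Polynomial

namespace Pool.Agent.RatBool

/-- a normal section `N/C`, commutative, written as a module over `ℤ[X]` -/
structure Ctx (G : Type) [Group G] (M : Type) [AddCommGroup M] [Module ℤ[X] M] where
  N : Subgroup G
  C : Subgroup G
  x : G
  q : G → M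
  hN : N.Normal
  hC : C.Normal
  hCN : C ≤ N
  q_mul : ∀ a ∈ N, ∀ b ∈ N, q (a * b) = q a + q b
  q_conj : ∀ b ∈ N, q (x * b * x⁻¹) = (X : ℤ[X]) • q b
  q_ker : ∀ b ∈ N, (q b = 0 ↔ b ∈ C)
  q_surj : ∀ m, ∃ b ∈ N, q b = m

theorem exists_ctx {G : Type} [Group G] (N C : Subgroup G) (hN : N.Normal) (hC : C.Normal)
    (hCN : C ≤ N) (hcomm : ∀ a ∈ N, ∀ b ∈ N, a * b * a⁻¹ * b⁻¹ ∈ C) (x : G) :
    ∃ (M : Type) (_ : AddCommGroup M) (_ : Module ℤ[X] M) (c : Ctx G M),
      c.N = N ∧ c.C = C ∧ c.x = x := by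
  classical
  let C' : Subgroup N := C.subgroupOf N
  have hC' : C'.Normal := inferInstance
  let cg : CommGroup (N ⧸ C') := { (inferInstance : Group (N ⧸ C')) with
    mul_comm := by
      intro a b
      induction a using QuotientGroup.induction_on with
      | _ a =>
        induction b using QuotientGroup.induction_on with
        | _ b =>
          apply QuotientGroup.eq.2
          show ((a * b)⁻¹ * (b * a) : N) ∈ C.subgroupOf N
          rw [Subgroup.mem_subgroupOf]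
          have h := hcomm ((b : G)⁻¹) (inv_mem b.2) ((a : G)⁻¹) (inv_mem a.2)
          push_cast
          have e : ((a : G) * b)⁻¹ * (b * a) = (b : G)⁻¹ * (a : G)⁻¹ * ((b : G)⁻¹)⁻¹ * ((a : G)⁻¹)⁻¹ := by
            group
          rw [e]
          exact h }
  let f : N →* N := (MulAut.conjNormal x : MulAut N).toMonoidHom
  have hf : ∀ n : N, (f n : G) = x * n * x⁻¹ := fun n => MulAut.conjNormal_apply x n
  have hfC : C' ≤ C'.comap f := by
    intro n hn
    rw [Subgroup.mem_comap, Subgroup.mem_subgroupOf, hf]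
    exact hC.conj_mem _ (Subgroup.mem_subgroupOf.1 hn) x
  let φ : (N ⧸ C') →* (N ⧸ C') := QuotientGroup.map C' C' f hfC
  let τ : AddMonoid.End (Additive (N ⧸ C')) := MonoidHom.toAdditive φ
  let mod : Module ℤ[X] (Additive (N ⧸ C')) :=
    Module.compHom (Additive (N ⧸ C')) (aeval τ : ℤ[X] →ₐ[ℤ] _).toRingHom
  let q : G → Additive (N ⧸ C') :=
    fun g => if h : g ∈ N then Additive.ofMul (QuotientGroup.mk (⟨g, h⟩ : N)) else 0
  have hq : ∀ (g : G) (h : g ∈ N), q g = Additive.ofMul (QuotientGroup.mk (⟨g, h⟩ : N)) := by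
    intro g h
    simp only [q, dif_pos h]
  refine ⟨Additive (N ⧸ C'), inferInstance, mod, ⟨N, C, x, q, hN, hC, hCN, ?_, ?_, ?_, ?_⟩, rfl,
    rfl, rfl⟩
  · intro a ha b hb
    rw [hq a ha, hq b hb, hq (a * b) (mul_mem ha hb)]
    rfl
  · intro b hb
    rw [hq b hb, hq _ (hN.conj_mem b hb x)]
    have h1 : (X : ℤ[X]) • (Additive.ofMul (QuotientGroup.mk (⟨b, hb⟩ : N)) : Additive (N ⧸ C')) =
        τ (Additive.ofMul (QuotientGroup.mk (⟨b, hb⟩ : N))) := by
      show (aeval τ (X : ℤ[X])) (Additive.ofMul (QuotientGroup.mk (⟨b, hb⟩ : N))) = _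
      rw [aeval_X]
    rw [h1]
    have h2 : (⟨x * b * x⁻¹, hN.conj_mem b hb x⟩ : N) = f ⟨b, hb⟩ := by
      apply Subtype.ext
      rw [hf]
    rw [h2]
    rfl
  · intro b hb
    rw [hq b hb]
    constructor
    · intro h
      have h1 : (QuotientGroup.mk (⟨b, hb⟩ : N) : N ⧸ C') = 1 := h
      have h2 : (⟨b, hb⟩ : N) ∈ C' := (QuotientGroup.eq_one_iff _).1 h1
      exact Subgroup.mem_subgroupOf.1 h2
    · intro h
      have h2 : (⟨b, hb⟩ : N) ∈ C' := Subgroup.mem_subgroupOf.2 h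
      have h1 : (QuotientGroup.mk (⟨b, hb⟩ : N) : N ⧸ C') = 1 := (QuotientGroup.eq_one_iff _).2 h2
      exact h1
  · intro m
    obtain ⟨⟨b, hb⟩, hm⟩ := QuotientGroup.mk_surjective (Additive.toMul m)
    refine ⟨b, hb, ?_⟩
    rw [hq b hb, hm]
    rfl

namespace Ctx

variable {G : Type} [Group G] {M : Type} [AddCommGroup M] [Module ℤ[X] M] (c : Ctx G M)

theorem q_one : c.q 1 = 0 := (c.q_ker 1 (one_mem _)).2 (one_mem _)

theorem q_inv {a : G} (ha : a ∈ c.N) : c.q a⁻¹ = - c.q a := by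
  have h := c.q_mul a ha a⁻¹ (inv_mem ha)
  rw [mul_inv_cancel, c.q_one] at h
  exact eq_neg_of_add_eq_zero_right h.symm

theorem q_pow {a : G} (ha : a ∈ c.N) (n : ℕ) : c.q (a ^ n) = n • c.q a := by
  induction n with
  | zero => rw [pow_zero, c.q_one, zero_smul]
  | succ n ih => rw [pow_succ, c.q_mul _ (pow_mem ha n) _ ha, ih, succ_nsmul]

theorem q_zpow {a : G} (ha : a ∈ c.N) (n : ℤ) : c.q (a ^ n) = n • c.q a := by
  rcases n with n | n
  · rw [Int.ofNat_eq_natCast, zpow_natCast, c.q_pow ha, natCast_zsmul]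
  · rw [zpow_negSucc, c.q_inv (pow_mem ha _), c.q_pow ha, negSucc_zsmul]

theorem q_conj_pow {b : G} (hb : b ∈ c.N) (n : ℕ) :
    c.q (c.x ^ n * b * (c.x ^ n)⁻¹) = (X : ℤ[X]) ^ n • c.q b := by
  induction n with
  | zero => simp
  | succ n ih =>
    have h1 : c.x ^ (n + 1) * b * (c.x ^ (n + 1))⁻¹ =
        c.x * (c.x ^ n * b * (c.x ^ n)⁻¹) * c.x⁻¹ := by
      rw [pow_succ']
      group
    rw [h1, c.q_conj _ (c.hN.conj_mem b hb _), ih, smul_smul, pow_succ']

theorem q_eq {a b : G} (ha : a ∈ c.N) (hb : b ∈ c.N) : c.q a = c.q b ↔ a * b⁻¹ ∈ c.C := by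
  rw [← c.q_ker _ (mul_mem ha (inv_mem hb)), c.q_mul _ ha _ (inv_mem hb), c.q_inv hb,
    ← sub_eq_add_neg, sub_eq_zero]

include c in
/-- `X` acts injectively -/
theorem X_smul_inj {m : M} (h : (X : ℤ[X]) • m = 0) : m = 0 := by
  obtain ⟨b, hb, rfl⟩ := c.q_surj m
  rw [← c.q_conj b hb, c.q_ker _ (c.hN.conj_mem b hb _)] at h
  rw [c.q_ker b hb]
  have h1 := c.hC.conj_mem _ h c.x⁻¹
  have h2 : c.x⁻¹ * (c.x * b * c.x⁻¹) * c.x⁻¹⁻¹ = b := by group
  rw [h2] at h1
  exact h1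

include c in
theorem X_pow_smul_inj {m : M} {n : ℕ} (h : (X : ℤ[X]) ^ n • m = 0) : m = 0 := by
  induction n with
  | zero => simpa using h
  | succ n ih =>
    apply ih
    apply c.X_smul_inj
    rw [smul_smul, ← pow_succ']
    exact h

/-- `[x^s, b]` in `C` -/
theorem comm_iff {b : G} (hb : b ∈ c.N) (s : ℕ) :
    ((X : ℤ[X]) ^ s - 1) • c.q b = 0 ↔ c.x ^ s * b * (c.x ^ s)⁻¹ * b⁻¹ ∈ c.C := by
  rw [← c.q_eq (c.hN.conj_mem b hb _) hb, c.q_conj_pow hb, sub_smul, one_smul, sub_eq_zero]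

/-- commutators are in `C` -/
theorem comm_mem {a b : G} (ha : a ∈ c.N) (hb : b ∈ c.N) : a * b * a⁻¹ * b⁻¹ ∈ c.C := by
  have h1 : a * b * a⁻¹ * b⁻¹ = (a * b) * (b * a)⁻¹ := by group
  rw [h1, ← c.q_eq (mul_mem ha hb) (mul_mem hb ha), c.q_mul _ ha _ hb, c.q_mul _ hb _ ha,
    add_comm]

/-- pass to a quotient by a normal subgroup of `C` -/
noncomputable def quot (P : Subgroup G) [hP : P.Normal] (hPC : P ≤ c.C) : Ctx (G ⧸ P) M where
  N := c.N.map (QuotientGroup.mk' P)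
  C := c.C.map (QuotientGroup.mk' P)
  x := QuotientGroup.mk' P c.x
  q := fun y => c.q y.out
  hN := c.hN.map _ (QuotientGroup.mk'_surjective P)
  hC := c.hC.map _ (QuotientGroup.mk'_surjective P)
  hCN := Subgroup.map_mono c.hCN
  q_mul := by
    rintro _ ⟨a, ha, rfl⟩ _ ⟨b, hb, rfl⟩
    have key : ∀ g : G, g ∈ c.N → (QuotientGroup.mk' P g).out ∈ c.N ∧
        c.q (QuotientGroup.mk' P g).out = c.q g := by
      intro g hg
      have e : g⁻¹ * (QuotientGroup.mk' P g).out ∈ P := by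
        apply QuotientGroup.eq.1
        rw [QuotientGroup.out_eq']
        rfl
      have h2 : (QuotientGroup.mk' P g).out = g * (g⁻¹ * (QuotientGroup.mk' P g).out) := by group
      have h3 : g⁻¹ * (QuotientGroup.mk' P g).out ∈ c.N := c.hCN (hPC e)
      refine ⟨by rw [h2]; exact mul_mem hg h3, ?_⟩
      rw [h2, c.q_mul _ hg _ h3, (c.q_ker _ h3).2 (hPC e), add_zero]
    show c.q ((QuotientGroup.mk' P a) * (QuotientGroup.mk' P b)).out = _
    rw [← map_mul, (key _ (mul_mem ha hb)).2, (key a ha).2, (key b hb).2, c.q_mul a ha b hb]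
  q_conj := by
    rintro _ ⟨b, hb, rfl⟩
    have key : ∀ g : G, g ∈ c.N → c.q (QuotientGroup.mk' P g).out = c.q g := by
      intro g hg
      have e : g⁻¹ * (QuotientGroup.mk' P g).out ∈ P := by
        apply QuotientGroup.eq.1
        rw [QuotientGroup.out_eq']
        rfl
      have h2 : (QuotientGroup.mk' P g).out = g * (g⁻¹ * (QuotientGroup.mk' P g).out) := by group
      have h3 : g⁻¹ * (QuotientGroup.mk' P g).out ∈ c.N := c.hCN (hPC e)
      rw [h2, c.q_mul _ hg _ h3, (c.q_ker _ h3).2 (hPC e), add_zero]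
    rw [← map_inv, ← map_mul, ← map_mul, key _ (c.hN.conj_mem b hb _), key b hb, c.q_conj b hb]
  q_ker := by
    rintro _ ⟨b, hb, rfl⟩
    have key : ∀ g : G, g ∈ c.N → c.q (QuotientGroup.mk' P g).out = c.q g := by
      intro g hg
      have e : g⁻¹ * (QuotientGroup.mk' P g).out ∈ P := by
        apply QuotientGroup.eq.1
        rw [QuotientGroup.out_eq']
        rfl
      have h2 : (QuotientGroup.mk' P g).out = g * (g⁻¹ * (QuotientGroup.mk' P g).out) := by group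
      have h3 : g⁻¹ * (QuotientGroup.mk' P g).out ∈ c.N := c.hCN (hPC e)
      rw [h2, c.q_mul _ hg _ h3, (c.q_ker _ h3).2 (hPC e), add_zero]
    rw [key b hb, c.q_ker b hb]
    constructor
    · intro h
      exact ⟨b, h, rfl⟩
    · rintro ⟨d, hd, hdb⟩
      have h1 : d⁻¹ * b ∈ P := QuotientGroup.eq.1 hdb
      have h2 : b = d * (d⁻¹ * b) := by group
      rw [h2]
      exact mul_mem hd (hPC h1)
  q_surj := by
    intro m
    obtain ⟨b, hb, rfl⟩ := c.q_surj m
    refine ⟨QuotientGroup.mk' P b, ⟨b, hb, rfl⟩, ?_⟩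
    have e : b⁻¹ * (QuotientGroup.mk' P b).out ∈ P := by
      apply QuotientGroup.eq.1
      rw [QuotientGroup.out_eq']
      rfl
    have h2 : (QuotientGroup.mk' P b).out = b * (b⁻¹ * (QuotientGroup.mk' P b).out) := by group
    have h3 : b⁻¹ * (QuotientGroup.mk' P b).out ∈ c.N := c.hCN (hPC e)
    rw [h2, c.q_mul _ hb _ h3, (c.q_ker _ h3).2 (hPC e), add_zero]

theorem quot_q (P : Subgroup G) [hP : P.Normal] (hPC : P ≤ c.C) {g : G} (hg : g ∈ c.N) :
    (c.quot P hPC).q (QuotientGroup.mk' P g) = c.q g := by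
  have e : g⁻¹ * (QuotientGroup.mk' P g).out ∈ P := by
    apply QuotientGroup.eq.1
    rw [QuotientGroup.out_eq']
    rfl
  have h2 : (QuotientGroup.mk' P g).out = g * (g⁻¹ * (QuotientGroup.mk' P g).out) := by group
  have h3 : g⁻¹ * (QuotientGroup.mk' P g).out ∈ c.N := c.hCN (hPC e)
  show c.q (QuotientGroup.mk' P g).out = c.q g
  rw [h2, c.q_mul _ hg _ h3, (c.q_ker _ h3).2 (hPC e), add_zero]

/-- positions -/
theorem pos_unique (hx : ∀ s : ℕ, 1 ≤ s → c.x ^ s ∉ c.N) {a b : ℤ} {u v : G} (hu : u ∈ c.N)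
    (hv : v ∈ c.N) (h : c.x ^ a * u = c.x ^ b * v) : a = b := by
  have h1 : c.x ^ (a - b) ∈ c.N := by
    have h2 : c.x ^ (a - b) = c.x ^ b * (v * u⁻¹) * (c.x ^ b)⁻¹ := by
      have h3 : c.x ^ a = c.x ^ b * v * u⁻¹ := by rw [← h]; group
      rw [zpow_sub, h3]
      group
    rw [h2]
    exact c.hN.conj_mem _ (mul_mem hv (inv_mem hu)) _
  by_contra hne
  have h3 : c.x ^ (a - b).natAbs ∈ c.N := by
    rcases Int.natAbs_eq (a - b) with h4 | h4
    · rw [h4, zpow_natCast] at h1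
      exact h1
    · rw [h4, zpow_neg, zpow_natCast] at h1
      exact inv_mem_iff.1 h1
  exact hx _ (by omega) h3

end Ctx

end Pool.Agent.RatBool
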