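import Mathlib
import Pool.Agent.Lib_MP_7f70a7_al.Rat

/-!
MP_7f70a7_al: central commutators have finite order.
-/

set_option autoImplicit false

open scoped Pointwise

namespace Pool.Agent.RatBool

theorem no_tri (c0 δ : ℤ) (hδ : δ ≠ 0) : ¬ ∀ i : ℕ, ∃ n : ℕ, c0 + i * δ = (n.choose 2 : ℕ) := by
  intro h
  obtain ⟨c, hc1, hc2⟩ : ∃ c : ℕ, c0 ≤ c ∧ -(c : ℤ) ≤ c0 := ⟨c0.natAbs, by omega, by omega⟩
  rcases lt_or_gt_of_ne hδ with hneg | hpos
  · obtain ⟨n, hn⟩ := h (c + 1)
    have h1 : (0 : ℤ) ≤ (n.choose 2 : ℕ) := Int.natCast_nonneg _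
    have h2 : (0 : ℤ) ≤ c := Int.natCast_nonneg _
    push_cast at hn
    nlinarith
  · obtain ⟨e, he⟩ : ∃ e : ℕ, (e : ℤ) = δ := ⟨δ.natAbs, by omega⟩
    obtain ⟨n, hn⟩ := h (c + (e + 2) ^ 2)
    obtain ⟨m, hm⟩ := h (c + (e + 2) ^ 2 + 1)
    push_cast at hn hm
    rw [he] at hn hm
    have hnm : (m.choose 2 : ℤ) = n.choose 2 + δ := by
      rw [← hm, ← hn]
      ring
    have hlt : n < m := by
      by_contra hcon
      have := Nat.choose_le_choose 2 (not_lt.1 hcon)
      have : (m.choose 2 : ℤ) ≤ n.choose 2 := by exact_mod_cast this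
      omega
    have h3 : (n + 1).choose 2 ≤ m.choose 2 := Nat.choose_le_choose 2 hlt
    have h4 : (n + 1).choose 2 = n + n.choose 2 := by
      rw [Nat.choose_succ_succ' n 1, Nat.choose_one_right]
    have h5 : (n : ℤ) ≤ δ := by
      have : ((n + 1).choose 2 : ℤ) ≤ m.choose 2 := by exact_mod_cast h3
      rw [h4] at this
      push_cast at this
      omega
    have h6 : n.choose 2 ≤ n * n := by
      rw [Nat.choose_two_right]
      exact (Nat.div_le_self _ _).trans (Nat.mul_le_mul_left _ (Nat.sub_le _ _))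
    have h7 : (n.choose 2 : ℤ) ≤ n * n := by exact_mod_cast h6
    have h8 : (n : ℤ) * n ≤ δ * δ := by
      have : (0 : ℤ) ≤ n := Int.natCast_nonneg _
      nlinarith
    have h9 : (c : ℤ) + (δ + 2) ^ 2 ≤ ((c : ℤ) + (δ + 2) ^ 2) * δ := by
      have : (0 : ℤ) ≤ (c : ℤ) + (δ + 2) ^ 2 := by positivity
      nlinarith
    nlinarith

section
variable {G : Type} [Group G]

theorem conj_zpow_heis {g h d : G} (hd : g * h * g⁻¹ = d * h) (hg : Commute d g) (a : ℤ) :
    g ^ a * h * g ^ (-a) = d ^ a * h := by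
  have hg' : ∀ n : ℤ, g * d ^ n * g⁻¹ = d ^ n := by
    intro n
    have : g * d ^ n = d ^ n * g := ((hg.zpow_left n).eq).symm
    rw [this]
    group
  induction a using Int.induction_on with
  | zero => simp
  | succ n ih =>
    have : g ^ ((n : ℤ) + 1) * h * g ^ (-((n : ℤ) + 1)) = g * (g ^ (n : ℤ) * h * g ^ (-(n : ℤ))) * g⁻¹ := by
      rw [zpow_add_one, neg_add, zpow_add, zpow_neg_one]
      have e : g ^ (n : ℤ) * g = g * g ^ (n : ℤ) := by
        rw [← zpow_add_one, ← zpow_one_add, add_comm]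
      rw [e]
      group
    rw [this, ih]
    have e2 : g * (d ^ (n : ℤ) * h) * g⁻¹ = (g * d ^ (n : ℤ) * g⁻¹) * (g * h * g⁻¹) := by group
    rw [e2, hg', hd, ← mul_assoc, ← zpow_add_one]
  | pred n ih =>
    have e0 : g⁻¹ * h * g = d⁻¹ * h := by
      have e3 : g * (g⁻¹ * h * g) * g⁻¹ = g * (d⁻¹ * h) * g⁻¹ := by
        have e4 : g * (d⁻¹ * h) * g⁻¹ = (g * d ^ (-1 : ℤ) * g⁻¹) * (g * h * g⁻¹) := by group
        rw [e4, hg', hd]
        group
      have e5 := congrArg (fun x => g⁻¹ * x * g) e3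
      simpa [mul_assoc] using e5
    have hg'' : ∀ n : ℤ, g⁻¹ * d ^ n * g = d ^ n := by
      intro n
      have : g⁻¹ * (g * d ^ n * g⁻¹) * g = d ^ n := by group
      rw [hg'] at this
      exact this
    have : g ^ (-(n : ℤ) - 1) * h * g ^ (-(-(n : ℤ) - 1)) =
        g⁻¹ * (g ^ (-(n : ℤ)) * h * g ^ (-(-(n : ℤ)))) * g := by
      have e6 : -(n : ℤ) - 1 = -1 + -(n : ℤ) := by ring
      have e7 : -(-(n : ℤ) - 1) = -(-(n : ℤ)) + 1 := by ring
      rw [e7, e6, zpow_add, zpow_add, zpow_neg_one, zpow_one]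
      group
    rw [this, ih]
    have e2 : g⁻¹ * (d ^ (-(n : ℤ)) * h) * g = (g⁻¹ * d ^ (-(n : ℤ)) * g) * (g⁻¹ * h * g) := by
      group
    rw [e2, hg'', e0, ← mul_assoc, zpow_sub_one]

theorem mul_pow_heis {g h d : G} (hd : g * h * g⁻¹ = d * h) (hg : Commute d g)
    (hh : Commute d h) (n : ℕ) : (h * g) ^ n = d ^ (n.choose 2) * h ^ n * g ^ n := by
  induction n with
  | zero => simp
  | succ n ih =>
    have h1 : g ^ n * h = d ^ n * h * g ^ n := by
      have := conj_zpow_heis hd hg (n : ℤ)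
      rw [zpow_natCast, zpow_neg, zpow_natCast, zpow_natCast] at this
      rw [← this]
      group
    have h2 : (n + 1).choose 2 = n.choose 2 + n := by
      rw [Nat.choose_succ_succ' n 1, Nat.choose_one_right]
      ring
    rw [pow_succ, ih, h2]
    calc d ^ n.choose 2 * h ^ n * g ^ n * (h * g)
        = d ^ n.choose 2 * h ^ n * (g ^ n * h) * g := by group
      _ = d ^ n.choose 2 * (h ^ n * d ^ n) * h * g ^ n * g := by rw [h1]; group
      _ = d ^ n.choose 2 * (d ^ n * h ^ n) * h * g ^ n * g := by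
          rw [((hh.pow_pow n n).eq).symm]
      _ = d ^ (n.choose 2 + n) * h ^ (n + 1) * g ^ (n + 1) := by
          rw [pow_add, pow_succ, pow_succ]
          group

/-- In a group whose rational subsets form a Boolean algebra, a commutator commuting with its
two entries has finite order. -/
theorem heis (hG : BA G) {g h d : G} (hd : g * h * g⁻¹ = d * h) (hg : Commute d g)
    (hh : Commute d h) : IsOfFinOrder d := by
  by_contra hinf
  have hinj : ∀ a b : ℤ, d ^ a = d ^ b → a = b := by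
    intro a b hab
    exact (injective_zpow_iff_not_isOfFinOrder.2 hinf) hab
  let X : Set G := ({x : G | ∃ n : ℕ, x = (h * g) ^ n} * {x : G | ∃ n : ℕ, x = g⁻¹ ^ n} *
    {x : G | ∃ n : ℕ, x = h⁻¹ ^ n}) ∩ (Subgroup.zpowers d : Set G)
  have hX : RatSet X := by
    apply RatSet.inter hG
    · exact ((RatSet.pows _).mul (RatSet.pows _)).mul (RatSet.pows _)
    · apply RatSet.subgroup
      exact ⟨{d}, by simp [Subgroup.zpowers_eq_closure]⟩
  have hmem : ∀ x ∈ X, ∃ n : ℕ, x = d ^ n.choose 2 := by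
    rintro x ⟨hx, hxd⟩
    obtain ⟨y, hy, z, ⟨l, rfl⟩, rfl⟩ := Set.mem_mul.1 hx
    obtain ⟨w, ⟨n, rfl⟩, z, ⟨m, rfl⟩, rfl⟩ := Set.mem_mul.1 hy
    obtain ⟨k, hk⟩ := hxd
    simp only at hk
    rw [mul_pow_heis hd hg hh] at hk ⊢
    have e1 : h ^ (n : ℤ) * g ^ ((n : ℤ) - m) * h ^ (-(l : ℤ)) = d ^ (k - (n.choose 2 : ℕ)) := by
      rw [zpow_sub d, zpow_natCast d, hk, zpow_natCast, zpow_sub, zpow_natCast, zpow_natCast,
        zpow_neg, zpow_natCast]
      have : Commute (d ^ n.choose 2) (h ^ n * g ^ n * (g ^ m)⁻¹ * (h ^ l)⁻¹) := by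
        refine Commute.pow_left ?_ _
        exact (((hh.pow_right n).mul_right (hg.pow_right n)).mul_right
          (hg.pow_right m).inv_right).mul_right (hh.pow_right l).inv_right
      rw [← inv_pow g, ← inv_pow h] at this
      have e9 : d ^ n.choose 2 * h ^ n * g ^ n * g⁻¹ ^ m * h⁻¹ ^ l =
          (h ^ n * g ^ n * g⁻¹ ^ m * h⁻¹ ^ l) * d ^ n.choose 2 := by
        rw [← this.eq]
        group
      rw [e9, mul_inv_cancel_right]
      rw [inv_pow, inv_pow]
      group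
    -- commutes with h
    have ha : (n : ℤ) - m = 0 := by
      have c1 : Commute (h ^ (n : ℤ) * g ^ ((n : ℤ) - m) * h ^ (-(l : ℤ))) h := by
        rw [e1]
        exact hh.zpow_left _
      have c2 : g ^ ((n : ℤ) - m) * h = h * g ^ ((n : ℤ) - m) := by
        have c3 := c1.eq
        have c4 : h ^ (-(n : ℤ)) * (h ^ (n : ℤ) * g ^ ((n : ℤ) - m) * h ^ (-(l : ℤ)) * h) *
            h ^ (l : ℤ) = h ^ (-(n : ℤ)) * (h * (h ^ (n : ℤ) * g ^ ((n : ℤ) - m) *
            h ^ (-(l : ℤ)))) * h ^ (l : ℤ) := by rw [c3]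
        have c5 : h ^ (-(n : ℤ)) * (h ^ (n : ℤ) * g ^ ((n : ℤ) - m) * h ^ (-(l : ℤ)) * h) *
            h ^ (l : ℤ) = g ^ ((n : ℤ) - m) * h := by group
        have c6 : h ^ (-(n : ℤ)) * (h * (h ^ (n : ℤ) * g ^ ((n : ℤ) - m) *
            h ^ (-(l : ℤ)))) * h ^ (l : ℤ) = h * g ^ ((n : ℤ) - m) := by group
        rw [← c5, ← c6]
        exact c4
      have c7 := conj_zpow_heis hd hg ((n : ℤ) - m)
      rw [c2] at c7
      have c8 : d ^ ((n : ℤ) - m) = d ^ (0 : ℤ) := by
        rw [zpow_zero]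
        have : h * g ^ ((n : ℤ) - m) * g ^ (-((n : ℤ) - m)) = h := by group
        rw [this] at c7
        have c9 : d ^ ((n : ℤ) - m) * h * h⁻¹ = h * h⁻¹ := by rw [← c7]
        simpa using c9
      exact hinj _ _ c8
    have hb : (n : ℤ) - l = 0 := by
      rw [ha, zpow_zero, mul_one, ← zpow_add, ← sub_eq_add_neg] at e1
      have c1 : Commute (h ^ ((n : ℤ) - l)) g := by
        rw [e1]
        exact hg.zpow_left _
      -- h^a commutes with g so d^a = 1
      have c2 : g * h ^ ((n : ℤ) - l) * g⁻¹ = (d * h) ^ ((n : ℤ) - l) := by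
        rw [← hd, conj_zpow]
      rw [← c1.eq, mul_inv_cancel_right, hh.mul_zpow] at c2
      have c3 : d ^ ((n : ℤ) - l) = d ^ (0 : ℤ) := by
        rw [zpow_zero]
        exact (right_eq_mul.1 c2)
      exact hinj _ _ c3
    have hm : m = n := by omega
    have hl : l = n := by omega
    subst hm
    subst hl
    refine ⟨l, ?_⟩
    rw [inv_pow, inv_pow]
    group
  have hsub : ∀ n : ℕ, d ^ n.choose 2 ∈ X := by
    intro n
    refine ⟨?_, ⟨(n.choose 2 : ℕ), by simp⟩⟩
    refine Set.mem_mul.2 ⟨(h * g) ^ n * g⁻¹ ^ n, Set.mul_mem_mul ⟨n, rfl⟩ ⟨n, rfl⟩,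
      h⁻¹ ^ n, ⟨n, rfl⟩, ?_⟩
    rw [mul_pow_heis hd hg hh, inv_pow, inv_pow]
    group
  have hXinf : X.Infinite := by
    have h1 : Set.Infinite (Set.range (fun n : ℕ => d ^ (n + 1).choose 2)) := by
      apply Set.infinite_range_of_injective
      intro a b hab
      simp only at hab
      have h2 := hinj ((a + 1).choose 2 : ℕ) ((b + 1).choose 2 : ℕ) (by
        rw [zpow_natCast, zpow_natCast]; exact hab)
      have h3 : (a + 1).choose 2 = (b + 1).choose 2 := by exact_mod_cast h2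
      have key : ∀ a b : ℕ, a < b → (a + 1).choose 2 < (b + 1).choose 2 := by
        intro a b hab
        have e1 : (a + 1 + 1).choose 2 ≤ (b + 1).choose 2 := Nat.choose_le_choose 2 (by omega)
        have e2 : (a + 1 + 1).choose 2 = (a + 1) + (a + 1).choose 2 := by
          rw [Nat.choose_succ_succ' (a + 1) 1, Nat.choose_one_right]
        omega
      rcases lt_trichotomy a b with h4 | h4 | h4
      · have := key a b h4
        omega
      · exact h4
      · have := key b a h4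
        omega
    refine h1.mono ?_
    rintro x ⟨n, rfl⟩
    exact hsub _
  obtain ⟨a, c, ha, hc⟩ := hX.exists_pow_mul hXinf
  obtain ⟨n0, h0⟩ := hmem _ (hc 0)
  obtain ⟨n1, h1⟩ := hmem _ (hc 1)
  rw [pow_zero, one_mul] at h0
  rw [pow_one] at h1
  have hae : a = d ^ ((n1.choose 2 : ℤ) - n0.choose 2) := by
    rw [zpow_sub, zpow_natCast, zpow_natCast, ← h0, ← h1]
    group
  have hδ : (n1.choose 2 : ℤ) - n0.choose 2 ≠ 0 := by
    intro h2
    rw [h2, zpow_zero] at hae
    exact ha hae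
  refine no_tri (n0.choose 2 : ℕ) _ hδ ?_
  intro i
  obtain ⟨n, hn⟩ := hmem _ (hc i)
  refine ⟨n, ?_⟩
  apply hinj
  rw [zpow_natCast, ← hn, hae, h0, zpow_add, zpow_natCast]
  rw [← zpow_natCast (d ^ _) i, ← zpow_mul, mul_comm (i : ℤ)]
  exact (((Commute.refl d).zpow_left _).pow_right _).eq.symm

end

end Pool.Agent.RatBool
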