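import Pool.Agent.Lib_MP_7f70a7_al.AlgCase2
import Pool.Agent.Lib_MP_7f70a7_al.Alg
import Pool.Agent.Lib_MP_7f70a7_al.Heis

/-!
MP_7f70a7_al: the unipotent case and the key dichotomy.
-/

set_option autoImplicit false

open scoped Pointwise
open Polynomial

namespace Pool.Agent.RatBool

theorem dvd_choose_of_factorial {e n k : ℕ} (he : 1 ≤ e) (hk : k + 1 ≤ n) :
    e ∣ (e * n.factorial).choose (k + 1) := by
  obtain ⟨r, hr⟩ : ∃ r, e * n.factorial = r + 1 :=
    ⟨e * n.factorial - 1, by have := Nat.mul_pos he (Nat.factorial_pos n); omega⟩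
  have h1 := Nat.add_one_mul_choose_eq r k
  obtain ⟨t, ht⟩ : k + 1 ∣ n.factorial := Nat.dvd_factorial (by omega) hk
  rw [hr]
  refine ⟨t * r.choose k, ?_⟩
  have h2 : (r + 1).choose (k + 1) * (k + 1) = (e * (t * r.choose k)) * (k + 1) := by
    rw [← h1, ← hr, ht]
    ring
  exact Nat.eq_of_mul_eq_mul_right (by omega) h2

namespace Ctx

variable {G : Type} [Group G] {M : Type} [AddCommGroup M] [Module ℤ[X] M] (c : Ctx G M)

/-- finite subsets of `C` can be killed -/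
def Kill : Prop := ∀ F : Set G, F.Finite → F ⊆ c.C →
  ∃ P : Subgroup G, P.Normal ∧ P.FG ∧ F ⊆ P ∧ P ≤ c.C

theorem uni (hG : BA G) (kill : c.Kill) {b : G} (hb : b ∈ c.N) {s n : ℕ} (hs : 1 ≤ s)
    (h : ((X : ℤ[X]) ^ s - 1) ^ n • c.q b = 0) :
    ∃ s' : ℕ, 1 ≤ s' ∧ ((X : ℤ[X]) ^ s' - 1) • c.q b = 0 := by
  classical
  set θ : ℤ[X] := X ^ s - 1 with hθ
  set m := c.q b with hm
  -- the torsion claim
  have hT : ∃ e : ℕ, 1 ≤ e ∧ e • (θ • m) = 0 := by
    have hex : ∃ j : ℕ, ∃ e : ℕ, 1 ≤ e ∧ e • (θ ^ j • m) = 0 := ⟨n, 1, le_rfl, by rw [h, smul_zero]⟩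
    set j0 := Nat.find hex with hj0
    have hspec := Nat.find_spec hex
    rw [← hj0] at hspec
    obtain ⟨e, he, hej⟩ := hspec
    by_cases hle : j0 ≤ 1
    · refine ⟨e, he, ?_⟩
      have : j0 = 0 ∨ j0 = 1 := by omega
      rcases this with h0 | h1
      · rw [h0, pow_zero, one_smul] at hej
        rw [smul_comm, hej, smul_zero]
      · rw [h1, pow_one] at hej
        exact hej
    · exfalso
      obtain ⟨i, hi⟩ : ∃ i, j0 = i + 2 := ⟨j0 - 2, by omega⟩
      have hmin : ¬ ∃ e : ℕ, 1 ≤ e ∧ e • (θ ^ (i + 1) • m) = 0 :=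
        Nat.find_min hex (by omega)
      obtain ⟨bw, hbw, hqw⟩ := c.q_surj (e • (θ ^ (i + 1) • m))
      obtain ⟨bv, hbv, hqv⟩ := c.q_surj (e • (θ ^ i • m))
      have hXθ : (X : ℤ[X]) ^ s = θ + 1 := by rw [hθ]; ring
      have e1 : θ • c.q bw = 0 := by
        rw [hqw, smul_comm, smul_smul, ← pow_succ']
        rw [hi] at hej
        exact hej
      have e2 : θ • c.q bv = c.q bw := by
        rw [hqw, hqv, smul_comm, smul_smul, ← pow_succ']
      have c1 : (c.x ^ s * bv * (c.x ^ s)⁻¹) * (bw * bv)⁻¹ ∈ c.C := by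
        rw [← c.q_eq (c.hN.conj_mem _ hbv _) (mul_mem hbw hbv), c.q_conj_pow hbv,
          c.q_mul _ hbw _ hbv, hXθ, add_smul, e2, one_smul]
      have c2 : (c.x ^ s * bw * (c.x ^ s)⁻¹) * bw⁻¹ ∈ c.C := by
        rw [← c.q_eq (c.hN.conj_mem _ hbw _) hbw, c.q_conj_pow hbw, hXθ, add_smul, e1, one_smul,
          zero_add]
      have c3 : bw * bv * bw⁻¹ * bv⁻¹ ∈ c.C := c.comm_mem hbw hbv
      obtain ⟨P, hP1, hP2, hP3, hP4⟩ := kill
        {(c.x ^ s * bv * (c.x ^ s)⁻¹) * (bw * bv)⁻¹, (c.x ^ s * bw * (c.x ^ s)⁻¹) * bw⁻¹,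
          bw * bv * bw⁻¹ * bv⁻¹} (by simp) (by
          rintro y (rfl | rfl | rfl)
          · exact c1
          · exact c2
          · exact c3)
      set π := QuotientGroup.mk' P with hπ
      have k1 : π ((c.x ^ s * bv * (c.x ^ s)⁻¹) * (bw * bv)⁻¹) = 1 :=
        (QuotientGroup.eq_one_iff _).2 (hP3 (by simp))
      have k2 : π ((c.x ^ s * bw * (c.x ^ s)⁻¹) * bw⁻¹) = 1 :=
        (QuotientGroup.eq_one_iff _).2 (hP3 (by simp))
      have k3 : π (bw * bv * bw⁻¹ * bv⁻¹) = 1 := (QuotientGroup.eq_one_iff _).2 (hP3 (by simp))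
      have hfin : IsOfFinOrder (π bw) := by
        refine heis (hG.quotient hP2) (g := π (c.x ^ s)) (h := π bv) (d := π bw) ?_ ?_ ?_
        · rw [map_mul, map_inv, mul_inv_eq_one] at k1
          rw [← map_inv, ← map_mul, ← map_mul, k1, map_mul]
        · rw [map_mul, map_inv, mul_inv_eq_one, map_mul, map_mul, map_inv,
            mul_inv_eq_iff_eq_mul] at k2
          exact k2.symm
        · rw [map_mul, map_inv, mul_inv_eq_one, map_mul, map_inv, mul_inv_eq_iff_eq_mul,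
            map_mul] at k3
          exact k3
      obtain ⟨k, hk, hk1⟩ := isOfFinOrder_iff_pow_eq_one.1 hfin
      have h5 : bw ^ k ∈ P := by
        rw [← map_pow] at hk1
        exact (QuotientGroup.eq_one_iff _).1 hk1
      have h6 : c.q (bw ^ k) = 0 := (c.q_ker _ (pow_mem hbw k)).2 (hP4 h5)
      rw [c.q_pow hbw, hqw, smul_smul] at h6
      exact hmin ⟨k * e, Nat.mul_pos hk he, h6⟩
  obtain ⟨e, he, heT⟩ := hT
  refine ⟨s * (e * n.factorial), ?_, ?_⟩
  · exact Nat.mul_pos hs (Nat.mul_pos he (Nat.factorial_pos n))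
  · set r := e * n.factorial with hr
    have h1 : (X : ℤ[X]) ^ (s * r) - 1 =
        ∑ k ∈ Finset.range r, θ ^ (k + 1) * (r.choose (k + 1) : ℤ[X]) := by
      have h2 : (X : ℤ[X]) ^ (s * r) = (θ + 1) ^ r := by
        rw [pow_mul, hθ]
        ring
      rw [h2, add_pow, Finset.sum_range_succ']
      simp
    rw [h1, Finset.sum_smul]
    apply Finset.sum_eq_zero
    intro k hk
    by_cases hkn : n ≤ k + 1
    · have h3 : θ ^ (k + 1) * (r.choose (k + 1) : ℤ[X]) =
          (r.choose (k + 1) : ℤ[X]) * θ ^ (k + 1 - n) * θ ^ n := by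
        rw [mul_comm, mul_assoc, ← pow_add, Nat.sub_add_cancel hkn]
      rw [h3, mul_smul, h, smul_zero]
    · obtain ⟨t, ht⟩ := dvd_choose_of_factorial (e := e) (n := n) (k := k) he (by omega)
      rw [← hr] at ht
      have h3 : θ ^ (k + 1) * (r.choose (k + 1) : ℤ[X]) =
          (θ ^ k * (t : ℤ[X])) * ((e : ℤ[X]) * θ) := by
        rw [ht]
        push_cast
        ring
      rw [h3, mul_smul, mul_smul (e : ℤ[X]), Nat.cast_smul_eq_nsmul, heT, smul_zero]

theorem W_map {G' : Type} [Group G'] (π : G →* G') (b : ℕ → G) (g : ℤ[X]) (n : ℕ) :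
    W (fun i => π (b i)) g n = π (W b g n) := by
  induction n with
  | zero => simp [W]
  | succ n ih => rw [W, ih, W, map_mul, map_zpow]

theorem keyA (hG : BA G) (kill : c.Kill) (hx : ∀ s : ℕ, 1 ≤ s → c.x ^ s ∉ c.N) {b : G}
    (hb : b ∈ c.N) :
    (∃ s : ℕ, 1 ≤ s ∧ ((X : ℤ[X]) ^ s - 1) • c.q b = 0) ∨
    ∃ b' ∈ c.N, ∃ p : ℕ, p ≠ 1 ∧ ∀ g : ℤ[X], g • c.q b' = 0 ↔
      g.map (Int.castRingHom (ZMod p)) = 0 := by
  rcases alg_dichotomy (c.q b) with ⟨s, n, hs, h⟩ | ⟨g, I, hI, hprime, hroot⟩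
  · exact Or.inl (c.uni hG kill hb hs h)
  · right
    obtain ⟨b', hb', hqb⟩ := c.q_surj (g • c.q b)
    rw [← hqb] at hI
    have hX : (X : ℤ[X]) ∉ I := by
      intro hX
      have h1 := c.X_smul_inj ((hI X).1 hX)
      apply hprime.ne_top
      rw [Ideal.eq_top_iff_one, hI, one_smul, h1]
    rcases alg_classify I hprime hX hroot with ⟨p, hp, hpI⟩ | ⟨f, z, hd, hf0, hz, hf, hz'⟩
    · exact ⟨b', hb', p, hp, fun g => (hI g).symm.trans (hpI g)⟩
    · exfalso
      set d := f.natDegree with hd'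
      set F : Set G := (fun p : ℕ × ℕ => c.bb b' p.1 * c.bb b' p.2 * (c.bb b' p.1)⁻¹ *
        (c.bb b' p.2)⁻¹) '' ({i | i ≤ d} ×ˢ {i | i ≤ d}) ∪ {W (c.bb b') f (d + 1)} with hF
      obtain ⟨P, hP1, hP2, hP3, hP4⟩ := kill F
        ((((Set.finite_le_nat d).prod (Set.finite_le_nat d)).image _).union
          (Set.finite_singleton _)) (by
          rintro y (⟨⟨i, j⟩, -, rfl⟩ | rfl)
          · exact c.comm_mem (c.bb_mem hb' i) (c.bb_mem hb' j)
          · show W (c.bb b') f (d + 1) ∈ c.C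
            rw [← c.q_ker _ (W_mem _ _ (fun i _ => c.bb_mem hb' i) f),
              c.q_W' hb' f (fun i hi => coeff_eq_zero_of_natDegree_lt (by omega)), ← hI, hf])
      set π := QuotientGroup.mk' P with hπ
      have hbbq : ∀ i, (c.quot P hP4).bb (π b') i = π (c.bb b' i) := by
        intro i
        show (π c.x) ^ i * π b' * ((π c.x) ^ i)⁻¹ = π (c.x ^ i * b' * (c.x ^ i)⁻¹)
        simp only [map_mul, map_pow, map_inv]
      have hbbq' : (c.quot P hP4).bb (π b') = fun i => π (c.bb b' i) := funext hbbq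
      have hqq : (c.quot P hP4).q (π b') = c.q b' := c.quot_q P hP4 hb'
      refine (c.quot P hP4).alg_case (hG.quotient hP2) ?_ (b := π b') ⟨b', hb', rfl⟩ f z hd hf0
        ?_ ?_ ?_ ?_ ?_ (fun n hn μ hμ α β hα h => no_growth z n hn μ hμ α β hα h)
      · rintro s hs ⟨y, hy, hyx⟩
        have h1 : y⁻¹ * c.x ^ s ∈ P := by
          apply QuotientGroup.eq.1
          exact hyx.trans (map_pow π c.x s).symm
        apply hx s hs
        have h2 : c.x ^ s = y * (y⁻¹ * c.x ^ s) := by group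
        rw [h2]
        exact mul_mem hy (c.hCN (hP4 h1))
      · intro g
        rw [hqq, ← hI, hf]
      · intro g
        rw [hqq, ← hI, hz']
      · intro s hs
        rw [hqq]
        intro h1
        exact hroot s hs ((hI _).2 h1)
      · intro i j hi hj
        rw [hbbq, hbbq]
        have h1 : π (c.bb b' i * c.bb b' j * (c.bb b' i)⁻¹ * (c.bb b' j)⁻¹) = 1 :=
          (QuotientGroup.eq_one_iff _).2 (hP3 (Or.inl ⟨(i, j), ⟨hi, hj⟩, rfl⟩))
        rw [map_mul, map_inv, mul_inv_eq_one, map_mul, map_inv, mul_inv_eq_iff_eq_mul,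
            map_mul] at h1
        exact h1
      · rw [hbbq', W_map]
        exact (QuotientGroup.eq_one_iff _).2 (hP3 (Or.inr rfl))

end Ctx

end Pool.Agent.RatBool
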