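import Pool.Agent.Lib_MP_7f70a7_al.Rat

/-!
MP_7f70a7_al: groups mapping to a lamplighter type group.
-/

set_option autoImplicit false

open scoped Pointwise

namespace Pool.Agent.RatBool

/-- positions and lamps -/
structure Lamp (H : Type) [Group H] (K : Type) [Ring K] where
  pos : H → ℤ
  lamp : H → ℤ → K
  pos_mul : ∀ g h, pos (g * h) = pos g + pos h
  lamp_mul : ∀ g h s, lamp (g * h) s = lamp g s + lamp h (s - pos g)
  bdd : ∀ h, ∃ M : ℤ, ∀ s, M < s → lamp h s = 0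

namespace Lamp

variable {H : Type} [Group H] {K : Type} [Ring K] (L : Lamp H K)

/-- trivial position and lamps -/
def Triv (h : H) : Prop := L.pos h = 0 ∧ ∀ s, L.lamp h s = 0

theorem pos_one : L.pos 1 = 0 := by
  have := L.pos_mul 1 1
  rw [mul_one] at this
  omega

theorem pos_inv (g : H) : L.pos g⁻¹ = - L.pos g := by
  have := L.pos_mul g g⁻¹
  rw [mul_inv_cancel, L.pos_one] at this
  omega

theorem pos_pow (g : H) (n : ℕ) : L.pos (g ^ n) = n * L.pos g := by
  induction n with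
  | zero => simp [L.pos_one]
  | succ n ih =>
    rw [pow_succ, L.pos_mul, ih]
    push_cast
    ring

theorem lamp_one (s : ℤ) : L.lamp 1 s = 0 := by
  have := L.lamp_mul 1 1 s
  rw [mul_one, L.pos_one, sub_zero] at this
  simpa using this

theorem lamp_inv (g : H) (s : ℤ) : L.lamp g⁻¹ s = - L.lamp g (s + L.pos g) := by
  have := L.lamp_mul g g⁻¹ (s + L.pos g)
  rw [mul_inv_cancel, L.lamp_one, add_sub_cancel_right] at this
  exact eq_neg_of_add_eq_zero_right this.symm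

theorem pos_conj (g b : H) : L.pos (g * b * g⁻¹) = L.pos b := by
  rw [L.pos_mul, L.pos_mul, L.pos_inv]
  ring

theorem lamp_conj (g b : H) (hb : L.pos b = 0) (s : ℤ) :
    L.lamp (g * b * g⁻¹) s = L.lamp b (s - L.pos g) := by
  rw [L.lamp_mul, L.lamp_mul, L.lamp_inv, L.pos_mul, hb, add_zero, sub_add_cancel]
  abel

theorem lamp_pow_zero {g : H} (hg : ∀ s, L.lamp g s = 0) (n : ℕ) (s : ℤ) :
    L.lamp (g ^ n) s = 0 := by
  induction n generalizing s with
  | zero => rw [pow_zero, L.lamp_one]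
  | succ n ih => rw [pow_succ, L.lamp_mul, ih, hg, add_zero]

/-- the kernel of the position map -/
def N : Subgroup H where
  carrier := {h | L.pos h = 0}
  mul_mem' := by
    intro a b ha hb
    show L.pos (a * b) = 0
    rw [L.pos_mul, show L.pos a = 0 from ha, show L.pos b = 0 from hb]
    rfl
  one_mem' := L.pos_one
  inv_mem' := by
    intro a ha
    show L.pos a⁻¹ = 0
    rw [L.pos_inv, show L.pos a = 0 from ha]
    rfl

/-- elements with trivial lamps and trivial position -/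
def C : Subgroup H where
  carrier := {h | L.Triv h}
  mul_mem' := by
    rintro a b ⟨ha, ha'⟩ ⟨hb, hb'⟩
    refine ⟨by rw [L.pos_mul, ha, hb]; rfl, fun s => ?_⟩
    rw [L.lamp_mul, ha', hb', add_zero]
  one_mem' := ⟨L.pos_one, L.lamp_one⟩
  inv_mem' := by
    rintro a ⟨ha, ha'⟩
    refine ⟨by rw [L.pos_inv, ha]; rfl, fun s => ?_⟩
    rw [L.lamp_inv, ha', neg_zero]

theorem mem_N {h : H} : h ∈ L.N ↔ L.pos h = 0 := Iff.rfl
theorem mem_C {h : H} : h ∈ L.C ↔ L.Triv h := Iff.rfl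

/-- residue class subgroup: positions divisible by `σ`, lamps vanish outside residue 0 -/
def Ev (σ : ℤ) : Subgroup H where
  carrier := {h | σ ∣ L.pos h ∧ ∀ s, ¬ σ ∣ s → L.lamp h s = 0}
  mul_mem' := by
    rintro a b ⟨ha, ha'⟩ ⟨hb, hb'⟩
    refine ⟨by rw [L.pos_mul]; exact dvd_add ha hb, fun s hs => ?_⟩
    rw [L.lamp_mul, ha' s hs, hb' (s - L.pos a), add_zero]
    intro h
    exact hs ((dvd_sub_left ha).1 h)
  one_mem' := ⟨by rw [L.pos_one]; exact dvd_zero _, fun s _ => L.lamp_one s⟩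
  inv_mem' := by
    rintro a ⟨ha, ha'⟩
    refine ⟨by rw [L.pos_inv]; exact (dvd_neg).2 ha, fun s hs => ?_⟩
    rw [L.lamp_inv, ha', neg_zero]
    intro h
    exact hs ((dvd_add_left ha).1 h)

theorem mem_Ev {σ : ℤ} {h : H} : h ∈ L.Ev σ ↔ σ ∣ L.pos h ∧ ∀ s, ¬ σ ∣ s → L.lamp h s = 0 :=
  Iff.rfl

/-- lamps of a power of an element with one lamp -/
theorem lamp_pow_single {f : H} {σ r : ℤ} (hσ : 0 < σ) (hf : L.pos f = σ)
    (hlf : ∀ s, L.lamp f s = if s = r then 1 else 0) (n : ℕ) (s : ℤ) :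
    L.lamp (f ^ n) s = if r ≤ s ∧ s < r + σ * n ∧ σ ∣ s - r then 1 else 0 := by
  induction n with
  | zero =>
    rw [pow_zero, L.lamp_one, if_neg]
    rintro ⟨h1, h2, -⟩
    simp only [Nat.cast_zero, mul_zero] at h2
    omega
  | succ n ih =>
    rw [pow_succ, L.lamp_mul, ih, L.pos_pow, hf, hlf]
    have hmul : σ * (n + 1 : ℕ) = σ * n + σ := by push_cast; ring
    by_cases h0 : s - n * σ = r
    · have hs : s = r + σ * n := by rw [← h0]; ring
      rw [if_pos h0, if_neg, if_pos, zero_add]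
      · refine ⟨?_, ?_, ?_⟩
        · rw [hs]
          have : 0 ≤ σ * (n : ℤ) := mul_nonneg hσ.le (Int.natCast_nonneg n)
          omega
        · rw [hs, hmul]
          omega
        · rw [hs]
          exact ⟨n, by ring⟩
      · rintro ⟨-, h2, -⟩
        omega
    · rw [if_neg h0, add_zero]
      by_cases h1 : r ≤ s ∧ s < r + σ * n ∧ σ ∣ s - r
      · rw [if_pos h1, if_pos]
        refine ⟨h1.1, ?_, h1.2.2⟩
        rw [hmul]
        omega
      · rw [if_neg h1, if_neg]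
        rintro ⟨h2, h3, h4⟩
        apply h1
        refine ⟨h2, ?_, h4⟩
        obtain ⟨k, hk⟩ := h4
        by_contra h5
        push Not at h5
        rw [hmul] at h3
        have h6 : σ * n ≤ σ * k := by omega
        have h7 : σ * k < σ * (n + 1) := by
          have : σ * ((n : ℤ) + 1) = σ * n + σ := by ring
          omega
        have h8 : (n : ℤ) ≤ k := le_of_mul_le_mul_left h6 hσ
        have h9 : k < n + 1 := lt_of_mul_lt_mul_left h7 hσ.le
        have h10 : k = n := by omega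
        apply h0
        rw [h10] at hk
        linarith

/-- the pinning lemma -/
theorem pin [Nontrivial K] {f z z' : H} {σ r : ℤ} (hσ : 0 < σ) (hf : L.pos f = σ)
    (hlf : ∀ s, L.lamp f s = if s = r then 1 else 0)
    (hz : ∀ s, σ ∣ s - r → L.lamp z s = 0) (hz' : ∀ s, σ ∣ s - r → L.lamp z' s = 0)
    (hp : σ ∣ L.pos z') {i j : ℕ} (hij : 1 ≤ i ∨ 1 ≤ j) (e : z = f ^ i * z' * (f ^ j)⁻¹) :
    L.pos z = 0 := by
  obtain ⟨q, hq⟩ := hp
  have hposz : L.pos z = σ * (i + q - j) := by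
    rw [e, L.pos_mul, L.pos_mul, L.pos_inv, L.pos_pow, L.pos_pow, hf, hq]
    ring
  have key : ∀ s, σ ∣ s - r → L.lamp (f ^ i) s = L.lamp (f ^ j) (s - L.pos z) := by
    intro s hs
    have h1 := hz s hs
    rw [e, L.lamp_mul, L.lamp_mul, L.lamp_inv, L.pos_mul, L.pos_pow, L.pos_pow, hf] at h1
    have h2 : L.lamp z' (s - i * σ) = 0 := by
      apply hz'
      have : s - i * σ - r = (s - r) - σ * i := by ring
      rw [this]
      exact dvd_sub hs (dvd_mul_right _ _)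
    rw [h2, add_zero] at h1
    have h3 : s - (↑i * σ + L.pos z') + ↑j * σ = s - L.pos z := by
      rw [hposz, hq]
      ring
    rw [h3] at h1
    exact (sub_eq_zero.1 (by rw [sub_eq_add_neg]; exact h1))
  have h1ne : (1 : K) ≠ 0 := one_ne_zero
  have A : ∀ s, σ ∣ s - r →
      ((r ≤ s ∧ s < r + σ * i ∧ σ ∣ s - r) ↔
        (r ≤ s - L.pos z ∧ s - L.pos z < r + σ * j ∧ σ ∣ s - L.pos z - r)) := by
    intro s hs
    have h := key s hs
    rw [L.lamp_pow_single hσ hf hlf, L.lamp_pow_single hσ hf hlf] at h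
    by_cases h1 : (r ≤ s ∧ s < r + σ * i ∧ σ ∣ s - r)
    · by_cases h2 : (r ≤ s - L.pos z ∧ s - L.pos z < r + σ * j ∧ σ ∣ s - L.pos z - r)
      · exact iff_of_true h1 h2
      · rw [if_pos h1, if_neg h2] at h
        exact absurd h h1ne
    · by_cases h2 : (r ≤ s - L.pos z ∧ s - L.pos z < r + σ * j ∧ σ ∣ s - L.pos z - r)
      · rw [if_neg h1, if_pos h2] at h
        exact absurd h.symm h1ne
      · exact iff_of_false h1 h2
  have B1 : 1 ≤ i → 1 ≤ j ∧ L.pos z ≤ 0 := by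
    intro hi
    have h1 : (r ≤ r ∧ r < r + σ * i ∧ σ ∣ r - r) := by
      refine ⟨le_rfl, ?_, by simp⟩
      have : 0 < σ * i := mul_pos hσ (by exact_mod_cast hi)
      omega
    have h2 := (A r (by simp)).1 h1
    refine ⟨?_, by omega⟩
    by_contra hj
    have : j = 0 := by omega
    subst this
    simp only [Nat.cast_zero, mul_zero] at h2
    omega
  have B2 : 1 ≤ j → 1 ≤ i ∧ 0 ≤ L.pos z := by
    intro hj
    have h0 : σ ∣ r + L.pos z - r := by
      rw [add_sub_cancel_left, hposz]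
      exact dvd_mul_right _ _
    have h1 : (r ≤ r + L.pos z - L.pos z ∧ r + L.pos z - L.pos z < r + σ * j ∧
        σ ∣ r + L.pos z - L.pos z - r) := by
      have : 0 < σ * j := mul_pos hσ (by exact_mod_cast hj)
      refine ⟨by omega, by omega, by simp⟩
    have h2 := (A (r + L.pos z) h0).2 h1
    refine ⟨?_, by omega⟩
    by_contra hi
    have : i = 0 := by omega
    subst this
    simp only [Nat.cast_zero, mul_zero] at h2
    omega
  rcases hij with hi | hj
  · have h1 := B1 hi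
    have h2 := B2 h1.1
    omega
  · have h2 := B2 hj
    have h1 := B1 h2.1
    omega

/-- rational subsets of `N` have bounded lamps -/
theorem bdd_of_ratSet {X : Set H} (hX : RatSet X) (hXN : ∀ x ∈ X, L.pos x = 0) :
    ∃ M : ℤ, ∀ x ∈ X, ∀ s, M < s → L.lamp x s = 0 := by
  obtain ⟨F, hF, hFN, hXF⟩ := hX.subset_closure_of_subset L.N hXN
  have h1 : ∃ M : ℤ, ∀ x ∈ F, ∀ s, M < s → L.lamp x s = 0 := by
    clear hXF hFN
    induction F, hF using Set.Finite.induction_on with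
    | empty => exact ⟨0, fun x hx => absurd hx (Set.notMem_empty x)⟩
    | @insert f F _ _ ih =>
      obtain ⟨M, hM⟩ := ih
      obtain ⟨M', hM'⟩ := L.bdd f
      refine ⟨max M M', ?_⟩
      intro x hx s hs
      rcases Set.mem_insert_iff.1 hx with rfl | hx
      · exact hM' s (lt_of_le_of_lt (le_max_right _ _) hs)
      · exact hM x hx s (lt_of_le_of_lt (le_max_left _ _) hs)
  obtain ⟨M, hM⟩ := h1
  refine ⟨M, ?_⟩
  intro x hx
  have h2 : x ∈ Subgroup.closure F := hXF hx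
  have h3 : L.pos x = 0 ∧ ∀ s, M < s → L.lamp x s = 0 := by
    clear hx
    induction h2 using Subgroup.closure_induction with
    | mem x hx => exact ⟨hFN hx, hM x hx⟩
    | one => exact ⟨L.pos_one, fun s _ => L.lamp_one s⟩
    | mul x y _ _ hx hy =>
      refine ⟨by rw [L.pos_mul, hx.1, hy.1]; rfl, fun s hs => ?_⟩
      rw [L.lamp_mul, hx.1, sub_zero, hx.2 s hs, hy.2 s hs, add_zero]
    | inv x _ hx =>
      refine ⟨by rw [L.pos_inv, hx.1]; rfl, fun s hs => ?_⟩
      rw [L.lamp_inv, hx.1, add_zero, hx.2 s hs, neg_zero]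
  exact h3.2

/-- `{t^n b t^-n}` is not rational -/
theorem pinA {t b : H} (ht : 1 ≤ L.pos t) (hb : L.pos b = 0) {s0 : ℤ} (hs0 : L.lamp b s0 ≠ 0) :
    ¬ RatSet {x : H | ∃ n : ℕ, x = t ^ n * b * (t ^ n)⁻¹} := by
  intro h
  obtain ⟨M, hM⟩ := L.bdd_of_ratSet h (by
    rintro x ⟨n, rfl⟩
    rw [L.pos_conj, hb])
  obtain ⟨n, hn⟩ : ∃ n : ℕ, M < s0 + n := by
    refine ⟨(M - s0 + 1).toNat, ?_⟩
    have := Int.self_le_toNat (M - s0 + 1)
    omega
  have h1 := hM _ ⟨n, rfl⟩ (s0 + n * L.pos t) (by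
    have : (n : ℤ) * 1 ≤ n * L.pos t := mul_le_mul_of_nonneg_left ht (Int.natCast_nonneg n)
    omega)
  rw [L.lamp_conj _ _ hb, L.pos_pow, add_sub_cancel_right] at h1
  exact hs0 h1

theorem exists_top {b : H} {s0 : ℤ} (hs0 : L.lamp b s0 ≠ 0) :
    ∃ s1 : ℤ, L.lamp b s1 ≠ 0 ∧ ∀ s, s1 < s → L.lamp b s = 0 := by
  obtain ⟨M, hM⟩ := L.bdd b
  obtain ⟨s1, h1, h2⟩ := Int.exists_greatest_of_bdd (P := fun s => L.lamp b s ≠ 0)
    ⟨M, fun s hs => by
      by_contra h
      exact hs (hM s (not_le.1 h))⟩ ⟨s0, hs0⟩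
  refine ⟨s1, h1, fun s hs => ?_⟩
  by_contra h
  exact absurd (h2 s h) (not_le.2 hs)

/-- no torsion-free central direction -/
theorem pinB (hH : BA H) {t f b : H} (ht : 1 ≤ L.pos t) (htl : ∀ s, L.lamp t s = 0)
    (hf : L.Triv f) (hft : Commute f t) (hfb : Commute f b) (hb : L.pos b = 0) {s0 : ℤ}
    (hs0 : L.lamp b s0 ≠ 0) : IsOfFinOrder f := by
  by_contra hinf
  have hX : RatSet (({x : H | ∃ n : ℕ, x = t ^ n} * {b}) * {x : H | ∃ n : ℕ, x = t⁻¹ ^ n}) :=
    ((RatSet.pows t).mul (RatSet.single b)).mul (RatSet.pows _)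
  have hY : RatSet (({x : H | ∃ n : ℕ, x = (f * t) ^ n} * {b}) *
      {x : H | ∃ n : ℕ, x = (f * t)⁻¹ ^ n}) :=
    ((RatSet.pows _).mul (RatSet.single b)).mul (RatSet.pows _)
  have hXY := hX.inter hH hY
  apply L.pinA ht hb hs0
  convert hXY using 1
  ext x
  have hcomm : ∀ n : ℕ, (f * t) ^ n = t ^ n * f ^ n := by
    intro n
    rw [hft.mul_pow, (hft.pow_pow n n).eq]
  constructor
  · rintro ⟨n, rfl⟩
    refine ⟨⟨t ^ n * b, ⟨t ^ n, ⟨n, rfl⟩, b, rfl, rfl⟩, (t⁻¹) ^ n, ⟨n, rfl⟩, by simp⟩,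
      ⟨(f * t) ^ n * b, ⟨_, ⟨n, rfl⟩, b, rfl, rfl⟩, ((f * t)⁻¹) ^ n, ⟨n, rfl⟩, ?_⟩⟩
    show (f * t) ^ n * b * ((f * t)⁻¹) ^ n = t ^ n * b * (t ^ n)⁻¹
    rw [inv_pow, hcomm]
    have : t ^ n * f ^ n * b * (t ^ n * f ^ n)⁻¹ = t ^ n * (f ^ n * b) * (f ^ n)⁻¹ * (t ^ n)⁻¹ := by
      group
    rw [this, (hfb.pow_left n).eq]
    group
  · rintro ⟨⟨w1, ⟨w2, ⟨n1, rfl⟩, b', rfl, rfl⟩, w3, ⟨m1, rfl⟩, rfl⟩,
      ⟨v1, ⟨v2, ⟨n, rfl⟩, b'', hb'', rfl⟩, v3, ⟨m, rfl⟩, e⟩⟩
    rw [Set.mem_singleton_iff] at hb''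
    subst hb''
    change (f * t) ^ n * b'' * (f * t)⁻¹ ^ m = t ^ n1 * b'' * t⁻¹ ^ m1 at e
    rw [inv_pow, inv_pow, hcomm, hcomm] at e
    have e2 : t ^ n * f ^ n * b'' * (t ^ m * f ^ m)⁻¹ =
        (f ^ n * (f ^ m)⁻¹) * (t ^ n * b'' * (t ^ m)⁻¹) := by
      have h1 : t ^ n * f ^ n * b'' * (t ^ m * f ^ m)⁻¹ =
        (t ^ n * f ^ n) * b'' * (f ^ m)⁻¹ * (t ^ m)⁻¹ := by group
      rw [h1, ← (hft.pow_pow n n).eq]
      have h2 : f ^ n * t ^ n * b'' * (f ^ m)⁻¹ * (t ^ m)⁻¹ =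
        f ^ n * t ^ n * (b'' * (f ^ m)⁻¹) * (t ^ m)⁻¹ := by group
      rw [h2, ((hfb.pow_left m).inv_left).symm.eq]
      have h3 : f ^ n * t ^ n * ((f ^ m)⁻¹ * b'') * (t ^ m)⁻¹ =
        f ^ n * (t ^ n * (f ^ m)⁻¹) * b'' * (t ^ m)⁻¹ := by group
      rw [h3, ((hft.pow_pow m n).inv_left).symm.eq]
      group
    rw [e2] at e
    -- positions
    have hff : L.Triv (f ^ n * (f ^ m)⁻¹) :=
      L.C.mul_mem (L.C.pow_mem hf n) (L.C.inv_mem (L.C.pow_mem hf m))
    have hp := congrArg L.pos e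
    rw [L.pos_mul, hff.1, L.pos_mul, L.pos_mul, L.pos_mul, L.pos_mul, L.pos_inv, L.pos_inv,
      L.pos_pow, L.pos_pow, L.pos_pow, L.pos_pow, hb] at hp
    have hl : ∀ s, L.lamp b'' (s - n * L.pos t) = L.lamp b'' (s - n1 * L.pos t) := by
      intro s
      have h := congrArg (fun z => L.lamp z s) e
      rw [L.lamp_mul, hff.2, hff.1, L.lamp_mul, L.lamp_mul, L.lamp_mul, L.lamp_mul,
        L.lamp_inv, L.lamp_inv, L.lamp_pow_zero htl, L.lamp_pow_zero htl, L.lamp_pow_zero htl,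
        L.lamp_pow_zero htl, L.pos_pow, L.pos_pow] at h
      simpa using h
    obtain ⟨s1, hs1, hs1'⟩ := L.exists_top hs0
    have hn : n = n1 := by
      have hpos : 0 < L.pos t := ht
      rcases lt_trichotomy n n1 with h | h | h
      · exfalso
        have h1 := hl (s1 + n1 * L.pos t)
        rw [add_sub_cancel_right] at h1
        apply hs1
        rw [← h1]
        apply hs1'
        have : (n : ℤ) * L.pos t < n1 * L.pos t :=
          mul_lt_mul_of_pos_right (by exact_mod_cast h) hpos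
        omega
      · exact h
      · exfalso
        have h1 := hl (s1 + n * L.pos t)
        rw [add_sub_cancel_right] at h1
        apply hs1
        rw [h1]
        apply hs1'
        have : (n1 : ℤ) * L.pos t < n * L.pos t :=
          mul_lt_mul_of_pos_right (by exact_mod_cast h) hpos
        omega
    have hm : m = m1 := by
      subst hn
      have hpos : 0 < L.pos t := ht
      have h2 : (m : ℤ) * L.pos t = m1 * L.pos t := by linarith
      have h3 := mul_right_cancel₀ hpos.ne' h2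
      exact_mod_cast h3
    have hnm : n = m := by
      subst hn hm
      have h2 : f ^ n * (f ^ m)⁻¹ = 1 := mul_eq_right.1 e
      have h3 : f ^ n = f ^ m := by
        rw [← mul_inv_eq_one]
        exact h2
      exact (injective_pow_iff_not_isOfFinOrder.2 hinf) h3
    refine ⟨n, ?_⟩
    subst hn hm
    subst hnm
    simp

end Lamp

end Pool.Agent.RatBool
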