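import Pool.Agent.Lib_MP_7f70a7_al.Ctx
import Pool.Agent.Lib_MP_7f70a7_al.Lamp

/-!
MP_7f70a7_al: the lamplighter structure on `⟨x, b⟩` when the annihilator of `q b` is `p`.
-/

set_option autoImplicit false

open scoped Pointwise
open Polynomial

namespace Pool.Agent.RatBool

namespace Ctx

variable {G : Type} [Group G] {M : Type} [AddCommGroup M] [Module ℤ[X] M] (c : Ctx G M)

/-- `q` of the conjugate of `b` by `x ^ s` -/
def mm (b : G) (s : ℤ) : M := c.q (c.x ^ s * b * (c.x ^ s)⁻¹)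

/-- combinations of the conjugates -/
noncomputable def Phi (b : G) : (ℤ →₀ ℤ) →ₗ[ℤ] M := Finsupp.linearCombination ℤ (c.mm b)

/-- shift -/
noncomputable def sh (k : ℤ) (F : ℤ →₀ ℤ) : ℤ →₀ ℤ := F.mapDomain (fun s => s + k)

theorem sh_apply (k : ℤ) (F : ℤ →₀ ℤ) (s : ℤ) : sh k F s = F (s - k) := by
  have h : sh k F ((s - k) + k) = F (s - k) :=
    Finsupp.mapDomain_apply (f := fun s : ℤ => s + k) (add_left_injective k) F (s - k)
  rwa [sub_add_cancel] at h

theorem X_pow_mm {b : G} (hb : b ∈ c.N) (n : ℕ) (s : ℤ) :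
    (X : ℤ[X]) ^ n • c.mm b s = c.mm b (s + n) := by
  unfold mm
  rw [← c.q_conj_pow (c.hN.conj_mem b hb _)]
  congr 1
  rw [add_comm s, zpow_add, zpow_natCast]
  group

theorem X_pow_Phi {b : G} (hb : b ∈ c.N) (n : ℕ) (F : ℤ →₀ ℤ) :
    (X : ℤ[X]) ^ n • c.Phi b F = c.Phi b (sh n F) := by
  unfold Phi sh
  rw [Finsupp.linearCombination_mapDomain, Finsupp.linearCombination_apply,
    Finsupp.linearCombination_apply, Finsupp.sum, Finsupp.sum, Finset.smul_sum]
  apply Finset.sum_congr rfl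
  intro s _
  rw [Function.comp_apply, ← c.X_pow_mm hb, smul_comm]

theorem mm_nat {b : G} (hb : b ∈ c.N) (n : ℕ) : c.mm b n = (X : ℤ[X]) ^ n • c.q b := by
  unfold mm
  rw [zpow_natCast, c.q_conj_pow hb]

/-- conjugation by `x ^ k` shifts -/
theorem q_conj_zpow {b u : G} (hb : b ∈ c.N) (hu : u ∈ c.N) {F : ℤ →₀ ℤ}
    (h : c.q u = c.Phi b F) (k : ℤ) :
    c.q (c.x ^ k * u * (c.x ^ k)⁻¹) = c.Phi b (sh k F) := by
  rcases Int.eq_nat_or_neg k with ⟨n, rfl | rfl⟩
  · rw [zpow_natCast, c.q_conj_pow hu, h, c.X_pow_Phi hb]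
  · have hv : c.x ^ (-(n : ℤ)) * u * (c.x ^ (-(n : ℤ)))⁻¹ ∈ c.N := c.hN.conj_mem u hu _
    rw [← sub_eq_zero]
    apply c.X_pow_smul_inj (n := n)
    rw [smul_sub, c.X_pow_Phi hb, ← c.q_conj_pow hv]
    have e1 : c.x ^ n * (c.x ^ (-(n : ℤ)) * u * (c.x ^ (-(n : ℤ)))⁻¹) * (c.x ^ n)⁻¹ = u := by
      rw [zpow_neg, zpow_natCast]
      group
    rw [e1, h]
    have e2 : sh n (sh (-(n : ℤ)) F) = F := by
      ext s
      rw [sh_apply, sh_apply]
      congr 1
      ring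
    rw [e2, sub_self]

/-- the kernel -/
theorem Phi_eq_zero {b : G} (hb : b ∈ c.N) (p : ℕ)
    (hann : ∀ g : ℤ[X], g • c.q b = 0 ↔ g.map (Int.castRingHom (ZMod p)) = 0) (F : ℤ →₀ ℤ) :
    c.Phi b F = 0 ↔ ∀ s, ((F s : ℤ) : ZMod p) = 0 := by
  classical
  obtain ⟨a, ha⟩ : ∃ a : ℕ, ∀ s ∈ F.support, -(a : ℤ) ≤ s := by
    obtain ⟨B, hB⟩ := F.support.finite_toSet.bddBelow
    refine ⟨(-B).toNat, fun s hs => ?_⟩
    have h1 := hB (Finset.mem_coe.2 hs)
    have h2 := Int.self_le_toNat (-B)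
    omega
  let g : ℤ[X] := ∑ s ∈ F.support, Polynomial.C (F s) * X ^ (s + a).toNat
  have hg : (X : ℤ[X]) ^ a • c.Phi b F = g • c.q b := by
    unfold Phi
    rw [Finsupp.linearCombination_apply, Finsupp.sum, Finset.smul_sum, Finset.sum_smul]
    apply Finset.sum_congr rfl
    intro s hs
    rw [mul_smul, smul_comm, c.X_pow_mm hb]
    have h1 : (s + a) = ((s + a).toNat : ℤ) := by
      have := ha s hs
      omega
    rw [h1, c.mm_nat hb, ← h1]
    rw [eq_intCast (Polynomial.C : ℤ →+* ℤ[X]), Int.cast_smul_eq_zsmul]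
  have hgc : ∀ n : ℕ, g.coeff n = F (n - a) := by
    intro n
    rw [Polynomial.finsetSum_coeff]
    simp only [coeff_C_mul_X_pow]
    by_cases h : ((n : ℤ) - a) ∈ F.support
    · rw [Finset.sum_eq_single ((n : ℤ) - a)]
      · rw [if_pos (by omega)]
      · intro s hs hne
        rw [if_neg]
        intro h1
        apply hne
        have := ha s hs
        omega
      · intro h1
        exact absurd h h1
    · rw [Finsupp.notMem_support_iff.1 h]
      apply Finset.sum_eq_zero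
      intro s hs
      rw [if_neg]
      intro h1
      apply h
      have := ha s hs
      have h2 : ((n : ℤ) - a) = s := by omega
      rw [h2]
      exact hs
  have h1 : c.Phi b F = 0 ↔ g • c.q b = 0 := by
    rw [← hg]
    constructor
    · intro h
      rw [h, smul_zero]
    · intro h
      exact c.X_pow_smul_inj h
  rw [h1, hann, Polynomial.ext_iff]
  constructor
  · intro h s
    by_cases hs : s ∈ F.support
    · have h2 := h (s + a).toNat
      rw [Polynomial.coeff_map, hgc, coeff_zero] at h2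
      have h3 : (((s + a).toNat : ℤ) - a) = s := by
        have := ha s hs
        omega
      rw [h3] at h2
      exact h2
    · rw [Finsupp.notMem_support_iff.1 hs]
      simp
  · intro h n
    rw [Polynomial.coeff_map, hgc, coeff_zero]
    exact h _

/-- representation -/
def Rep (b : G) (h : G) (k : ℤ) (F : ℤ →₀ ℤ) : Prop :=
  ∃ u ∈ c.N, h = u * c.x ^ k ∧ c.q u = c.Phi b F

theorem Rep.mul {b : G} (hb : b ∈ c.N) {g h : G} {k l : ℤ} {F F' : ℤ →₀ ℤ}
    (h1 : c.Rep b g k F) (h2 : c.Rep b h l F') : c.Rep b (g * h) (k + l) (F + sh k F') := by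
  obtain ⟨u, hu, rfl, hF⟩ := h1
  obtain ⟨v, hv, rfl, hF'⟩ := h2
  refine ⟨u * (c.x ^ k * v * (c.x ^ k)⁻¹), mul_mem hu (c.hN.conj_mem v hv _), ?_, ?_⟩
  · rw [zpow_add]
    group
  · rw [c.q_mul _ hu _ (c.hN.conj_mem v hv _), hF, c.q_conj_zpow hb hv hF', map_add]

theorem Rep.inv {b : G} (hb : b ∈ c.N) {g : G} {k : ℤ} {F : ℤ →₀ ℤ}
    (h1 : c.Rep b g k F) : c.Rep b g⁻¹ (-k) (- sh (-k) F) := by
  obtain ⟨u, hu, rfl, hF⟩ := h1
  refine ⟨c.x ^ (-k) * u⁻¹ * (c.x ^ (-k))⁻¹, c.hN.conj_mem _ (inv_mem hu) _, ?_, ?_⟩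
  · group
  · have e : c.x ^ (-k) * u⁻¹ * (c.x ^ (-k))⁻¹ = (c.x ^ (-k) * u * (c.x ^ (-k))⁻¹)⁻¹ := by group
    rw [e, c.q_inv (c.hN.conj_mem u hu _), c.q_conj_zpow hb hu hF, map_neg]

theorem Rep.unique {b : G} (hb : b ∈ c.N) (hx : ∀ s : ℕ, 1 ≤ s → c.x ^ s ∉ c.N) (p : ℕ)
    (hann : ∀ g : ℤ[X], g • c.q b = 0 ↔ g.map (Int.castRingHom (ZMod p)) = 0) {g : G} {k l : ℤ}
    {F F' : ℤ →₀ ℤ} (h1 : c.Rep b g k F) (h2 : c.Rep b g l F') :
    k = l ∧ ∀ s, ((F s : ℤ) : ZMod p) = ((F' s : ℤ) : ZMod p) := by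
  obtain ⟨u, hu, e1, hF⟩ := h1
  obtain ⟨v, hv, e2, hF'⟩ := h2
  have hkl : k = l := by
    have hu' : (c.x ^ k)⁻¹ * u * c.x ^ k ∈ c.N := by
      have := c.hN.conj_mem u hu (c.x ^ k)⁻¹
      rwa [inv_inv] at this
    have hv' : (c.x ^ l)⁻¹ * v * c.x ^ l ∈ c.N := by
      have := c.hN.conj_mem v hv (c.x ^ l)⁻¹
      rwa [inv_inv] at this
    apply c.pos_unique hx hu' hv'
    have e3 : c.x ^ k * ((c.x ^ k)⁻¹ * u * c.x ^ k) = g := by
      rw [e1]; group
    have e4 : c.x ^ l * ((c.x ^ l)⁻¹ * v * c.x ^ l) = g := by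
      rw [e2]; group
    rw [e3, e4]
  subst hkl
  refine ⟨rfl, ?_⟩
  have huv : u = v := by
    rw [e1] at e2
    exact mul_right_cancel e2
  subst huv
  have h3 : c.Phi b (F - F') = 0 := by
    rw [map_sub, ← hF, ← hF', sub_self]
  intro s
  have h4 := (c.Phi_eq_zero hb p hann _).1 h3 s
  rw [Finsupp.sub_apply, Int.cast_sub, sub_eq_zero] at h4
  exact h4

theorem Rep.exists {b : G} (hb : b ∈ c.N) {h : G}
    (hh : h ∈ Subgroup.closure ({c.x, b} : Set G)) : ∃ k F, c.Rep b h k F := by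
  induction hh using Subgroup.closure_induction with
  | mem h hh =>
    rcases hh with rfl | rfl
    · exact ⟨1, 0, 1, one_mem _, by simp, by rw [c.q_one, map_zero]⟩
    · refine ⟨0, Finsupp.single 0 1, h, hb, by simp, ?_⟩
      unfold Phi
      rw [Finsupp.linearCombination_single, one_smul]
      unfold mm
      simp
  | one => exact ⟨0, 0, 1, one_mem _, by simp, by rw [c.q_one, map_zero]⟩
  | mul x y _ _ hx hy =>
    obtain ⟨k, F, h1⟩ := hx
    obtain ⟨l, F', h2⟩ := hy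
    exact ⟨_, _, Rep.mul c hb h1 h2⟩
  | inv x _ hx =>
    obtain ⟨k, F, h1⟩ := hx
    exact ⟨_, _, Rep.inv c hb h1⟩

end Ctx

theorem exists_lamp {G : Type} [Group G] {M : Type} [AddCommGroup M] [Module ℤ[X] M]
    (c : Ctx G M) (hx : ∀ s : ℕ, 1 ≤ s → c.x ^ s ∉ c.N) {b : G} (hb : b ∈ c.N) (p : ℕ)
    (hann : ∀ g : ℤ[X], g • c.q b = 0 ↔ g.map (Int.castRingHom (ZMod p)) = 0) :
    ∃ (L : Lamp (Subgroup.closure ({c.x, b} : Set G)) (ZMod p))
      (hxm : c.x ∈ Subgroup.closure ({c.x, b} : Set G))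
      (hbm : b ∈ Subgroup.closure ({c.x, b} : Set G)),
      L.pos ⟨c.x, hxm⟩ = 1 ∧ (∀ s, L.lamp ⟨c.x, hxm⟩ s = 0) ∧ L.pos ⟨b, hbm⟩ = 0 ∧
      (∀ s, L.lamp ⟨b, hbm⟩ s = if s = 0 then 1 else 0) ∧
      ∀ h : Subgroup.closure ({c.x, b} : Set G), h ∈ L.C ↔ (h : G) ∈ c.C := by
  classical
  have hex : ∀ h : Subgroup.closure ({c.x, b} : Set G), ∃ k F, c.Rep b h k F :=
    fun h => Ctx.Rep.exists c hb h.2
  choose k F hR using hex
  have huniq : ∀ (h : Subgroup.closure ({c.x, b} : Set G)) {l : ℤ} {F' : ℤ →₀ ℤ},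
      c.Rep b h l F' → k h = l ∧ ∀ s, ((F h s : ℤ) : ZMod p) = ((F' s : ℤ) : ZMod p) := by
    intro h l F' h2
    exact Ctx.Rep.unique c hb hx p hann (hR h) h2
  let L : Lamp (Subgroup.closure ({c.x, b} : Set G)) (ZMod p) :=
    { pos := k
      lamp := fun h s => ((F h s : ℤ) : ZMod p)
      pos_mul := by
        intro g h
        exact (huniq (g * h) (Ctx.Rep.mul c hb (hR g) (hR h))).1
      lamp_mul := by
        intro g h s
        have h1 := (huniq (g * h) (Ctx.Rep.mul c hb (hR g) (hR h))).2 s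
        rw [Finsupp.add_apply, Ctx.sh_apply, Int.cast_add] at h1
        exact h1
      bdd := by
        intro h
        obtain ⟨B, hB⟩ := (F h).support.finite_toSet.bddAbove
        refine ⟨B, fun s hs => ?_⟩
        have h1 : s ∉ (F h).support := by
          intro h2
          have := hB (Finset.mem_coe.2 h2)
          omega
        rw [Finsupp.notMem_support_iff.1 h1, Int.cast_zero] }
  have hxm : c.x ∈ Subgroup.closure ({c.x, b} : Set G) := Subgroup.subset_closure (by simp)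
  have hbm : b ∈ Subgroup.closure ({c.x, b} : Set G) := Subgroup.subset_closure (by simp)
  have hRx : c.Rep b (⟨c.x, hxm⟩ : Subgroup.closure ({c.x, b} : Set G)) 1 0 :=
    ⟨1, one_mem _, by simp, by rw [c.q_one, map_zero]⟩
  have hRb : c.Rep b (⟨b, hbm⟩ : Subgroup.closure ({c.x, b} : Set G)) 0 (Finsupp.single 0 1) := by
    refine ⟨b, hb, by simp, ?_⟩
    unfold Ctx.Phi
    rw [Finsupp.linearCombination_single, one_smul]
    unfold Ctx.mm
    simp
  refine ⟨L, hxm, hbm, (huniq _ hRx).1, ?_, (huniq _ hRb).1, ?_, ?_⟩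
  · intro s
    have := (huniq _ hRx).2 s
    rw [Finsupp.zero_apply, Int.cast_zero] at this
    exact this
  · intro s
    have := (huniq _ hRb).2 s
    rw [Finsupp.single_apply] at this
    show ((F ⟨b, hbm⟩ s : ℤ) : ZMod p) = _
    rw [this]
    by_cases h : (0 : ℤ) = s
    · rw [if_pos h, if_pos h.symm, Int.cast_one]
    · rw [if_neg h, if_neg (fun h' => h h'.symm), Int.cast_zero]
  · intro h
    rw [Lamp.mem_C]
    constructor
    · rintro ⟨h1, h2⟩
      obtain ⟨u, hu, e, hq⟩ := hR h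
      have h3 : k h = 0 := h1
      rw [h3, zpow_zero, mul_one] at e
      rw [e, ← c.q_ker u hu, hq, c.Phi_eq_zero hb p hann]
      exact h2
    · intro hC
      have hRep : c.Rep b h 0 0 := by
        refine ⟨h, c.hCN hC, by simp, ?_⟩
        rw [map_zero, c.q_ker _ (c.hCN hC)]
        exact hC
      have h1 := huniq h hRep
      refine ⟨h1.1, fun s => ?_⟩
      have h2 := h1.2 s
      rw [Finsupp.zero_apply, Int.cast_zero] at h2
      exact h2

end Pool.Agent.RatBool
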