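import Pool.Agent.Lib_MP_7f70a7_al.Va
import Pool.Agent.Lib_MP_7f70a7_al.LampCtx

/-!
MP_7f70a7_al: the main theorem.
-/

set_option autoImplicit false

open scoped Pointwise
open Polynomial

namespace Pool.Agent.RatBool

section main
variable {G : Type} [Group G]

/-- finitely generated normal virtually abelian subgroups -/
def NV (P : Subgroup G) : Prop := P.Normal ∧ P.FG ∧ VA P

theorem NV_bot : NV (⊥ : Subgroup G) := by
  refine ⟨inferInstance, ⟨∅, by simp⟩, ⊤, by simp, ?_⟩
  intro x _ y _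
  exact Subsingleton.elim _ _

theorem NV_sup (hG : BA G) (hs : Group.IsSolvable G) {P Q : Subgroup G} (hP : NV P) (hQ : NV Q) :
    NV (P ⊔ Q) := by
  obtain ⟨hP1, hP2, hP3⟩ := hP
  obtain ⟨hQ1, hQ2, hQ3⟩ := hQ
  have hfg : (P ⊔ Q).FG := hP2.sup hQ2
  refine ⟨inferInstance, hfg, ?_⟩
  set R := P ⊔ Q with hR
  have hBA : BA R := hG.subgroup hfg
  set P' := P.subgroupOf R with hP'
  have hPR : P ≤ R := le_sup_left
  have hQR : Q ≤ R := le_sup_right
  let e : P' ≃* P := Subgroup.subgroupOfEquivOfLe hPR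
  have hP'fg : P'.FG := by
    have h1 : Group.FG P := (Group.fg_iff_subgroup_fg P).2 hP2
    have h2 : Group.FG P' := Group.fg_of_surjective (f := e.symm.toMonoidHom) e.symm.surjective
    exact (Group.fg_iff_subgroup_fg P').1 h2
  have hP'va : VA P' := VA_of_surjective hP3 e.symm.toMonoidHom e.symm.surjective
  have hP'n : P'.Normal := inferInstance
  refine va_ext hBA (inferInstance) hP'n hP'fg hP'va ?_
  -- the quotient is an image of Q
  refine VA_of_surjective hQ3 ((QuotientGroup.mk' P').comp (Subgroup.inclusion hQR)) ?_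
  intro y
  obtain ⟨⟨r, hr⟩, rfl⟩ := QuotientGroup.mk'_surjective P' y
  have hr' : r ∈ ((P ⊔ Q : Subgroup G) : Set G) := hr
  rw [Subgroup.normal_mul] at hr'
  obtain ⟨p, hp, q, hq, hpq⟩ := hr'
  refine ⟨⟨q, hq⟩, ?_⟩
  show QuotientGroup.mk' P' (⟨q, hQR hq⟩ : R) = QuotientGroup.mk' P' ⟨r, hr⟩
  apply QuotientGroup.eq.2
  rw [Subgroup.mem_subgroupOf]
  show (q : G)⁻¹ * r ∈ P
  have h1 : r = p * q := hpq.symm
  rw [h1]
  have h2 := hP1.conj_mem p hp q⁻¹
  have h3 : q⁻¹ * p * q⁻¹⁻¹ = q⁻¹ * (p * q) := by group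
  rw [h3] at h2
  exact h2

/-- the union of the finitely generated normal virtually abelian subgroups -/
def EE (hG : BA G) (hs : Group.IsSolvable G) : Subgroup G where
  carrier := {g | ∃ P : Subgroup G, NV P ∧ g ∈ P}
  mul_mem' := by
    rintro a b ⟨P, hP, ha⟩ ⟨Q, hQ, hb⟩
    exact ⟨P ⊔ Q, NV_sup hG hs hP hQ, mul_mem (Subgroup.mem_sup_left ha)
      (Subgroup.mem_sup_right hb)⟩
  one_mem' := ⟨⊥, NV_bot, one_mem _⟩
  inv_mem' := by
    rintro a ⟨P, hP, ha⟩
    exact ⟨P, hP, inv_mem ha⟩

theorem EE_normal (hG : BA G) (hs : Group.IsSolvable G) : (EE hG hs).Normal := by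
  constructor
  rintro n ⟨P, hP, hn⟩ g
  exact ⟨P, hP, hP.1.conj_mem n hn g⟩

theorem EE_finite (hG : BA G) (hs : Group.IsSolvable G) {F : Set G} (hF : F.Finite)
    (hFE : F ⊆ EE hG hs) : ∃ P : Subgroup G, NV P ∧ F ⊆ P ∧ P ≤ EE hG hs := by
  have h1 : ∃ P : Subgroup G, NV P ∧ F ⊆ P := by
    induction F, hF using Set.Finite.induction_on with
    | empty => exact ⟨⊥, NV_bot, Set.empty_subset _⟩
    | @insert f F _ _ ih =>
      obtain ⟨P, hP, h1⟩ := ih ((Set.subset_insert _ _).trans hFE)
      obtain ⟨Q, hQ, h2⟩ := hFE (Set.mem_insert f F)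
      refine ⟨P ⊔ Q, NV_sup hG hs hP hQ, ?_⟩
      intro x hx
      rcases Set.mem_insert_iff.1 hx with rfl | hx
      · exact Subgroup.mem_sup_right h2
      · exact Subgroup.mem_sup_left (h1 hx)
  obtain ⟨P, hP, h2⟩ := h1
  exact ⟨P, hP, h2, fun x hx => ⟨P, hP, hx⟩⟩

/-- powers of x commute with b modulo E -/
theorem power_comm (hG : BA G) (hs : Group.IsSolvable G) {N : Subgroup G} (hN : N.Normal)
    (hEN : EE hG hs ≤ N) (hNN : ∀ a ∈ N, ∀ b ∈ N, a * b * a⁻¹ * b⁻¹ ∈ EE hG hs) {b : G}
    (hb : b ∈ N) (x : G) : ∃ s : ℕ, 1 ≤ s ∧ x ^ s * b * (x ^ s)⁻¹ * b⁻¹ ∈ EE hG hs := by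
  by_cases hx : ∃ s : ℕ, 1 ≤ s ∧ x ^ s ∈ N
  · obtain ⟨s, hs1, hs2⟩ := hx
    exact ⟨s, hs1, hNN _ hs2 b hb⟩
  push Not at hx
  obtain ⟨M, i1, i2, c, hcN, hcC, hcx⟩ := exists_ctx N (EE hG hs) hN (EE_normal hG hs) hEN hNN x
  have hbN : b ∈ c.N := by rw [hcN]; exact hb
  have hx' : ∀ s : ℕ, 1 ≤ s → c.x ^ s ∉ c.N := by
    intro s hs1
    rw [hcx, hcN]
    exact hx s hs1
  have hkill : c.Kill := by
    intro F hF hFC
    rw [hcC] at hFC ⊢
    obtain ⟨P, hP, h1, h2⟩ := EE_finite hG hs hF hFC
    exact ⟨P, hP.1, hP.2.1, h1, h2⟩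
  rcases c.keyA hG hkill hx' hbN with ⟨s, hs1, h1⟩ | ⟨b', hb', p, hp, hann⟩
  · refine ⟨s, hs1, ?_⟩
    rw [c.comm_iff hbN, hcC, hcx] at h1
    exact h1
  · exfalso
    let H : Subgroup G := Subgroup.closure ({c.x, b'} : Set G)
    obtain ⟨L, hxm, hbm, hLx, hLx', hLb, hLb', hLC⟩ := exists_lamp c hx' hb' p hann
    have hHfg : H.FG := FG_of_finite (by simp)
    have hBH : BA H := hG.subgroup hHfg
    have : Nontrivial (ZMod p) := ZMod.nontrivial_iff.2 hp
    refine L.no_lamp (H := H) hBH (fun P0 h1 h2 h3 => lemmaP hBH inferInstance h1 h2 h3) ?_ hLx hLx' hLb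
      hLb'
    intro h hh
    have h1 : (h : G) ∈ EE hG hs := by
      have := (hLC h).1 hh
      rw [hcC] at this
      exact this
    obtain ⟨P, hP, hhP⟩ := h1
    set PH := P.subgroupOf H with hPH
    have hPHn : PH.Normal := by
      have := hP.1
      infer_instance
    have hPHfg : PH.FG := by
      have h2 : RatSet ((P : Set G) ∩ (H : Set G)) :=
        (RatSet.subgroup hP.2.1).inter hG (RatSet.subgroup hHfg)
      have h3 := h2.comap_subgroup H Set.inter_subset_right
      have h4 : {k : H | (k : G) ∈ (P : Set G) ∩ (H : Set G)} = (PH : Set H) := by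
        ext k
        constructor
        · rintro ⟨h5, -⟩
          exact Subgroup.mem_subgroupOf.2 h5
        · intro h5
          exact ⟨Subgroup.mem_subgroupOf.1 h5, k.2⟩
      rw [h4] at h3
      exact fg_of_ratSet h3
    have hPHva : VA PH := by
      let φ : PH →* P := (H.subtype.comp PH.subtype).codRestrict P (fun k => by
        exact Subgroup.mem_subgroupOf.1 k.2)
      refine VA_of_injective hP.2.2 φ ?_
      intro a b hab
      have h5 : (φ a : G) = (φ b : G) := by rw [hab]
      exact Subtype.ext (Subtype.ext h5)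
    obtain ⟨P0, k1, k2, k3, k4, k5, -⟩ := exists_P0 (G := H) inferInstance hPHn hPHfg hPHva
    refine ⟨PH, P0, hPHn, k1, k2, k3, k4, k5, Subgroup.mem_subgroupOf.2 hhP, ?_⟩
    intro k hk
    rw [hLC k, hcC]
    exact ⟨P, hP, Subgroup.mem_subgroupOf.1 hk⟩

/-- an element whose image has a centraliser of finite index modulo E lies in E -/
theorem mem_EE (hG : BA G) (hs : Group.IsSolvable G) {b : G}
    (h : ∀ x : G, ∃ s : ℕ, 1 ≤ s ∧ x ^ s * b * (x ^ s)⁻¹ * b⁻¹ ∈ EE hG hs) :
    b ∈ EE hG hs := by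
  classical
  have hEn := EE_normal hG hs
  set E := EE hG hs with hE
  -- the centraliser modulo E
  have hfgQ : Group.FG (G ⧸ E) := by
    have := hG.fg
    infer_instance
  have h1 : (Subgroup.centralizer (Subgroup.closure {QuotientGroup.mk' E b} :
      Set (G ⧸ E))).index ≠ 0 := by
    apply centralizer_index hfgQ inferInstance (Set.finite_singleton _)
    intro x y hy
    rw [Set.mem_singleton_iff] at hy
    subst hy
    obtain ⟨g, rfl⟩ := QuotientGroup.mk'_surjective E x
    obtain ⟨s, hs1, hs2⟩ := h g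
    refine ⟨s, hs1, ?_⟩
    have h2 : QuotientGroup.mk' E (g ^ s * b * (g ^ s)⁻¹ * b⁻¹) = 1 :=
      (QuotientGroup.eq_one_iff _).2 hs2
    rw [map_mul, map_inv, mul_inv_eq_one, map_mul, map_inv, mul_inv_eq_iff_eq_mul, map_mul,
      map_pow] at h2
    exact h2
  rw [Subgroup.centralizer_closure] at h1
  set S : Subgroup G := (Subgroup.centralizer {QuotientGroup.mk' E b}).comap
    (QuotientGroup.mk' E) with hS
  have hSi : S.index ≠ 0 := by
    rw [hS, Subgroup.index_comap_of_surjective _ (QuotientGroup.mk'_surjective E)]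
    exact h1
  have hSfg : S.FG := by
    have : S.FiniteIndex := ⟨hSi⟩
    have := hG.fg
    exact (Group.fg_iff_subgroup_fg S).1 (Subgroup.fg_of_index_ne_zero S)
  obtain ⟨T, hT⟩ := hSfg
  have hTS : ∀ g ∈ T, g * b * g⁻¹ * b⁻¹ ∈ E := by
    intro g hg
    have h2 : g ∈ S := by
      rw [← hT]
      exact Subgroup.subset_closure hg
    have h3 := Subgroup.mem_centralizer_iff.1 (Subgroup.mem_comap.1 h2) _ rfl
    apply (QuotientGroup.eq_one_iff _).1
    show QuotientGroup.mk' E (g * b * g⁻¹ * b⁻¹) = 1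
    rw [map_mul, map_inv, mul_inv_eq_one, map_mul, map_inv, mul_inv_eq_iff_eq_mul, map_mul]
    exact h3.symm
  obtain ⟨D, hD, hTD, -⟩ := EE_finite hG hs (F := (fun g => g * b * g⁻¹ * b⁻¹) '' (T : Set G))
    (T.finite_toSet.image _) (by
      rintro _ ⟨g, hg, rfl⟩
      exact hTS g hg)
  have hDn := hD.1
  set π := QuotientGroup.mk' D with hπ
  have hπs : Function.Surjective π := QuotientGroup.mk'_surjective D
  set Z : Subgroup (G ⧸ D) := Subgroup.centralizer {π b} with hZ
  have hZi : Z.index ≠ 0 := by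
    have h2 : S ≤ Z.comap π := by
      rw [← hT, Subgroup.closure_le]
      intro g hg
      rw [SetLike.mem_coe, Subgroup.mem_comap, hZ, Subgroup.mem_centralizer_iff]
      rintro _ rfl
      have h3 : π (g * b * g⁻¹ * b⁻¹) = 1 := (QuotientGroup.eq_one_iff _).2 (hTD ⟨g, hg, rfl⟩)
      rw [map_mul, map_inv, mul_inv_eq_one, map_mul, map_inv, mul_inv_eq_iff_eq_mul, map_mul] at h3
      exact h3.symm
    have h3 : (Z.comap π).index ≠ 0 := by
      intro h0
      apply hSi
      have := Subgroup.index_dvd_of_le h2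
      rw [h0] at this
      exact Nat.eq_zero_of_zero_dvd this
    rw [Subgroup.index_comap_of_surjective _ hπs] at h3
    exact h3
  -- the normal closure of the image of b
  have : Z.FiniteIndex := ⟨hZi⟩
  have hfinq : Finite ((G ⧸ D) ⧸ Z) := Subgroup.finite_quotient_of_finiteIndex
  set K : Subgroup (G ⧸ D) := Subgroup.normalClosure {π b} with hK
  have hKn : K.Normal := Subgroup.normalClosure_normal
  obtain ⟨R, hR, hRc⟩ := exists_cover hZi
  have hKfg : K.FG := by
    have h2 : K = Subgroup.closure ((fun r => r * π b * r⁻¹) '' R) := by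
      apply le_antisymm
      · rw [hK, Subgroup.normalClosure, Subgroup.closure_le]
        intro y hy
        rw [Group.mem_conjugatesOfSet_iff] at hy
        obtain ⟨a, ha, hay⟩ := hy
        rw [Set.mem_singleton_iff] at ha
        subst ha
        obtain ⟨g, rfl⟩ := isConj_iff.1 hay
        obtain ⟨r, hr, hrg⟩ := hRc g
        have h3 : g * π b * g⁻¹ = r * π b * r⁻¹ := by
          have h4 := Subgroup.mem_centralizer_iff.1 hrg _ rfl
          have h5 : g * π b * g⁻¹ = r * ((r⁻¹ * g) * π b) * g⁻¹ := by group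
          rw [h5, ← h4]
          group
        rw [h3]
        exact Subgroup.subset_closure ⟨r, hr, rfl⟩
      · rw [Subgroup.closure_le]
        rintro _ ⟨r, -, rfl⟩
        exact hKn.conj_mem _ (Subgroup.subset_normalClosure rfl) r
    rw [h2]
    exact FG_of_finite (hR.image _)
  have hKva : VA K := by
    refine ⟨(Z.normalCore).subgroupOf K, ?_, ?_⟩
    · exact (inferInstance : ((Z.normalCore).subgroupOf K).FiniteIndex).index_ne_zero
    · intro x hx y hy
      have h2 : K ≤ Subgroup.centralizer (Z.normalCore : Set (G ⧸ D)) := by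
        rw [hK]
        apply Subgroup.normalClosure_le_normal
        rw [Set.singleton_subset_iff, SetLike.mem_coe, Subgroup.mem_centralizer_iff]
        intro z hz
        exact (Subgroup.mem_centralizer_iff.1 (Subgroup.normalCore_le Z hz) _ rfl).symm
      have h3 := Subgroup.mem_centralizer_iff.1 (h2 y.2) _ (Subgroup.mem_subgroupOf.1 hx)
      exact Subtype.ext h3
  -- the preimage
  set P : Subgroup G := K.comap π with hP
  have hPn : P.Normal := hKn.comap π
  have hDP : D ≤ P := by
    intro d hd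
    rw [hP, Subgroup.mem_comap]
    have : π d = 1 := (QuotientGroup.eq_one_iff _).2 hd
    rw [this]
    exact one_mem _
  have hPfg : P.FG := by
    obtain ⟨F0, hF0⟩ := hD.2.1
    obtain ⟨F1, hF1⟩ := hKfg
    choose g hg using hπs
    have h2 : P = Subgroup.closure ((F0 : Set G) ∪ g '' (F1 : Set (G ⧸ D))) := by
      apply le_antisymm
      · intro x hx
        have hx' : π x ∈ Subgroup.closure (F1 : Set (G ⧸ D)) := by
          rw [hF1]
          exact hx
        have h3 : Subgroup.closure (F1 : Set (G ⧸ D)) ≤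
            (Subgroup.closure (g '' (F1 : Set (G ⧸ D)))).map π := by
          rw [Subgroup.closure_le]
          intro y hy
          exact ⟨g y, Subgroup.subset_closure ⟨y, hy, rfl⟩, hg y⟩
        obtain ⟨y, hy, hyx⟩ := h3 hx'
        have h4 : y⁻¹ * x ∈ D := QuotientGroup.eq.1 hyx
        have h5 : x = y * (y⁻¹ * x) := by group
        rw [h5]
        refine mul_mem (Subgroup.closure_mono Set.subset_union_right hy)
          (Subgroup.closure_mono Set.subset_union_left ?_)
        rw [hF0]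
        exact h4
      · rw [Subgroup.closure_le]
        rintro x (hx | ⟨y, hy, rfl⟩)
        · apply hDP
          rw [← hF0]
          exact Subgroup.subset_closure hx
        · rw [hP]
          show π (g y) ∈ K
          rw [hg, ← hF1]
          exact Subgroup.subset_closure hy
    rw [h2]
    exact FG_of_finite (F0.finite_toSet.union (F1.finite_toSet.image _))
  have hPBA : BA P := hG.subgroup hPfg
  have hPva : VA P := by
    set D' := D.subgroupOf P with hD'
    let e : D' ≃* D := Subgroup.subgroupOfEquivOfLe hDP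
    have hD'fg : D'.FG := by
      have h1 : Group.FG D := (Group.fg_iff_subgroup_fg D).2 hD.2.1
      have h2 : Group.FG D' := Group.fg_of_surjective (f := e.symm.toMonoidHom) e.symm.surjective
      exact (Group.fg_iff_subgroup_fg D').1 h2
    have hD'va : VA D' := VA_of_surjective hD.2.2 e.symm.toMonoidHom e.symm.surjective
    have hD'n : D'.Normal := inferInstance
    refine va_ext hPBA inferInstance hD'n hD'fg hD'va ?_
    let φ : P ⧸ D' →* G ⧸ D := QuotientGroup.map D' D P.subtype (fun k hk =>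
      Subgroup.mem_subgroupOf.1 hk)
    have hφ : ∀ p : P, φ (QuotientGroup.mk' D' p) = π p := fun p => rfl
    let ψ : P ⧸ D' →* K := φ.codRestrict K (by
      intro y
      obtain ⟨p, rfl⟩ := QuotientGroup.mk'_surjective D' y
      rw [hφ]
      exact p.2)
    refine VA_of_injective hKva ψ ?_
    rw [injective_iff_map_eq_one]
    intro y hy
    obtain ⟨p, rfl⟩ := QuotientGroup.mk'_surjective D' y
    have h2 : φ (QuotientGroup.mk' D' p) = 1 := congrArg Subtype.val hy
    rw [hφ] at h2
    have h3 : (p : G) ∈ D := (QuotientGroup.eq_one_iff _).1 h2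
    exact (QuotientGroup.eq_one_iff _).2 (Subgroup.mem_subgroupOf.2 h3)
  exact ⟨P, ⟨hPn, hPfg, hPva⟩, Subgroup.subset_normalClosure (Set.mem_singleton (π b))⟩

theorem EE_top (hG : BA G) (hs : Group.IsSolvable G) : EE hG hs = ⊤ := by
  classical
  set E := EE hG hs with hE
  have hEn : E.Normal := EE_normal hG hs
  have hex : ∃ n, derivedSeries G n ≤ E := by
    obtain ⟨n, hn⟩ := (Group.isSolvable_def G).1 hs
    exact ⟨n, by rw [hn]; exact bot_le⟩
  set n := Nat.find hex with hn
  have hspec : derivedSeries G n ≤ E := Nat.find_spec hex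
  rcases Nat.eq_zero_or_pos n with h0 | hpos
  · rw [h0, derivedSeries_zero] at hspec
    exact top_le_iff.1 hspec
  · exfalso
    obtain ⟨k, hk⟩ : ∃ k, n = k + 1 := ⟨n - 1, by omega⟩
    have hmin : ¬ derivedSeries G k ≤ E := Nat.find_min hex (by omega)
    apply hmin
    set B := derivedSeries G k with hB
    have hBn : B.Normal := derivedSeries_normal G k
    intro b hb
    apply mem_EE hG hs
    intro x
    refine power_comm hG hs (N := B ⊔ E) inferInstance le_sup_right ?_
      (Subgroup.mem_sup_left hb) x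
    -- commutators
    have hBB : ∀ a ∈ B, ∀ b ∈ B, a * b * a⁻¹ * b⁻¹ ∈ E := by
      intro a ha b hb
      apply hspec
      rw [hk, derivedSeries_succ]
      exact Subgroup.commutator_mem_commutator ha hb
    intro a ha b hb
    have hab : ∀ a ∈ B ⊔ E, ∃ a' ∈ B, QuotientGroup.mk' E a = QuotientGroup.mk' E a' := by
      intro a ha
      have ha' : a ∈ ((B ⊔ E : Subgroup G) : Set G) := ha
      rw [Subgroup.mul_normal] at ha'
      obtain ⟨a', ha1, e, he, rfl⟩ := ha'
      refine ⟨a', ha1, ?_⟩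
      apply QuotientGroup.eq.2
      have h5 : (a' * e)⁻¹ * a' = e⁻¹ := by group
      show (a' * e)⁻¹ * a' ∈ E
      rw [h5]
      exact inv_mem he
    obtain ⟨a', ha', e1⟩ := hab a ha
    obtain ⟨b', hb', e2⟩ := hab b hb
    apply (QuotientGroup.eq_one_iff _).1
    show QuotientGroup.mk' E (a * b * a⁻¹ * b⁻¹) = 1
    rw [map_mul, map_mul, map_mul, map_inv, map_inv, e1, e2, ← map_inv, ← map_inv, ← map_mul,
      ← map_mul, ← map_mul]
    exact (QuotientGroup.eq_one_iff _).2 (hBB a' ha' b' hb')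

theorem main_theorem (hG : BA G) (hs : Group.IsSolvable G) : VA G := by
  obtain ⟨F, hF, hFfin⟩ := Group.fg_iff.1 hG.fg
  obtain ⟨P, hP, hFP, -⟩ := EE_finite hG hs hFfin (by
    intro x _
    rw [EE_top hG hs]
    exact Subgroup.mem_top x)
  have h1 : P = ⊤ := by
    rw [eq_top_iff, ← hF, Subgroup.closure_le]
    exact hFP
  subst h1
  exact VA_of_surjective hP.2.2 (Subgroup.topEquiv (G := G)).toMonoidHom
    (Subgroup.topEquiv (G := G)).surjective

end main

end Pool.Agent.RatBool
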