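import Mathlib

/-!
MP_7f70a7_al: finite index criteria for subgroups containing powers.
-/

set_option autoImplicit false

namespace Pool.Agent.RatBool

section cover
variable {Q : Type} [Group Q]

theorem index_ne_zero_of_cover {S : Subgroup Q} {R : Set Q} (hR : R.Finite)
    (h : ∀ q : Q, ∃ r ∈ R, r⁻¹ * q ∈ S) : S.index ≠ 0 := by
  have : Finite R := hR
  have h1 : Function.Surjective (fun r : R => (QuotientGroup.mk (r : Q) : Q ⧸ S)) := by
    intro x
    obtain ⟨q, rfl⟩ := QuotientGroup.mk_surjective x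
    obtain ⟨r, hr, hrq⟩ := h q
    exact ⟨⟨r, hr⟩, QuotientGroup.eq.2 hrq⟩
  have : Finite (Q ⧸ S) := Finite.of_surjective _ h1
  exact Subgroup.index_ne_zero_of_finite

theorem exists_cover {S : Subgroup Q} (h : S.index ≠ 0) :
    ∃ R : Set Q, R.Finite ∧ ∀ q : Q, ∃ r ∈ R, r⁻¹ * q ∈ S := by
  have : S.FiniteIndex := ⟨h⟩
  have : Finite (Q ⧸ S) := Subgroup.finite_quotient_of_finiteIndex
  refine ⟨Set.range (fun x : Q ⧸ S => Quotient.out x), Set.finite_range _, ?_⟩
  intro q
  refine ⟨_, ⟨(QuotientGroup.mk q : Q ⧸ S), rfl⟩, ?_⟩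
  exact QuotientGroup.eq.1 (QuotientGroup.out_eq' _)

/-- cover of the closure of finitely many commuting torsion elements -/
theorem exists_cover_closure (T B : Subgroup Q) (hTB : T ≤ B)
    (hB : ∀ a ∈ B, ∀ b ∈ B, a * b = b * a) {F : Set Q} (hF : F.Finite) (hFB : F ⊆ B)
    (htor : ∀ f ∈ F, ∃ m : ℕ, 1 ≤ m ∧ f ^ m ∈ T) :
    ∃ R : Set Q, R.Finite ∧ ∀ q ∈ Subgroup.closure ((T : Set Q) ∪ F), ∃ r ∈ R, r⁻¹ * q ∈ T := by
  induction F, hF using Set.Finite.induction_on with
  | empty =>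
    refine ⟨{1}, Set.finite_singleton _, ?_⟩
    intro q hq
    rw [Set.union_empty, Subgroup.closure_eq] at hq
    exact ⟨1, rfl, by simpa using hq⟩
  | @insert f F _ _ ih =>
    obtain ⟨R, hR, h⟩ := ih ((Set.subset_insert _ _).trans hFB)
      (fun g hg => htor g (Set.mem_insert_of_mem _ hg))
    obtain ⟨m, hm, hfm⟩ := htor f (Set.mem_insert _ _)
    have hfB : f ∈ B := hFB (Set.mem_insert _ _)
    have hcl : Subgroup.closure ((T : Set Q) ∪ F) ≤ B := by
      rw [Subgroup.closure_le]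
      exact Set.union_subset hTB ((Set.subset_insert _ _).trans hFB)
    have hrep : ∀ q ∈ Subgroup.closure ((T : Set Q) ∪ insert f F), ∃ n : ℤ,
        ∃ c ∈ Subgroup.closure ((T : Set Q) ∪ F), q = f ^ n * c := by
      intro q hq
      induction hq using Subgroup.closure_induction with
      | mem x hx =>
        rcases hx with hx | hx
        · exact ⟨0, x, Subgroup.subset_closure (Or.inl hx), by simp⟩
        · rcases Set.mem_insert_iff.1 hx with rfl | hx
          · exact ⟨1, 1, one_mem _, by simp⟩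
          · exact ⟨0, x, Subgroup.subset_closure (Or.inr hx), by simp⟩
      | one => exact ⟨0, 1, one_mem _, by simp⟩
      | mul x y _ _ hx hy =>
        obtain ⟨n, c, hc, rfl⟩ := hx
        obtain ⟨k, d, hd, rfl⟩ := hy
        refine ⟨n + k, c * d, mul_mem hc hd, ?_⟩
        have h1 : c * f ^ k = f ^ k * c := hB _ (hcl hc) _ (zpow_mem hfB k)
        calc f ^ n * c * (f ^ k * d) = f ^ n * (c * f ^ k) * d := by group
          _ = f ^ (n + k) * (c * d) := by rw [h1]; group
      | inv x _ hx =>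
        obtain ⟨n, c, hc, rfl⟩ := hx
        refine ⟨-n, c⁻¹, inv_mem hc, ?_⟩
        have h1 : c⁻¹ * f ^ (-n) = f ^ (-n) * c⁻¹ :=
          hB _ (hcl (inv_mem hc)) _ (zpow_mem hfB _)
        rw [mul_inv_rev, ← zpow_neg, h1]
    refine ⟨Set.image2 (fun (i : ℕ) (r : Q) => f ^ i * r) (Set.Iio m) R,
      Set.Finite.image2 _ (Set.finite_Iio m) hR, ?_⟩
    intro q hq
    obtain ⟨n, c, hc, rfl⟩ := hrep q hq
    obtain ⟨r, hr, hrc⟩ := h c hc
    have hm0 : (0 : ℤ) < m := by exact_mod_cast hm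
    have e1 : n = m * (n / m) + n % m := (Int.mul_ediv_add_emod n m).symm
    have e2 : 0 ≤ n % m := Int.emod_nonneg _ hm0.ne'
    have e3 : n % m < m := Int.emod_lt_of_pos _ hm0
    obtain ⟨i, hi⟩ := Int.eq_ofNat_of_zero_le e2
    refine ⟨f ^ i * r, ⟨i, ?_, r, hr, rfl⟩, ?_⟩
    · rw [Set.mem_Iio]
      have : (i : ℤ) < m := by rw [← hi]; exact e3
      exact_mod_cast this
    · have hrB : r ∈ B := by
        have : r = c * (r⁻¹ * c)⁻¹ := by group
        rw [this]
        exact mul_mem (hcl hc) (inv_mem (hTB hrc))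
      have e4 : f ^ n = (f ^ m) ^ (n / m) * f ^ i := by
        rw [← zpow_natCast f m, ← zpow_mul, ← zpow_natCast f i, ← zpow_add]
        congr 1
        rw [← hi]
        exact e1
      have e5 : (f ^ i * r)⁻¹ * (f ^ n * c) = (f ^ m) ^ (n / m) * (r⁻¹ * c) := by
        have h1 : r⁻¹ * (f ^ m) ^ (n / m) = (f ^ m) ^ (n / m) * r⁻¹ :=
          hB _ (inv_mem hrB) _ (zpow_mem (pow_mem hfB m) _)
        have h2 : (f ^ i)⁻¹ * (f ^ n) = (f ^ m) ^ (n / m) := by
          rw [e4]
          have h3 : (f ^ m) ^ (n / m) * f ^ i = f ^ i * (f ^ m) ^ (n / m) :=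
            hB _ (zpow_mem (pow_mem hfB m) _) _ (pow_mem hfB i)
          rw [h3]
          group
        calc (f ^ i * r)⁻¹ * (f ^ n * c) = r⁻¹ * ((f ^ i)⁻¹ * f ^ n) * c := by group
          _ = (f ^ m) ^ (n / m) * (r⁻¹ * c) := by rw [h2, h1]; group
      rw [e5]
      exact mul_mem (zpow_mem hfm _) hrc

end cover

/-- the derived series of a subgroup, inside the big group -/
def dser {Q : Type} [Group Q] (C : Subgroup Q) : ℕ → Subgroup Q
  | 0 => C
  | n + 1 => ⁅dser C n, dser C n⁆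

theorem dser_normal {Q : Type} [Group Q] (C : Subgroup Q) [C.Normal] (n : ℕ) :
    (dser C n).Normal := by
  induction n with
  | zero => assumption
  | succ n ih =>
    show (⁅dser C n, dser C n⁆ : Subgroup Q).Normal
    infer_instance

theorem dser_map {Q Q' : Type} [Group Q] [Group Q'] (f : Q →* Q') (C : Subgroup Q) (n : ℕ) :
    dser (C.map f) n = (dser C n).map f := by
  induction n with
  | zero => rfl
  | succ n ih =>
    show ⁅dser (C.map f) n, dser (C.map f) n⁆ = (⁅dser C n, dser C n⁆ : Subgroup Q).map f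
    rw [ih, Subgroup.map_commutator]

theorem dser_mono {Q : Type} [Group Q] {C C' : Subgroup Q} (h : C ≤ C') (n : ℕ) :
    dser C n ≤ dser C' n := by
  induction n with
  | zero => exact h
  | succ n ih => exact Subgroup.commutator_mono ih ih

theorem dser_top {Q : Type} [Group Q] (n : ℕ) : dser (⊤ : Subgroup Q) n = derivedSeries Q n := by
  induction n with
  | zero => rfl
  | succ n ih =>
    show ⁅dser (⊤ : Subgroup Q) n, dser (⊤ : Subgroup Q) n⁆ = ⁅derivedSeries Q n, derivedSeries Q n⁆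
    rw [ih]

/-- `S` contains a positive power of each element of `GG` -/
def HasPows {Q : Type} [Group Q] (GG : Set Q) (S : Subgroup Q) : Prop :=
  ∀ g ∈ GG, ∃ k : ℕ, 1 ≤ k ∧ g ^ k ∈ S

theorem commute_of_commutator_eq_bot {Q : Type} [Group Q] {B : Subgroup Q}
    (h : ⁅B, B⁆ = ⊥) : ∀ a ∈ B, ∀ b ∈ B, a * b = b * a := by
  intro a ha b hb
  have h1 := (Subgroup.commutator_eq_bot_iff_le_centralizer.1 h) ha
  exact (Subgroup.mem_centralizer_iff.1 h1 b hb).symm

theorem finiteIndex_of_hasPows_aux (n : ℕ) : ∀ (Q : Type) [Group Q], Group.FG Q →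
    ∀ (C : Subgroup Q), C.Normal → dser C n = ⊥ → ∀ (GG : Set Q), GG.Nonempty →
    (∀ g ∈ GG, ∀ k : ℕ, 1 ≤ k → g ^ k ∈ GG) → (∀ g ∈ GG, ∀ c ∈ C, c * g ∈ GG) →
    (∀ S : Subgroup Q, C ≤ S → HasPows GG S → S.index ≠ 0) →
    ∀ S : Subgroup Q, HasPows GG S → S.index ≠ 0 := by
  induction n with
  | zero =>
    intro Q _ _ C _ hn GG _ _ _ base S hS
    have hn' : C = ⊥ := hn
    exact base S (hn' ▸ bot_le) hS
  | succ n ih =>
    intro Q _ hQ C hCn hn GG hne hpow hC base S hS
    let B : Subgroup Q := dser C n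
    have hBn : B.Normal := dser_normal C n
    have hBC : B ≤ C := by
      have : ∀ m, dser C m ≤ C := by
        intro m
        induction m with
        | zero => exact le_rfl
        | succ m ihm =>
          have : (dser C m).Normal := dser_normal C m
          exact (Subgroup.commutator_le_left _ _).trans ihm
      exact this n
    have hBab : ∀ a ∈ B, ∀ b ∈ B, a * b = b * a := commute_of_commutator_eq_bot hn
    -- the quotient by B
    have key : ∀ S : Subgroup Q, B ≤ S → HasPows GG S → S.index ≠ 0 := by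
      intro S hBS hS
      let f := QuotientGroup.mk' B
      have hf : Function.Surjective f := QuotientGroup.mk'_surjective B
      have hCf : (C.map f).Normal := hCn.map f hf
      have hn' : dser (C.map f) n = ⊥ := by
        rw [dser_map]
        exact QuotientGroup.map_mk'_self B
      have hQf : Group.FG (Q ⧸ B) := QuotientGroup.fg B
      have h1 := ih (Q ⧸ B) hQf (C.map f) hCf hn' (f '' GG) (hne.image f)
        (by
          rintro _ ⟨g, hg, rfl⟩ k hk
          exact ⟨g ^ k, hpow g hg k hk, map_pow f g k⟩)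
        (by
          rintro _ ⟨g, hg, rfl⟩ _ ⟨c, hc, rfl⟩
          exact ⟨c * g, hC g hg c hc, map_mul f c g⟩)
        (by
          intro S' hCS' hS'
          have h2 : (S'.comap f).index ≠ 0 := by
            apply base
            · intro c hc
              exact hCS' ⟨c, hc, rfl⟩
            · intro g hg
              obtain ⟨k, hk, hk'⟩ := hS' (f g) ⟨g, hg, rfl⟩
              exact ⟨k, hk, by rw [Subgroup.mem_comap, map_pow]; exact hk'⟩
          rw [Subgroup.index_comap_of_surjective _ hf] at h2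
          exact h2)
        (S.map f)
        (by
          rintro _ ⟨g, hg, rfl⟩
          obtain ⟨k, hk, hk'⟩ := hS g hg
          exact ⟨k, hk, ⟨g ^ k, hk', map_pow f g k⟩⟩)
      have h3 : (S.map f).comap f = S := by
        rw [Subgroup.comap_map_eq, QuotientGroup.ker_mk', sup_eq_left.2 hBS]
      rw [← h3, Subgroup.index_comap_of_surjective _ hf]
      exact h1
    -- Q1
    let Q1 : Subgroup Q := S ⊔ B
    have hQ1 : Q1.index ≠ 0 := key Q1 le_sup_right (by
      intro g hg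
      obtain ⟨k, hk, hk'⟩ := hS g hg
      exact ⟨k, hk, (le_sup_left : S ≤ Q1) hk'⟩)
    have hQ1mem : ∀ q ∈ Q1, ∃ b ∈ B, ∃ s ∈ S, q = b * s := by
      intro q hq
      have h1 : q ∈ ((B ⊔ S : Subgroup Q) : Set Q) := by rw [sup_comm]; exact hq
      rw [Subgroup.normal_mul] at h1
      obtain ⟨b, hb, s, hs, rfl⟩ := Set.mem_mul.1 h1
      exact ⟨b, hb, s, hs, rfl⟩
    let T0 : Subgroup Q := S ⊓ B
    have hT0 : ∀ q ∈ Q1, ∀ t ∈ T0, q * t * q⁻¹ ∈ T0 := by
      intro q hq t ht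
      obtain ⟨b, hb, s, hs, rfl⟩ := hQ1mem q hq
      have h1 : s * t * s⁻¹ ∈ T0 :=
        Subgroup.mem_inf.2 ⟨S.mul_mem (S.mul_mem hs (Subgroup.mem_inf.1 ht).1) (S.inv_mem hs),
          hBn.conj_mem t (Subgroup.mem_inf.1 ht).2 s⟩
      have h2 : b * s * t * (b * s)⁻¹ = s * t * s⁻¹ := by
        have h3 : b * (s * t * s⁻¹) = (s * t * s⁻¹) * b := hBab b hb _ h1.2
        calc b * s * t * (b * s)⁻¹ = (b * (s * t * s⁻¹)) * b⁻¹ := by group
          _ = s * t * s⁻¹ := by rw [h3]; group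
      rw [h2]
      exact h1
    -- stabilisers
    let St : Q → Subgroup Q := fun b =>
      { carrier := {q | q ∈ Q1 ∧ q * b * q⁻¹ * b⁻¹ ∈ T0}
        one_mem' := ⟨one_mem _, by simp⟩
        mul_mem' := by
          rintro q r ⟨hq, hq'⟩ ⟨hr, hr'⟩
          refine ⟨mul_mem hq hr, ?_⟩
          have h1 : q * r * b * (q * r)⁻¹ * b⁻¹ =
              (q * (r * b * r⁻¹ * b⁻¹) * q⁻¹) * (q * b * q⁻¹ * b⁻¹) := by group
          rw [h1]
          exact mul_mem (hT0 q hq _ hr') hq'
        inv_mem' := by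
          rintro q ⟨hq, hq'⟩
          refine ⟨inv_mem hq, ?_⟩
          have h1 : q⁻¹ * b * q⁻¹⁻¹ * b⁻¹ = q⁻¹ * (q * b * q⁻¹ * b⁻¹)⁻¹ * q⁻¹⁻¹ := by group
          rw [h1]
          exact hT0 _ (inv_mem hq) _ (inv_mem hq') }
    have hStmem : ∀ b q, q ∈ St b ↔ q ∈ Q1 ∧ q * b * q⁻¹ * b⁻¹ ∈ T0 := fun b q => Iff.rfl
    -- the element beta
    have hbeta : ∀ s ∈ S, ∀ b ∈ B, ∀ m : ℕ, (b * s) ^ m ∈ S →
        (b * s) ^ m * (s ^ m)⁻¹ ∈ T0 := by
      intro s hs b hb m hm
      refine Subgroup.mem_inf.2 ⟨S.mul_mem hm (S.inv_mem (S.pow_mem hs m)), ?_⟩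
      have h1 : (QuotientGroup.mk' B) ((b * s) ^ m * (s ^ m)⁻¹) = 1 := by
        have h2 : (QuotientGroup.mk' B) b = 1 := by
          rw [← MonoidHom.mem_ker, QuotientGroup.ker_mk']
          exact hb
        rw [map_mul, map_pow, map_mul, h2, one_mul, map_inv, map_pow, mul_inv_cancel]
      rw [← MonoidHom.mem_ker, QuotientGroup.ker_mk'] at h1
      exact h1
    have hstab : ∀ b ∈ B, (St b).index ≠ 0 := by
      intro b hb
      apply key
      · intro b' hb'
        rw [hStmem]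
        refine ⟨(le_sup_right : B ≤ Q1) hb', ?_⟩
        rw [hBab b' hb' b hb]
        simp
      · intro g hg
        obtain ⟨k, hk, hk'⟩ := hS g hg
        have hs : g ^ k ∈ S := hk'
        have hsG : g ^ k ∈ GG := hpow g hg k hk
        obtain ⟨m, hm, hm'⟩ := hS (b * g ^ k) (hC _ hsG b (hBC hb))
        refine ⟨k * m, Nat.mul_pos hk hm, ?_⟩
        rw [pow_mul]
        set s := g ^ k with hsdef
        rw [hStmem]
        refine ⟨(le_sup_left : S ≤ Q1) (pow_mem hs m), ?_⟩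
        have hβ := hbeta s hs b hb m hm'
        set β := (b * s) ^ m * (s ^ m)⁻¹ with hβdef
        have e1 : (b * s) ^ m = β * s ^ m := by rw [hβdef]; group
        have e2 : b * s * (β * s ^ m) = β * s ^ m * (b * s) := by
          rw [← e1]
          exact (Commute.self_pow (b * s) m).eq
        have e3 : b * (s * β * s⁻¹) = β * (s ^ m * b * (s ^ m)⁻¹) := by
          have e4 : s * s ^ m = s ^ m * s := (Commute.self_pow s m).eq
          have e5 : b * (s * β * s⁻¹) * (s * s ^ m) = β * (s ^ m * b * (s ^ m)⁻¹) * (s ^ m * s) := by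
            calc b * (s * β * s⁻¹) * (s * s ^ m) = b * s * (β * s ^ m) := by group
              _ = β * s ^ m * (b * s) := e2
              _ = β * (s ^ m * b * (s ^ m)⁻¹) * (s ^ m * s) := by group
          rw [e4] at e5
          exact mul_right_cancel e5
        have e6 : s ^ m * b * (s ^ m)⁻¹ * b⁻¹ = β⁻¹ * (s * β * s⁻¹) := by
          have e7 : s * β * s⁻¹ ∈ B := hBn.conj_mem β hβ.2 s
          have e8 : b * (s * β * s⁻¹) = (s * β * s⁻¹) * b := hBab b hb _ e7
          rw [e8] at e3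
          have e9 : s ^ m * b * (s ^ m)⁻¹ = β⁻¹ * ((s * β * s⁻¹) * b) := by
            rw [e3]; group
          rw [e9]
          group
        rw [e6]
        exact mul_mem (inv_mem hβ) (hT0 s ((le_sup_left : S ≤ Q1) hs) β hβ)
    -- Q1 is finitely generated
    have hQ1fg : Q1.FG := by
      have : Q1.FiniteIndex := ⟨hQ1⟩
      have h1 : Group.FG Q1 := Subgroup.fg_of_index_ne_zero Q1
      exact (Group.fg_iff_subgroup_fg Q1).1 h1
    obtain ⟨FQ, hFQ⟩ := hQ1fg
    have hFQ1 : ∀ q ∈ FQ, q ∈ Q1 := by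
      intro q hq
      rw [← hFQ]
      exact Subgroup.subset_closure hq
    choose! bf hbf sf hsf hbs using hQ1mem
    -- covers of the stabilisers
    have hcov : ∀ b ∈ B, ∃ R : Set Q, R.Finite ∧ R ⊆ Q1 ∧ ∀ q ∈ Q1, ∃ r ∈ R, r⁻¹ * q ∈ St b := by
      intro b hb
      obtain ⟨R, hR, h1⟩ := exists_cover (hstab b hb)
      refine ⟨R ∩ Q1, hR.subset Set.inter_subset_left, Set.inter_subset_right, ?_⟩
      intro q hq
      obtain ⟨r, hr, hrq⟩ := h1 q
      refine ⟨r, ⟨hr, ?_⟩, hrq⟩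
      have h2 : r⁻¹ * q ∈ Q1 := ((hStmem b _).1 hrq).1
      have h3 : r = q * (r⁻¹ * q)⁻¹ := by group
      rw [SetLike.mem_coe, h3]
      exact mul_mem hq (inv_mem h2)
    choose! RR hRRfin hRRQ hRR using hcov
    let F : Set Q := ⋃ q ∈ FQ, (fun r => r * bf q * r⁻¹) '' (RR (bf q))
    have hbfB : ∀ q ∈ FQ, bf q ∈ B := fun q hq => hbf q (hFQ1 q hq)
    have hFfin : F.Finite := by
      apply Set.Finite.biUnion FQ.finite_toSet
      intro q hq
      exact (hRRfin _ (hbfB q hq)).image _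
    have hFB : F ⊆ B := by
      intro x hx
      simp only [F, Set.mem_iUnion] at hx
      obtain ⟨q, hq, r, hr, rfl⟩ := hx
      exact hBn.conj_mem _ (hbfB q hq) r
    -- conjugates of elements of F
    have hFconj0 : ∀ p ∈ Q1, ∀ q ∈ FQ, ∃ t ∈ T0, ∃ x ∈ F, p * bf q * p⁻¹ = t * x := by
      intro p hp q hq
      obtain ⟨r, hr, hrp⟩ := hRR (bf q) (hbfB q hq) p hp
      have h1 := ((hStmem _ _).1 hrp).2
      have h2 := hT0 r (hRRQ _ (hbfB q hq) hr) _ h1
      refine ⟨_, h2, r * bf q * r⁻¹, ?_, ?_⟩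
      · simp only [F, Set.mem_iUnion]
        exact ⟨q, hq, r, hr, rfl⟩
      · group
    have hFconj : ∀ p ∈ Q1, ∀ x ∈ F, ∃ t ∈ T0, ∃ y ∈ F, p * x * p⁻¹ = t * y := by
      intro p hp x hx
      simp only [F, Set.mem_iUnion] at hx
      obtain ⟨q, hq, r, hr, rfl⟩ := hx
      obtain ⟨t, ht, y, hy, h1⟩ := hFconj0 (p * r)
        (mul_mem hp (hRRQ _ (hbfB q hq) hr)) q hq
      refine ⟨t, ht, y, hy, ?_⟩
      rw [← h1]
      group
    let B1 : Subgroup Q := Subgroup.closure ((T0 : Set Q) ∪ F)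
    have hB1B : B1 ≤ B := by
      rw [Subgroup.closure_le]
      exact Set.union_subset (fun t ht => ht.2) hFB
    have hB1conj : ∀ p ∈ Q1, ∀ x ∈ B1, p * x * p⁻¹ ∈ B1 := by
      intro p hp x hx
      induction hx using Subgroup.closure_induction with
      | mem x hx =>
        rcases hx with hx | hx
        · exact Subgroup.subset_closure (Or.inl (hT0 p hp x hx))
        · obtain ⟨t, ht, y, hy, h1⟩ := hFconj p hp x hx
          rw [h1]
          exact mul_mem (Subgroup.subset_closure (Or.inl ht))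
            (Subgroup.subset_closure (Or.inr hy))
      | one => simp
      | mul x y _ _ hx hy =>
        have : p * (x * y) * p⁻¹ = (p * x * p⁻¹) * (p * y * p⁻¹) := by group
        rw [this]
        exact mul_mem hx hy
      | inv x _ hx =>
        have : p * x⁻¹ * p⁻¹ = (p * x * p⁻¹)⁻¹ := by group
        rw [this]
        exact inv_mem hx
    have hQ1rep : ∀ q ∈ Q1, ∃ b ∈ B1, ∃ s ∈ S, q = b * s := by
      intro q hq
      rw [← hFQ] at hq
      induction hq using Subgroup.closure_induction with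
      | mem q hq =>
        refine ⟨bf q, ?_, sf q, hsf q (hFQ1 q hq), hbs q (hFQ1 q hq)⟩
        obtain ⟨t, ht, x, hx, h1⟩ := hFconj0 1 (one_mem _) q hq
        have h2 : bf q = t * x := by simpa using h1
        rw [h2]
        exact mul_mem (Subgroup.subset_closure (Or.inl ht)) (Subgroup.subset_closure (Or.inr hx))
      | one => exact ⟨1, one_mem _, 1, one_mem _, by simp⟩
      | mul x y _ _ hx hy =>
        obtain ⟨b, hb, s, hs, rfl⟩ := hx
        obtain ⟨c, hc, t, ht, rfl⟩ := hy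
        refine ⟨b * (s * c * s⁻¹), mul_mem hb
          (hB1conj s ((le_sup_left : S ≤ Q1) hs) c hc), s * t, mul_mem hs ht, by group⟩
      | inv x _ hx =>
        obtain ⟨b, hb, s, hs, rfl⟩ := hx
        refine ⟨s⁻¹ * b⁻¹ * s⁻¹⁻¹, hB1conj _ ((le_sup_left : S ≤ Q1) (inv_mem hs)) _
          (inv_mem hb), s⁻¹, inv_mem hs, by group⟩
    have hBB1 : B ≤ B1 := by
      intro b hb
      obtain ⟨c, hc, s, hs, h1⟩ := hQ1rep b ((le_sup_right : B ≤ Q1) hb)
      have h2 : s = c⁻¹ * b := by rw [h1]; group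
      have h3 : s ∈ T0 := Subgroup.mem_inf.2
        ⟨hs, by rw [h2]; exact B.mul_mem (B.inv_mem (hB1B hc)) hb⟩
      rw [h1]
      exact mul_mem hc (Subgroup.subset_closure (Or.inl h3))
    -- Q2
    have hfin : Finite F := hFfin
    let Q2 : Subgroup Q := ⨅ f : F, St f
    have hQ2 : Q2.index ≠ 0 := Subgroup.index_iInf_ne_zero (fun f => hstab f (hFB f.2))
    obtain ⟨g0, hg0⟩ := hne
    obtain ⟨k, hk, hk'⟩ := hS g0 hg0
    obtain ⟨l, hl, -, hl'⟩ := Subgroup.exists_pow_mem_of_index_ne_zero hQ2 (g0 ^ k)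
    set s := (g0 ^ k) ^ l with hsdef
    have hsS : s ∈ S := pow_mem hk' l
    have hsG : s ∈ GG := hpow _ (hpow g0 hg0 k hk) l hl
    have hsQ1 : s ∈ Q1 := (le_sup_left : S ≤ Q1) hsS
    have hsF : ∀ x ∈ F, s * x * s⁻¹ * x⁻¹ ∈ T0 := by
      intro x hx
      have h1 : s ∈ St x := by
        have h2 : Q2 ≤ St x := iInf_le (fun f : F => St f) ⟨x, hx⟩
        exact h2 hl'
      exact ((hStmem _ _).1 h1).2
    have hsB : ∀ x ∈ B, s * x * s⁻¹ * x⁻¹ ∈ T0 := by
      intro x hx
      have hx' := hBB1 hx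
      clear hx
      induction hx' using Subgroup.closure_induction with
      | mem x hx =>
        rcases hx with hx | hx
        · exact mul_mem (hT0 s hsQ1 x hx) (inv_mem hx)
        · exact hsF x hx
      | one => simp
      | mul x y hx hy ihx ihy =>
        have hxB : x ∈ Q1 := (le_sup_right : B ≤ Q1) (hB1B hx)
        have : s * (x * y) * s⁻¹ * (x * y)⁻¹ =
            (s * x * s⁻¹ * x⁻¹) * (x * (s * y * s⁻¹ * y⁻¹) * x⁻¹) := by group
        rw [this]
        exact mul_mem ihx (hT0 x hxB _ ihy)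
      | inv x hx ihx =>
        have hxB : x ∈ Q1 := (le_sup_right : B ≤ Q1) (hB1B hx)
        have : s * x⁻¹ * s⁻¹ * x⁻¹⁻¹ = x⁻¹ * (x * (s * x * s⁻¹)⁻¹) * x⁻¹⁻¹ := by group
        rw [this]
        refine hT0 _ (inv_mem hxB) _ ?_
        have h2 : x * (s * x * s⁻¹)⁻¹ = (s * x * s⁻¹ * x⁻¹)⁻¹ := by group
        rw [h2]
        exact inv_mem ihx
    have htor : ∀ f ∈ F, ∃ m : ℕ, 1 ≤ m ∧ f ^ m ∈ T0 := by
      intro b hbF
      have hb : b ∈ B := hFB hbF
      obtain ⟨m, hm, hm'⟩ := hS (b * s) (hC s hsG b (hBC hb))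
      refine ⟨m, hm, ?_⟩
      have hβ := hbeta s hsS b hb m hm'
      -- (bs)^n s^-n b^-n in T0
      have h1 : ∀ n : ℕ, (b * s) ^ n * (s ^ n)⁻¹ * (b ^ n)⁻¹ ∈ T0 := by
        intro n
        induction n with
        | zero => simp
        | succ n ihn =>
          have hβn : (b * s) ^ n * (s ^ n)⁻¹ ∈ B := by
            have : (b * s) ^ n * (s ^ n)⁻¹ = ((b * s) ^ n * (s ^ n)⁻¹ * (b ^ n)⁻¹) * b ^ n := by
              group
            rw [this]
            exact mul_mem ihn.2 (pow_mem hb n)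
          set β := (b * s) ^ n * (s ^ n)⁻¹ with hβdef
          have e1 : (b * s) ^ (n + 1) * (s ^ (n + 1))⁻¹ = b * (s * β * s⁻¹) := by
            rw [pow_succ' (b * s), pow_succ s, hβdef]
            have e4 : s * s ^ n = s ^ n * s := (Commute.self_pow s n).eq
            group
          have e2 : (b * s) ^ (n + 1) * (s ^ (n + 1))⁻¹ * (b ^ (n + 1))⁻¹ =
              b * ((s * β * s⁻¹ * β⁻¹) * (β * (b ^ n)⁻¹)) * b⁻¹ := by
            rw [e1, pow_succ' b]
            have e5 : (b * b ^ n)⁻¹ = (b ^ n)⁻¹ * b⁻¹ := by group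
            rw [e5]
            group
          rw [e2]
          have hbQ1 : b ∈ Q1 := (le_sup_right : B ≤ Q1) hb
          exact hT0 b hbQ1 _ (mul_mem (hsB β hβn) ihn)
      have h2 := h1 m
      have h3 : b ^ m = ((b * s) ^ m * (s ^ m)⁻¹ * (b ^ m)⁻¹)⁻¹ * ((b * s) ^ m * (s ^ m)⁻¹) := by
        group
      rw [h3]
      exact mul_mem (inv_mem h2) hβ
    -- conclusion
    obtain ⟨R2, hR2, hcov2⟩ := exists_cover_closure T0 B (fun t ht => ht.2) hBab hFfin hFB htor
    obtain ⟨R1, hR1, hcov1⟩ := exists_cover hQ1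
    refine index_ne_zero_of_cover (hR1.image2 (fun x y => x * y) hR2) ?_
    intro q
    obtain ⟨r1, hr1, h1⟩ := hcov1 q
    obtain ⟨b, hb, s', hs', h2⟩ := hQ1rep _ h1
    obtain ⟨r2, hr2, h3⟩ := hcov2 b hb
    refine ⟨r1 * r2, ⟨r1, hr1, r2, hr2, rfl⟩, ?_⟩
    have h4 : (r1 * r2)⁻¹ * q = (r2⁻¹ * b) * s' := by
      have : q = r1 * (b * s') := by rw [← h2]; group
      rw [this]
      group
    rw [h4]
    exact mul_mem h3.1 hs'

/-- relative criterion -/
theorem finiteIndex_of_hasPows {Q : Type} [Group Q] (hQ : Group.FG Q) {C : Subgroup Q}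
    (hC : C.Normal) {n : ℕ} (hn : dser C n = ⊥) {GG : Set Q} (hne : GG.Nonempty)
    (hpow : ∀ g ∈ GG, ∀ k : ℕ, 1 ≤ k → g ^ k ∈ GG) (hCG : ∀ g ∈ GG, ∀ c ∈ C, c * g ∈ GG)
    (base : ∀ S : Subgroup Q, C ≤ S → HasPows GG S → S.index ≠ 0)
    {S : Subgroup Q} (hS : HasPows GG S) : S.index ≠ 0 :=
  finiteIndex_of_hasPows_aux n Q hQ C hC hn GG hne hpow hCG base S hS

/-- In a f.g. solvable group a subgroup containing a power of every element has finite index. -/
theorem finiteIndex_of_pows {Q : Type} [Group Q] (hQ : Group.FG Q) (hs : Group.IsSolvable Q)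
    {S : Subgroup Q} (hS : ∀ g : Q, ∃ k : ℕ, 1 ≤ k ∧ g ^ k ∈ S) : S.index ≠ 0 := by
  obtain ⟨n, hn⟩ := (Group.isSolvable_def Q).1 hs
  refine finiteIndex_of_hasPows hQ (C := ⊤) inferInstance (n := n) ?_ (GG := Set.univ)
    ⟨1, trivial⟩ (fun _ _ _ _ => trivial) (fun _ _ _ _ => trivial) ?_ (fun g _ => hS g)
  · rw [dser_top]
    exact hn
  · intro S hS _
    rw [top_le_iff.1 hS]
    simp

end Pool.Agent.RatBool
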