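import Pool.Agent.Lib_MP_7f70a7_al.KeyA

/-!
MP_7f70a7_al: virtually abelian groups, Lemma P, extensions.
-/

set_option autoImplicit false

open scoped Pointwise
open Polynomial

namespace Pool.Agent.RatBool

/-- virtually abelian -/
def VA (G : Type) [Group G] : Prop := ∃ A : Subgroup G, A.index ≠ 0 ∧ Ab A

section va
variable {G : Type} [Group G]

theorem ab_closure {S : Set G} (h : ∀ x ∈ S, ∀ y ∈ S, x * y = y * x) :
    Ab (Subgroup.closure S) := by
  intro x hx y hy
  have h9 : Subgroup.closure S ≤ Subgroup.centralizer (Subgroup.closure S : Set G) := by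
    rw [Subgroup.closure_le, Subgroup.centralizer_closure]
    intro z hz
    rw [SetLike.mem_coe, Subgroup.mem_centralizer_iff]
    intro w hw
    exact h w hw z hz
  have h8 := h9 hx
  rw [Subgroup.mem_centralizer_iff] at h8
  exact (h8 y hy).symm

theorem VA_of_surjective {G' : Type} [Group G'] (h : VA G) (f : G →* G')
    (hf : Function.Surjective f) : VA G' := by
  obtain ⟨A, hA, hab⟩ := h
  refine ⟨A.map f, ?_, ?_⟩
  · intro h0
    apply hA
    have h1 := Subgroup.index_map_dvd A hf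
    rw [h0] at h1
    exact Nat.eq_zero_of_zero_dvd h1
  · rintro _ ⟨x, hx, rfl⟩ _ ⟨y, hy, rfl⟩
    rw [← map_mul, ← map_mul, hab x hx y hy]

theorem VA_of_injective {G' : Type} [Group G'] (h : VA G') (f : G →* G')
    (hf : Function.Injective f) : VA G := by
  obtain ⟨A, hA, hab⟩ := h
  refine ⟨A.comap f, ?_, ?_⟩
  · rw [Subgroup.index_comap]
    have : A.FiniteIndex := ⟨hA⟩
    exact (inferInstance : (A.subgroupOf f.range).FiniteIndex).index_ne_zero
  · intro x hx y hy
    apply hf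
    rw [map_mul, map_mul]
    exact hab _ hx _ hy

/-- a common power commuting with finitely many elements -/
theorem exists_common_pow (x : G) {F : Set G} (hF : F.Finite)
    (h : ∀ b ∈ F, ∃ s : ℕ, 1 ≤ s ∧ Commute (x ^ s) b) :
    ∃ s : ℕ, 1 ≤ s ∧ ∀ b ∈ F, Commute (x ^ s) b := by
  induction F, hF using Set.Finite.induction_on with
  | empty => exact ⟨1, le_rfl, fun b hb => absurd hb (Set.notMem_empty b)⟩
  | @insert f F _ _ ih =>
    obtain ⟨s, hs, h1⟩ := ih fun b hb => h b (Set.mem_insert_of_mem _ hb)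
    obtain ⟨t, ht, h2⟩ := h f (Set.mem_insert _ _)
    refine ⟨s * t, Nat.mul_pos hs ht, ?_⟩
    intro b hb
    rcases Set.mem_insert_iff.1 hb with rfl | hb
    · rw [mul_comm, pow_mul]
      exact h2.pow_left _
    · rw [pow_mul]
      exact (h1 b hb).pow_left _

/-- if every element has a power commuting with each element of a f.g. subgroup, then the
centraliser of the subgroup has finite index -/
theorem centralizer_index (hG : Group.FG G) (hs : Group.IsSolvable G) {F : Set G} (hF : F.Finite)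
    (h : ∀ x : G, ∀ b ∈ F, ∃ s : ℕ, 1 ≤ s ∧ Commute (x ^ s) b) :
    (Subgroup.centralizer (Subgroup.closure F : Set G)).index ≠ 0 := by
  apply finiteIndex_of_pows hG hs
  intro x
  obtain ⟨s, hs1, hs2⟩ := exists_common_pow x hF (h x)
  refine ⟨s, hs1, ?_⟩
  rw [Subgroup.centralizer_closure, Subgroup.mem_centralizer_iff]
  intro b hb
  exact (hs2 b hb).eq.symm

/-- no element of a module which is f.g. over the integers has annihilator `(p)` -/
theorem not_ann_of_finite {M : Type} [AddCommGroup M] [Module ℤ[X] M] (hM : AddGroup.FG M)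
    (m : M) {p : ℕ} (hp : p ≠ 1)
    (h : ∀ g : ℤ[X], g • m = 0 ↔ g.map (Int.castRingHom (ZMod p)) = 0) : False := by
  have h1 : Module.Finite ℤ M := Module.Finite.iff_addGroup_fg.2 hM
  have h2 := (Module.End.isIntegral (R := ℤ) (M := M)).isIntegral
    (Algebra.lsmul ℤ ℤ M (X : ℤ[X]))
  obtain ⟨g, hg, hg0⟩ := h2
  have h3 : g • m = 0 := by
    have h4 : aeval (Algebra.lsmul ℤ ℤ M (X : ℤ[X])) g = 0 := hg0
    rw [aeval_algHom_apply, aeval_X_left_apply] at h4
    have h5 := congrArg (fun φ : Module.End ℤ M => φ m) h4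
    exact h5
  rw [h] at h3
  have : Nontrivial (ZMod p) := ZMod.nontrivial_iff.2 hp
  exact (hg.map (Int.castRingHom (ZMod p))).ne_zero h3

theorem lemmaP (hG : BA G) (hs : Group.IsSolvable G) {P0 : Subgroup G} (hn : P0.Normal)
    (hfg : P0.FG) (hab : Ab P0) : (Subgroup.centralizer (P0 : Set G)).index ≠ 0 := by
  obtain ⟨F, hF⟩ := hfg
  rw [← hF]
  apply centralizer_index hG.fg hs F.finite_toSet
  intro x b hbF
  have hb : b ∈ P0 := by
    rw [← hF]
    exact Subgroup.subset_closure hbF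
  by_cases hx : ∃ s : ℕ, 1 ≤ s ∧ x ^ s ∈ P0
  · obtain ⟨s, hs1, hs2⟩ := hx
    exact ⟨s, hs1, hab _ hs2 b hb⟩
  · push Not at hx
    obtain ⟨M, i1, i2, c, hcN, hcC, hcx⟩ := exists_ctx P0 ⊥ hn inferInstance bot_le (by
      intro a ha b hb
      rw [hab a ha b hb]
      simp) x
    have hbN : b ∈ c.N := by rw [hcN]; exact hb
    rcases c.keyA hG (by
      intro F _ hFC
      refine ⟨⊥, inferInstance, ⟨∅, by simp⟩, ?_, bot_le⟩
      rw [hcC] at hFC
      exact hFC) (by
      intro s hs1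
      rw [hcx, hcN]
      exact hx s hs1) hbN with ⟨s, hs1, h1⟩ | ⟨b', hb', p, hp, hann⟩
    · refine ⟨s, hs1, ?_⟩
      rw [c.comm_iff hbN, hcC, hcx, Subgroup.mem_bot] at h1
      have h2 := mul_inv_eq_one.1 h1
      exact mul_inv_eq_iff_eq_mul.1 h2
    · exfalso
      refine not_ann_of_finite ?_ (c.q b') hp hann
      rw [AddGroup.fg_iff]
      refine ⟨c.q '' (F : Set G), ?_, F.finite_toSet.image _⟩
      rw [eq_top_iff]
      rintro m -
      obtain ⟨y, hy, rfl⟩ := c.q_surj m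
      rw [hcN, ← hF] at hy
      have hcl : ∀ y ∈ Subgroup.closure (F : Set G), y ∈ c.N := by
        intro y hy
        rw [hcN, ← hF]
        exact hy
      induction hy using Subgroup.closure_induction with
      | mem x hx => exact AddSubgroup.subset_closure ⟨x, hx, rfl⟩
      | one => rw [c.q_one]; exact zero_mem _
      | mul x y hx hy h1 h2 =>
        rw [c.q_mul _ (hcl x hx) _ (hcl y hy)]
        exact add_mem h1 h2
      | inv x hx h1 =>
        rw [c.q_inv (hcl x hx)]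
        exact neg_mem h1

/-- a f.g. abelian normal subgroup of finite index generated by powers -/
theorem exists_P0 (hs : Group.IsSolvable G) {P : Subgroup G} (hn : P.Normal) (hfg : P.FG)
    (hva : VA P) : ∃ P0 : Subgroup G, P0.Normal ∧ P0.FG ∧ Ab P0 ∧ P0 ≤ P ∧ P0.relIndex P ≠ 0 ∧
      ∃ m : ℕ, 1 ≤ m ∧ ∀ p ∈ P, p ^ m ∈ P0 := by
  obtain ⟨A, hA, hab⟩ := hva
  have : A.FiniteIndex := ⟨hA⟩
  have hPfg : Group.FG P := (Group.fg_iff_subgroup_fg P).2 hfg
  set m := A.normalCore.index with hm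
  have hm0 : m ≠ 0 := Subgroup.FiniteIndex.index_ne_zero
  have hpow : ∀ p : P, p ^ m ∈ A := fun p =>
    Subgroup.normalCore_le A (Subgroup.pow_index_mem _ p)
  set P0 : Subgroup G := Subgroup.closure {x | ∃ p ∈ P, x = p ^ m} with hP0
  have hP0P : P0 ≤ P := by
    rw [hP0, Subgroup.closure_le]
    rintro _ ⟨p, hp, rfl⟩
    exact pow_mem hp m
  have hP0pow : ∀ p ∈ P, p ^ m ∈ P0 := fun p hp => Subgroup.subset_closure ⟨p, hp, rfl⟩
  have hrel : P0.relIndex P ≠ 0 := by
    apply finiteIndex_of_pows hPfg (inferInstance)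
    intro g
    refine ⟨m, by omega, ?_⟩
    rw [Subgroup.mem_subgroupOf]
    push_cast
    exact hP0pow g g.2
  refine ⟨P0, ?_, ?_, ?_, hP0P, hrel, m, by omega, hP0pow⟩
  · constructor
    intro n hn' g
    induction hn' using Subgroup.closure_induction with
    | mem x hx =>
      obtain ⟨p, hp, rfl⟩ := hx
      rw [← conj_pow]
      exact hP0pow _ (hn.conj_mem p hp g)
    | one => simp
    | mul x y _ _ h1 h2 =>
      have : g * (x * y) * g⁻¹ = (g * x * g⁻¹) * (g * y * g⁻¹) := by group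
      rw [this]
      exact mul_mem h1 h2
    | inv x _ h1 =>
      have : g * x⁻¹ * g⁻¹ = (g * x * g⁻¹)⁻¹ := by group
      rw [this]
      exact inv_mem h1
  · have : (P0.subgroupOf P).FiniteIndex := ⟨hrel⟩
    have h1 : Group.FG (P0.subgroupOf P) := Subgroup.fg_of_index_ne_zero _
    have h2 : (P0.subgroupOf P).FG := (Group.fg_iff_subgroup_fg _).1 h1
    have h3 := FG_map P.subtype h2
    rw [Subgroup.subgroupOf_map_subtype, inf_eq_left.2 hP0P] at h3
    exact h3
  · apply ab_closure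
    rintro _ ⟨p, hp, rfl⟩ _ ⟨q, hq, rfl⟩
    have h1 := hab _ (hpow ⟨p, hp⟩) _ (hpow ⟨q, hq⟩)
    have h2 := congrArg (Subtype.val) h1
    push_cast at h2
    exact h2

theorem conj_pow_left {g h d : G} (hd : g * h * g⁻¹ = d * h) (hg : Commute g d) (n : ℕ) :
    g ^ n * h * (g ^ n)⁻¹ = d ^ n * h := by
  induction n with
  | zero => simp
  | succ n ih =>
    have h1 : g ^ (n + 1) * h * (g ^ (n + 1))⁻¹ = g * (g ^ n * h * (g ^ n)⁻¹) * g⁻¹ := by
      rw [pow_succ']
      group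
    rw [h1, ih]
    have h2 : g * (d ^ n * h) * g⁻¹ = (g * d ^ n) * h * g⁻¹ := by group
    rw [h2, (hg.pow_right n).eq]
    have h3 : d ^ n * g * h * g⁻¹ = d ^ n * (g * h * g⁻¹) := by group
    rw [h3, hd, ← mul_assoc, ← pow_succ]

theorem va_ext (hG : BA G) (hs : Group.IsSolvable G) {P : Subgroup G} (hn : P.Normal)
    (hfg : P.FG) (hva : VA P) (hvaQ : VA (G ⧸ P)) : VA G := by
  obtain ⟨P0, hP0n, hP0fg, hP0ab, hP0P, hrel, m, hm, hpow⟩ := exists_P0 hs hn hfg hva
  -- torsion exponent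
  obtain ⟨t, ht, htor⟩ : ∃ t : ℕ, 1 ≤ t ∧ ∀ z ∈ P0, IsOfFinOrder z → z ^ t = 1 := by
    set T : Subgroup G := Subgroup.closure {z | z ∈ P0 ∧ IsOfFinOrder z} with hT
    have hTP : T ≤ P0 := by
      rw [hT, Subgroup.closure_le]
      rintro z ⟨h, -⟩
      exact h
    have hTfg : T.FG := fg_of_le_ab hP0fg hP0ab hTP
    have hTab : Ab T := fun x hx y hy => hP0ab x (hTP hx) y (hTP hy)
    have hTtor : ∀ z ∈ T, IsOfFinOrder z := by
      intro z hz
      have hz' : z ∈ P0 ∧ IsOfFinOrder z := by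
        induction hz using Subgroup.closure_induction with
        | mem x hx => exact hx
        | one => exact ⟨one_mem _, IsOfFinOrder.one⟩
        | mul x y _ _ h1 h2 =>
          exact ⟨mul_mem h1.1 h2.1, Commute.isOfFinOrder_mul (hP0ab x h1.1 y h2.1) h1.2 h2.2⟩
        | inv x _ h1 => exact ⟨inv_mem h1.1, h1.2.inv⟩
      exact hz'.2
    have hTfin : Finite T := finite_of_torsion hTfg hTab hTtor
    refine ⟨Nat.card T, Nat.card_pos, ?_⟩
    intro z hz hzf
    have hzT : z ∈ T := Subgroup.subset_closure ⟨hz, hzf⟩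
    have h1 : (⟨z, hzT⟩ : T) ^ Nat.card T = 1 := pow_card_eq_one'
    have h2 := congrArg Subtype.val h1
    push_cast at h2
    exact h2
  -- the subgroup G1
  set Z0 := Subgroup.centralizer (P0 : Set G) with hZ0
  have hZ0i : Z0.index ≠ 0 := lemmaP hG hs hP0n hP0fg hP0ab
  obtain ⟨B, hB, hBab⟩ := hvaQ
  set B' := B.comap (QuotientGroup.mk' P) with hB'
  have hB'i : B'.index ≠ 0 := by
    rw [hB', Subgroup.index_comap_of_surjective _ (QuotientGroup.mk'_surjective P)]
    exact hB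
  -- powers act trivially on P/P0
  have hact : ∀ x : G, ∃ s : ℕ, 1 ≤ s ∧ ∀ p ∈ P, x ^ s * p * (x ^ s)⁻¹ * p⁻¹ ∈ P0 := by
    intro x
    set π := QuotientGroup.mk' P0 with hπ
    have hK : ((P.map π : Subgroup (G ⧸ P0)) : Set (G ⧸ P0)).Finite := by
      apply finite_of_relIndex (A := ⊥) (by simp)
      rw [Subgroup.relIndex_bot_left]
      have h1 : Nat.card (P.map π) = P0.relIndex P := by
        have h2 := Subgroup.relIndex_bot_left (P.map π)
        rw [← h2]
        have h3 : (⊥ : Subgroup (G ⧸ P0)) = P0.map π := by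
          rw [hπ, QuotientGroup.map_mk'_self]
        rw [h3, Subgroup.relIndex_map_map, QuotientGroup.ker_mk', sup_idem,
          sup_eq_left.2 hP0P]
      rw [h1]
      exact hrel
    have hKn : (P.map π).Normal := hn.map _ (QuotientGroup.mk'_surjective P0)
    obtain ⟨s, hs1, hs2⟩ := exists_common_pow (π x) hK
      (fun b hb => exists_pow_commute (P := P.map π) hK (π x) hb)
    refine ⟨s, hs1, ?_⟩
    intro p hp
    have h1 := hs2 (π p) ⟨p, hp, rfl⟩
    apply (QuotientGroup.eq_one_iff _).1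
    show π (x ^ s * p * (x ^ s)⁻¹ * p⁻¹) = 1
    rw [map_mul, map_inv, mul_inv_eq_one, map_mul, map_mul, map_inv, mul_inv_eq_iff_eq_mul,
      map_pow]
    exact h1.eq
  -- good elements
  let Gd : G → Prop := fun g => g ∈ Z0 ∧ g ∈ B' ∧ ∀ p ∈ P, g * p * g⁻¹ * p⁻¹ ∈ P0
  have hGdpow : ∀ g, Gd g → ∀ n : ℕ, Gd (g ^ n) := by
    intro g hg n
    refine ⟨pow_mem hg.1 n, pow_mem hg.2.1 n, ?_⟩
    induction n with
    | zero => intro p _; simp
    | succ n ih =>
      intro p hp
      have h1 : g ^ (n + 1) * p * (g ^ (n + 1))⁻¹ * p⁻¹ =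
          (g * (g ^ n * p * (g ^ n)⁻¹ * p⁻¹) * g⁻¹) * (g * p * g⁻¹ * p⁻¹) := by
        rw [pow_succ']
        group
      rw [h1]
      exact mul_mem (hP0n.conj_mem _ (ih p hp) g) (hg.2.2 p hp)
  have hGdex : ∀ x : G, ∃ n : ℕ, 1 ≤ n ∧ Gd (x ^ n) := by
    intro x
    obtain ⟨n1, hn1, -, h1⟩ := Subgroup.exists_pow_mem_of_index_ne_zero hZ0i x
    obtain ⟨n2, hn2, -, h2⟩ := Subgroup.exists_pow_mem_of_index_ne_zero hB'i x
    obtain ⟨n3, hn3, h3⟩ := hact (x ^ (n1 * n2))
    refine ⟨n1 * n2 * n3, Nat.mul_pos (Nat.mul_pos hn1 hn2) hn3, ?_, ?_, ?_⟩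
    · rw [mul_assoc, pow_mul]
      exact pow_mem h1 _
    · rw [mul_comm n1, mul_assoc, pow_mul]
      exact pow_mem h2 _
    · rw [pow_mul]
      exact h3
  have hcommP : ∀ g h, Gd g → Gd h → g * h * g⁻¹ * h⁻¹ ∈ P := by
    intro g h hg hh
    have h1 := hBab _ hg.2.1 _ hh.2.1
    apply (QuotientGroup.eq_one_iff _).1
    show QuotientGroup.mk' P (g * h * g⁻¹ * h⁻¹) = 1
    rw [map_mul, map_inv, mul_inv_eq_one, map_mul, map_inv, mul_inv_eq_iff_eq_mul, map_mul]
    exact h1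
  have hZcomm : ∀ g, g ∈ Z0 → ∀ z ∈ P0, Commute g z := by
    intro g hg z hz
    exact (Subgroup.mem_centralizer_iff.1 hg z hz).symm
  -- claim 1
  have claim1 : ∀ g, Gd g → ∀ d ∈ P, d ∈ Z0 → Commute (g ^ t) d := by
    intro g hg d hd hdZ
    set z := g * d * g⁻¹ * d⁻¹ with hz
    have hzP : z ∈ P0 := hg.2.2 d hd
    have h1 : g * d * g⁻¹ = z * d := by rw [hz]; group
    have hzf : IsOfFinOrder z := heis hG h1 (hZcomm g hg.1 z hzP).symm (hZcomm d hdZ z hzP).symm
    have h2 := conj_pow_left h1 (hZcomm g hg.1 z hzP) t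
    rw [htor z hzP hzf, one_mul] at h2
    exact mul_inv_eq_iff_eq_mul.1 h2
  -- claim 2
  have claim2 : ∀ g h, Gd g → Gd h → Commute ((g ^ t) ^ (m * t)) (h ^ t) := by
    intro g h hg hh
    set d := g ^ t * h ^ t * (g ^ t)⁻¹ * (h ^ t)⁻¹ with hd
    have hdP : d ∈ P := hcommP _ _ (hGdpow g hg t) (hGdpow h hh t)
    have hdZ : d ∈ Z0 := mul_mem (mul_mem (mul_mem (pow_mem hg.1 t) (pow_mem hh.1 t))
      (inv_mem (pow_mem hg.1 t))) (inv_mem (pow_mem hh.1 t))
    have h1 : g ^ t * h ^ t * (g ^ t)⁻¹ = d * h ^ t := by rw [hd]; group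
    have hf : IsOfFinOrder d :=
      heis hG h1 (claim1 g hg d hdP hdZ).symm (claim1 h hh d hdP hdZ).symm
    have h2 := conj_pow_left h1 (claim1 g hg d hdP hdZ) (m * t)
    have h3 : d ^ (m * t) = 1 := by
      rw [pow_mul]
      exact htor _ (hpow d hdP) hf.pow
    rw [h3, one_mul] at h2
    exact mul_inv_eq_iff_eq_mul.1 h2
  refine ⟨Subgroup.closure {x | ∃ g, Gd g ∧ x = (g ^ t) ^ (m * t)}, ?_, ?_⟩
  · apply finiteIndex_of_pows hG.fg hs
    intro x
    obtain ⟨n, hn1, hn2⟩ := hGdex x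
    refine ⟨n * (t * (m * t)), Nat.mul_pos hn1 (Nat.mul_pos ht (Nat.mul_pos hm ht)), ?_⟩
    apply Subgroup.subset_closure
    refine ⟨x ^ n, hn2, ?_⟩
    rw [pow_mul, pow_mul]
  · apply ab_closure
    rintro _ ⟨g, hg, rfl⟩ _ ⟨h, hh, rfl⟩
    exact (claim2 g h hg hh).pow_right (m * t)

end va

end Pool.Agent.RatBool
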